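import Pool.Agent.helper54.Expl.NDefs

/-!
# Iterated antidifferences

Proof.  Let `T = m + s`.  For `g : ℤ → ℚ` there is `J g : ℤ → ℚ` with `J g y - J g (y + 1) = g y`
for all `y` and `J g T = 0` (`J g y = ∑ i ∈ Ico y T, g i - ∑ i ∈ Ico T y, g i`, intervals of `ℤ`).
Let `A 0 = q`, `A (n + 1) = J (A n)`.
* `A (n + 1) y = ∑_{z ∈ [y, T)} C(z - y + n, n) q z` for `y ≤ T` (induction on `n`, hockey stick).
* `A n = 0` on `[T, T + L - 1 + n]` for `n ≥ 1` (`q = 0` on `[T, T + L - 1]`).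
Put `f φ = A (2 s - 1) (m + s - φ)`.  Then `nab^[r] f φ = A (2 s - 1 - r) (m + s - φ)` for
`r ≤ 2 s - 1`.
(i) `f (-r) = A (2 s - 1) (m + s + r) = 0` for `r < L + 2 s - 1`.
(ii) `nab^[2 (L + 2 s - 1)] f = nab^[2 L + 2 s - 1] (nab^[2 s - 1] f)` and
`nab^[2 s - 1] f φ = q (m + s - φ)`; `nab^[d] (fun φ => q (c - φ)) φ = ± (nab^[d] q) (c - φ + d)`.
(iii) for `i < s`, with `κ = s - 1 - i`: `nab^[2 i] f (m - Y + i + 1) = A (2 κ + 1) (Y + κ)
= ∑_{z ∈ [Y + κ, T)} C(z - Y - κ + 2 κ, 2 κ) q z`, and the terms with `Y ≤ z < Y + κ` of the sum in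
the statement are `0` (`Nat.choose_eq_zero_of_lt`; for `z ≥ Y` the natural subtraction is harmless).
(iv) for `i ≥ s`: `nab^[2 i] f φ = nab^[2 (i - s) + 1] (fun φ => q (m + s - φ)) φ` and at
`φ = m + i + 1` this is `∑_{c ≤ r} (-1)^c C(r, c) q (-(i - s) - 1 + c)` with `r = 2 (i - s) + 1`
odd, which is `0` by the symmetry `q (-1 - z) = q z` (`c ↔ r - c`).  (Or: `nab` of the function
`φ ↦ q (m + s - φ)` is antisymmetric about a point and the second difference keeps this.)
-/

set_option autoImplicit false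
open Finset

namespace Pool.Agent.helper54.Expl

/-- the antidifference vanishing at `T` -/
private noncomputable def antJ (T : ℤ) (g : ℤ → ℚ) (y : ℤ) : ℚ := ∑ i ∈ Ico y T, g i - ∑ i ∈ Ico T y, g i

/-- iterated antidifferences -/
private noncomputable def antA (T : ℤ) (q : ℤ → ℚ) (n : ℕ) : ℤ → ℚ := (antJ T)^[n] q

private lemma antJ_sub (T : ℤ) (g : ℤ → ℚ) (y : ℤ) : antJ T g y - antJ T g (y + 1) = g y := by
  unfold antJ
  rcases lt_or_ge y T with h | h
  · rw [Ico_eq_empty (show ¬ T < y by omega), Ico_eq_empty (show ¬ T < y + 1 by omega)]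
    have e : Ico y T = insert y (Ico (y + 1) T) := by
      ext z
      simp only [mem_Ico, mem_insert]
      omega
    rw [e, sum_insert (by simp)]
    simp
  · rw [Ico_eq_empty (show ¬ y < T by omega), Ico_eq_empty (show ¬ y + 1 < T by omega)]
    have e : Ico T (y + 1) = insert y (Ico T y) := by
      ext z
      simp only [mem_Ico, mem_insert]
      omega
    rw [e, sum_insert (by simp)]
    simp

private lemma antA_zero (T : ℤ) (q : ℤ → ℚ) : antA T q 0 = q := rfl

private lemma antA_succ (T : ℤ) (q : ℤ → ℚ) (n : ℕ) (y : ℤ) :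
    antA T q (n + 1) y = antJ T (antA T q n) y := by
  unfold antA
  rw [Function.iterate_succ_apply']

private lemma antA_sub (T : ℤ) (q : ℤ → ℚ) (n : ℕ) (y : ℤ) :
    antA T q (n + 1) y - antA T q (n + 1) (y + 1) = antA T q n y := by
  rw [antA_succ, antA_succ, antJ_sub]

private lemma antA_vanish (T : ℤ) (L : ℕ) (q : ℤ → ℚ)
    (h0 : ∀ z : ℤ, T ≤ z → z < T + L → q z = 0) (n : ℕ) :
    ∀ z : ℤ, T ≤ z → z < T + L + n → antA T q n z = 0 := by
  induction n with
  | zero =>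
    intro z h1 h2
    rw [antA_zero]
    exact h0 z h1 (by simpa using h2)
  | succ n ih =>
    intro z h1 h2
    rw [antA_succ]
    unfold antJ
    rw [Ico_eq_empty (show ¬ z < T by omega), sum_empty, sum_eq_zero, sub_zero]
    intro i hi
    rw [mem_Ico] at hi
    push_cast at h2
    exact ih i hi.1 (by omega)

private lemma antA_self (T : ℤ) (q : ℤ → ℚ) (n : ℕ) : antA T q (n + 1) T = 0 := by
  rw [antA_succ]
  unfold antJ
  simp

private lemma antA_sum (T : ℕ) (q : ℤ → ℚ) (d : ℕ) : ∀ n y : ℕ, y + d = T →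
    antA T q (n + 1) y = ∑ z ∈ Ico y T, (((z - y + n).choose n : ℕ) : ℚ) * q (z : ℤ) := by
  induction d with
  | zero =>
    intro n y h
    have : y = T := by omega
    subst this
    rw [antA_self]
    simp
  | succ d ihd =>
    intro n y h
    have hins : Ico y T = insert y (Ico (y + 1) T) := by
      ext z
      simp only [mem_Ico, mem_insert]
      omega
    have hnot : y ∉ Ico (y + 1) T := by simp
    have hcast : ((y : ℤ) + 1) = ((y + 1 : ℕ) : ℤ) := by push_cast; ring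
    induction n with
    | zero =>
      have h1 := antA_sub (T : ℤ) q 0 y
      rw [hcast, ihd 0 (y + 1) (by omega), antA_zero] at h1
      rw [hins, sum_insert hnot]
      simp only [Nat.choose_zero_right, Nat.cast_one, one_mul] at h1 ⊢
      linarith
    | succ n ihn =>
      have h1 := antA_sub (T : ℤ) q (n + 1) y
      rw [hcast, ihd (n + 1) (y + 1) (by omega), ihn] at h1
      have e : ∑ z ∈ Ico (y + 1) T, (((z - (y + 1) + (n + 1)).choose (n + 1) : ℕ) : ℚ) * q (z : ℤ)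
          = ∑ z ∈ Ico y T, (((z - y + n).choose (n + 1) : ℕ) : ℚ) * q (z : ℤ) := by
        rw [hins, sum_insert hnot, Nat.choose_eq_zero_of_lt (show y - y + n < n + 1 by omega)]
        rw [Nat.cast_zero, zero_mul, zero_add]
        apply sum_congr rfl
        intro z hz
        rw [mem_Ico] at hz
        rw [show z - (y + 1) + (n + 1) = z - y + n by omega]
      rw [e] at h1
      have h2 : antA (T : ℤ) q (n + 1 + 1) y
          = ∑ z ∈ Ico y T, (((z - y + n).choose n : ℕ) : ℚ) * q (z : ℤ)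
            + ∑ z ∈ Ico y T, (((z - y + n).choose (n + 1) : ℕ) : ℚ) * q (z : ℤ) := by
        linarith
      rw [h2, ← sum_add_distrib]
      apply sum_congr rfl
      intro z _
      rw [show z - y + (n + 1) = (z - y + n) + 1 by omega, Nat.choose_succ_succ']
      push_cast
      ring

private lemma nab_iter_antA (T : ℤ) (q : ℤ → ℚ) (N r : ℕ) (h : r ≤ N) (y : ℤ) :
    (nab^[r] (fun φ => antA T q N (T - φ))) y = antA T q (N - r) (T - y) := by
  induction r generalizing y with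
  | zero => simp
  | succ r ih =>
    rw [Function.iterate_succ_apply', nab, ih (by omega), ih (by omega)]
    have h1 := antA_sub T q (N - (r + 1)) (T - y)
    rw [show N - (r + 1) + 1 = N - r by omega] at h1
    rw [show T - (y - 1) = T - y + 1 by ring]
    exact h1

private lemma nab_iter_refl (c : ℤ) (g : ℤ → ℚ) (n : ℕ) (y : ℤ) :
    (nab^[n] (fun φ => g (c - φ))) y = (-1) ^ n * (nab^[n] g) (c - y + n) := by
  induction n generalizing y with
  | zero => simp
  | succ n ih =>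
    rw [Function.iterate_succ_apply', Function.iterate_succ_apply', nab, nab, ih, ih]
    rw [show c - y + ((n + 1 : ℕ) : ℤ) - 1 = c - y + n by push_cast; ring,
      show c - (y - 1) + (n : ℤ) = c - y + ((n + 1 : ℕ) : ℤ) by push_cast; ring, pow_succ]
    ring

theorem exists_f (m L s : ℕ) (hs : 1 ≤ s) (q : ℤ → ℚ)
    (h0 : ∀ z : ℤ, (m : ℤ) + s ≤ z → z < (m : ℤ) + s + L → q z = 0)
    (h1 : ∀ z : ℤ, q (-1 - z) = q z)
    (h2 : ∀ y, (nab^[2 * L + 2 * s - 1] q) y = 0) :
    ∃ f : ℤ → ℚ, (∀ r : ℕ, r < L + 2 * s - 1 → f (-(r : ℤ)) = 0) ∧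
      (∀ y, (nab^[2 * (L + 2 * s - 1)] f) y = 0) ∧
      (∀ i Y : ℕ, i < s → Y ≤ m → (nab^[2 * i] f) ((m : ℤ) - Y + i + 1) =
        ∑ z ∈ Ico Y (m + s),
          (((z - Y + (s - 1 - i)).choose (2 * (s - 1 - i)) : ℕ) : ℚ) * q (z : ℤ)) ∧
      (∀ i : ℕ, s ≤ i → (nab^[2 * i] f) ((m : ℤ) + i + 1) = 0) := by
  have hT : ((m + s : ℕ) : ℤ) = (m : ℤ) + s := by push_cast; ring
  have hbase : nab^[2 * s - 1] (fun φ => antA ((m + s : ℕ) : ℤ) q (2 * s - 1)
      (((m + s : ℕ) : ℤ) - φ)) = fun φ => q (((m + s : ℕ) : ℤ) - φ) := by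
    funext y
    rw [nab_iter_antA _ _ _ _ le_rfl, Nat.sub_self, antA_zero]
  refine ⟨fun φ => antA ((m + s : ℕ) : ℤ) q (2 * s - 1) (((m + s : ℕ) : ℤ) - φ), ?_, ?_, ?_, ?_⟩
  · intro r hr
    refine antA_vanish ((m + s : ℕ) : ℤ) L q ?_ (2 * s - 1) _ ?_ ?_
    · intro z hz1 hz2
      exact h0 z (by omega) (by omega)
    · omega
    · omega
  · intro y
    rw [show 2 * (L + 2 * s - 1) = (2 * L + 2 * s - 1) + (2 * s - 1) by omega,
      Function.iterate_add_apply, hbase, nab_iter_refl, h2, mul_zero]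
  · intro i Y hi hY
    rw [nab_iter_antA _ _ _ _ (by omega),
      show ((m + s : ℕ) : ℤ) - ((m : ℤ) - Y + i + 1) = ((Y + (s - 1 - i) : ℕ) : ℤ) by omega,
      show 2 * s - 1 - 2 * i = 2 * (s - 1 - i) + 1 by omega,
      antA_sum (m + s) q (m + s - (Y + (s - 1 - i))) _ _ (by omega)]
    have e : ∑ z ∈ Ico (Y + (s - 1 - i)) (m + s),
        (((z - (Y + (s - 1 - i)) + 2 * (s - 1 - i)).choose (2 * (s - 1 - i)) : ℕ) : ℚ) * q (z : ℤ)
        = ∑ z ∈ Ico (Y + (s - 1 - i)) (m + s),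
          (((z - Y + (s - 1 - i)).choose (2 * (s - 1 - i)) : ℕ) : ℚ) * q (z : ℤ) := by
      apply sum_congr rfl
      intro z hz
      rw [mem_Ico] at hz
      rw [show z - (Y + (s - 1 - i)) + 2 * (s - 1 - i) = z - Y + (s - 1 - i) by omega]
    rw [e]
    apply sum_subset
    · intro z
      simp only [mem_Ico]
      omega
    · intro z hz hz'
      rw [mem_Ico] at hz hz'
      rw [Nat.choose_eq_zero_of_lt (by omega), Nat.cast_zero, zero_mul]
  · intro i hi
    rw [show 2 * i = (2 * (i - s) + 1) + (2 * s - 1) by omega,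
      Function.iterate_add_apply, hbase, nab_iter_refl,
      show ((m + s : ℕ) : ℤ) - ((m : ℤ) + i + 1) + ((2 * (i - s) + 1 : ℕ) : ℤ)
        = ((i - s : ℕ) : ℤ) by omega]
    have hq : (fun φ => q (-1 - φ)) = q := funext h1
    have h3 := nab_iter_refl (-1) q (2 * (i - s) + 1) ((i - s : ℕ) : ℤ)
    rw [hq, show (-1 : ℤ) - ((i - s : ℕ) : ℤ) + ((2 * (i - s) + 1 : ℕ) : ℤ)
      = ((i - s : ℕ) : ℤ) by omega] at h3
    have hm : ((-1 : ℚ)) ^ (2 * (i - s) + 1) = -1 := by
      rw [pow_succ, pow_mul]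
      norm_num
    rw [hm] at h3
    have : (nab^[2 * (i - s) + 1] q) ((i - s : ℕ) : ℤ) = 0 := by linarith
    rw [this, mul_zero]

end Pool.Agent.helper54.Expl
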