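import Pool.Agent.helper54.Expl.NDefs

/-!
# A block determinant lemma

Proof.  `G = A * A'⁻¹`.  `A` and `A'` have the same rows of index `≥ s`, so the rows of `G` of index
`≥ s` are those of the identity matrix; hence `det G = det G₁₁` (`Matrix.det_fromBlocks_zero₂₁`, after
reindexing `Fin l ≃ Fin s ⊕ Fin (l - s)`, e.g. write `l = s + r` and use `finSumFinEquiv`).  The rows
of index `≥ s` of `A' * X` are `0` (they are those of `A * X`), so the first `s` rows of
`A * X = G * (A' * X)` are `G₁₁` times those of `A' * X`.  So `det A * det (top A' X)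
= det G * det A' * det (top A' X) = det A' * det G₁₁ * det (top A' X) = det A' * det (top A X)`.
-/

set_option autoImplicit false
open Finset

namespace Pool.Agent.helper54.Expl

/-- the block form of `blk`, on a sum type -/
private theorem blk_sum {s r : ℕ} (A A' : Matrix (Fin s ⊕ Fin r) (Fin s ⊕ Fin r) ℚ)
    (hA : ∀ (i : Fin r) (j), A (Sum.inr i) j = A' (Sum.inr i) j)
    (X : Matrix (Fin s ⊕ Fin r) (Fin s) ℚ)
    (hX : ∀ (i : Fin r) (c), (A * X) (Sum.inr i) c = 0) (hdet : A'.det ≠ 0) :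
    A.det * (Matrix.of fun i c : Fin s => (A' * X) (Sum.inl i) c).det =
      A'.det * (Matrix.of fun i c : Fin s => (A * X) (Sum.inl i) c).det := by
  classical
  have hu : IsUnit A'.det := isUnit_iff_ne_zero.mpr hdet
  set G : Matrix (Fin s ⊕ Fin r) (Fin s ⊕ Fin r) ℚ := A * A'⁻¹ with hG
  have hGA : G * A' = A := by
    rw [hG, Matrix.mul_assoc, Matrix.nonsing_inv_mul A' hu, Matrix.mul_one]
  have hrow : ∀ (i : Fin r) (j), G (Sum.inr i) j =
      (1 : Matrix (Fin s ⊕ Fin r) (Fin s ⊕ Fin r) ℚ) (Sum.inr i) j := by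
    intro i j
    rw [← Matrix.mul_nonsing_inv A' hu, hG, Matrix.mul_apply, Matrix.mul_apply]
    exact Finset.sum_congr rfl fun x _ => by rw [hA i x]
  have hblock : G = Matrix.fromBlocks G.toBlocks₁₁ G.toBlocks₁₂ 0 1 := by
    ext i j
    rcases i with i | i
    · rcases j with j | j <;> rfl
    · rw [hrow i j]
      rcases j with j | j
      · simp [Matrix.one_apply]
      · simp [Matrix.one_apply]
  have hdetG : G.det = G.toBlocks₁₁.det := by
    rw [hblock, Matrix.det_fromBlocks_zero₂₁, Matrix.det_one, mul_one,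
      Matrix.toBlocks_fromBlocks₁₁]
  have hX' : ∀ (i : Fin r) (c), (A' * X) (Sum.inr i) c = 0 := by
    intro i c
    rw [← hX i c, Matrix.mul_apply, Matrix.mul_apply]
    exact Finset.sum_congr rfl fun x _ => by rw [hA i x]
  have htop : (Matrix.of fun i c : Fin s => (A * X) (Sum.inl i) c) =
      G.toBlocks₁₁ * (Matrix.of fun i c : Fin s => (A' * X) (Sum.inl i) c) := by
    ext i c
    rw [Matrix.of_apply, ← hGA, Matrix.mul_assoc, Matrix.mul_apply, Fintype.sum_sum_type,
      Matrix.mul_apply]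
    have h0 : ∑ x : Fin r, G (Sum.inl i) (Sum.inr x) * (A' * X) (Sum.inr x) c = 0 :=
      Finset.sum_eq_zero fun x _ => by rw [hX' x c, mul_zero]
    rw [h0, add_zero]
    rfl
  rw [htop, Matrix.det_mul, ← hdetG]
  have hd : A.det = G.det * A'.det := by rw [← Matrix.det_mul, hGA]
  rw [hd]
  ring

theorem blk {l s : ℕ} (hs : s ≤ l) (A A' : Matrix (Fin l) (Fin l) ℚ)
    (hA : ∀ i : Fin l, s ≤ (i : ℕ) → ∀ j, A i j = A' i j) (X : Matrix (Fin l) (Fin s) ℚ)
    (hX : ∀ i : Fin l, s ≤ (i : ℕ) → ∀ c, (A * X) i c = 0) (hdet : A'.det ≠ 0) :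
    A.det * (Matrix.of fun i c : Fin s => (A' * X) (Fin.castLE hs i) c).det =
      A'.det * (Matrix.of fun i c : Fin s => (A * X) (Fin.castLE hs i) c).det := by
  classical
  obtain ⟨r, rfl⟩ := Nat.exists_eq_add_of_le hs
  have hmulX : ∀ B : Matrix (Fin (s + r)) (Fin (s + r)) ℚ,
      (B.submatrix finSumFinEquiv finSumFinEquiv) * (X.submatrix finSumFinEquiv id) =
        (B * X).submatrix (finSumFinEquiv : Fin s ⊕ Fin r ≃ Fin (s + r)) id := by
    intro B
    rw [Matrix.submatrix_mul_equiv]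
  have key := blk_sum (A.submatrix (finSumFinEquiv : Fin s ⊕ Fin r ≃ Fin (s + r)) finSumFinEquiv)
    (A'.submatrix finSumFinEquiv finSumFinEquiv)
    (fun i j => by
      rw [Matrix.submatrix_apply, Matrix.submatrix_apply]
      exact hA _ (by rw [finSumFinEquiv_apply_right]; simp) _)
    (X.submatrix finSumFinEquiv id)
    (fun i c => by
      rw [hmulX, Matrix.submatrix_apply]
      exact hX _ (by rw [finSumFinEquiv_apply_right]; simp) _)
    (by rw [Matrix.det_submatrix_equiv_self]; exact hdet)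
  rw [hmulX, hmulX, Matrix.det_submatrix_equiv_self, Matrix.det_submatrix_equiv_self] at key
  have hc : ∀ i : Fin s, finSumFinEquiv (Sum.inl i : Fin s ⊕ Fin r) = Fin.castLE hs i := by
    intro i
    rw [finSumFinEquiv_apply_left]
    exact Fin.ext rfl
  have h1 : ∀ B : Matrix (Fin (s + r)) (Fin (s + r)) ℚ,
      (Matrix.of fun i c : Fin s =>
        ((B * X).submatrix (finSumFinEquiv : Fin s ⊕ Fin r ≃ Fin (s + r)) id) (Sum.inl i) c) =
      (Matrix.of fun i c : Fin s => (B * X) (Fin.castLE hs i) c) := by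
    intro B
    ext i c
    rw [Matrix.of_apply, Matrix.of_apply, Matrix.submatrix_apply, hc, id]
  rw [h1, h1] at key
  exact key

end Pool.Agent.helper54.Expl
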