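import Pool.Agent.helper54.Expl.NDefs

/-!
# The determinant as a sum over particle configurations

Proof.  Cauchy-Binet in the symmetrised form: for `a b : Fin s → ι → ℚ` and a finset `S` of `ι`,
`det (of fun i c => ∑ z ∈ S, a i z * b c z) = (1 / s!) * ∑ f ∈ Fintype.piFinset (fun _ => S),
det (of fun i j => a i (f j)) * det (of fun c j => b c (f j))` (expand the determinant by
multilinearity in the rows: `∑_f (∏_i a i (f i)) * det (of fun i c => b c (f i))`, replace `f` by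
`f ∘ σ` and average over the permutations `σ`).

Here, with `z = x + Y`, `x < m + s - Y`, `a i z = C(x + κ, 2 κ)` with `κ = s - 1 - i`, which is
`(∏_{t < κ} (e1 x - t (t + 1))) / (2 κ)!`, a polynomial of degree `κ` in `e1 x` with leading
coefficient `1 / (2 κ)!`; so `det (a i (f j)) = ± ∏_κ (1 / (2 κ)!) * vd (e1 ∘ f)` with a sign which
depends on `s` only (the order of the rows is reversed; `Matrix.det_vandermonde`,
`Matrix.det_eval_matrixOfPolynomials_eq_det_vandermonde`, `Fin.rev`).  And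
`b c z = e1 z ^ c * Om m L s z` gives `det = vd (e1 (f j + Y)) * ∏_j Om m L s (f j + Y)`.
-/

set_option autoImplicit false
open Finset

namespace Pool.Agent.helper54.Expl

section cb

variable {K : Type*} [Field K]

private theorem cb_det_sum {s : ℕ} (S : Finset ℕ) (a b : Fin s → ℕ → K) :
    (Matrix.of fun i c : Fin s => ∑ z ∈ S, a i z * b c z).det =
      ∑ f ∈ Fintype.piFinset (fun _ : Fin s => S),
        (∏ i, b i (f i)) * (Matrix.of fun i j : Fin s => a i (f j)).det := by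
  rw [Matrix.det_apply']
  simp only [Matrix.of_apply]
  simp_rw [Finset.prod_univ_sum, Finset.mul_sum]
  rw [Finset.sum_comm]
  refine Finset.sum_congr rfl fun f _ => ?_
  rw [Matrix.det_apply', Finset.mul_sum]
  refine Finset.sum_congr rfl fun σ _ => ?_
  simp only [Matrix.of_apply]
  rw [Finset.prod_mul_distrib]
  ring

private theorem cb_reindex {s : ℕ} (S : Finset ℕ) (g : (Fin s → ℕ) → K)
    (τ : Equiv.Perm (Fin s)) :
    ∑ f ∈ Fintype.piFinset (fun _ : Fin s => S), g f =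
      ∑ f ∈ Fintype.piFinset (fun _ : Fin s => S), g (fun i => f (τ i)) := by
  refine Finset.sum_nbij' (fun f => fun i => f (τ.symm i)) (fun f => fun i => f (τ i)) ?_ ?_ ?_ ?_ ?_
  · intro f hf
    simp only [Fintype.mem_piFinset] at hf ⊢
    exact fun i => hf _
  · intro f hf
    simp only [Fintype.mem_piFinset] at hf ⊢
    exact fun i => hf _
  · intro f _
    funext i
    simp
  · intro f _
    funext i
    simp
  · intro f _
    simp

private theorem cb_symm {s : ℕ} (S : Finset ℕ) (a b : Fin s → ℕ → K) :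
    (s.factorial : K) * (Matrix.of fun i c : Fin s => ∑ z ∈ S, a i z * b c z).det =
      ∑ f ∈ Fintype.piFinset (fun _ : Fin s => S),
        (Matrix.of fun i j : Fin s => a i (f j)).det *
          (Matrix.of fun c j : Fin s => b c (f j)).det := by
  have h1 : ∀ τ : Equiv.Perm (Fin s),
      (Matrix.of fun i c : Fin s => ∑ z ∈ S, a i z * b c z).det =
        ∑ f ∈ Fintype.piFinset (fun _ : Fin s => S),
          (Matrix.of fun i j : Fin s => a i (f j)).det *
            (((Equiv.Perm.sign τ : ℤ) : K) * ∏ i, b i (f (τ i))) := by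
    intro τ
    rw [cb_det_sum, cb_reindex S _ τ]
    refine Finset.sum_congr rfl fun f _ => ?_
    have h2 : (Matrix.of fun i j : Fin s => a i (f (τ j))).det =
        ((Equiv.Perm.sign τ : ℤ) : K) * (Matrix.of fun i j : Fin s => a i (f j)).det := by
      have h3 := Matrix.det_permute' τ (Matrix.of fun i j : Fin s => a i (f j))
      rw [← h3]
      rfl
    rw [h2]
    ring
  have h4 : (s.factorial : K) * (Matrix.of fun i c : Fin s => ∑ z ∈ S, a i z * b c z).det =
      ∑ _τ : Equiv.Perm (Fin s),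
        (Matrix.of fun i c : Fin s => ∑ z ∈ S, a i z * b c z).det := by
    rw [Finset.sum_const, Finset.card_univ, Fintype.card_perm, Fintype.card_fin, nsmul_eq_mul]
  rw [h4, Finset.sum_congr rfl fun τ _ => h1 τ, Finset.sum_comm]
  refine Finset.sum_congr rfl fun f _ => ?_
  rw [← Finset.mul_sum]
  congr 1
  rw [← Matrix.det_transpose (Matrix.of fun c j : Fin s => b c (f j)), Matrix.det_apply']
  rfl

end cb

private theorem cb_desc (x k : ℕ) :
    (((x + k).descFactorial (2 * k) : ℕ) : ℚ) =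
      ∏ t ∈ range k, (e1 (x : ℚ) - (t : ℚ) * ((t : ℚ) + 1)) := by
  induction k with
  | zero => simp
  | succ k ih =>
    have h1 : 2 * (k + 1) = (2 * k + 1) + 1 := by ring
    have h2 : x + (k + 1) = (x + k) + 1 := by ring
    rw [Finset.prod_range_succ, ← ih, h1, h2, Nat.succ_descFactorial_succ,
      Nat.descFactorial_succ]
    push_cast
    by_cases hk : k ≤ x
    · have h3 : x + k - 2 * k = x - k := by omega
      rw [h3, Nat.cast_sub hk, e1]
      ring
    · have h4 : (x + k).descFactorial (2 * k) = 0 := Nat.descFactorial_of_lt (by omega)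
      rw [h4]
      simp

private theorem cb_choose (x k : ℕ) :
    (((x + k).choose (2 * k) : ℕ) : ℚ) = (((2 * k).factorial : ℕ) : ℚ)⁻¹ *
      ∏ t ∈ range k, (e1 (x : ℚ) - (t : ℚ) * ((t : ℚ) + 1)) := by
  rw [← cb_desc, Nat.descFactorial_eq_factorial_mul_choose]
  have h : (((2 * k).factorial : ℕ) : ℚ) ≠ 0 := by exact_mod_cast Nat.factorial_ne_zero _
  push_cast
  rw [← mul_assoc, inv_mul_cancel₀ h, one_mul]

private theorem cb_left {s : ℕ} (f : Fin s → ℕ) :
    (Matrix.of fun k j : Fin s => (((f j + (k : ℕ)).choose (2 * (k : ℕ)) : ℕ) : ℚ)).det =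
      (∏ k : Fin s, (((2 * (k : ℕ)).factorial : ℕ) : ℚ)⁻¹) * vd (fun i => e1 (f i : ℚ)) := by
  have h1 : (Matrix.of fun k j : Fin s => (((f j + (k : ℕ)).choose (2 * (k : ℕ)) : ℕ) : ℚ)) =
      Matrix.of fun k j : Fin s => (((2 * (k : ℕ)).factorial : ℕ) : ℚ)⁻¹ *
        (Matrix.of fun i k : Fin s =>
          (∏ t ∈ range (k : ℕ), (Polynomial.X - Polynomial.C ((t : ℚ) * ((t : ℚ) + 1)))).eval
            (e1 (f i : ℚ))).transpose k j := by
    ext k j
    simp only [Matrix.of_apply, Matrix.transpose_apply]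
    rw [cb_choose, Polynomial.eval_prod]
    simp
  rw [h1, Matrix.det_mul_column, Matrix.det_transpose,
    ← Matrix.det_eval_matrixOfPolynomials_eq_det_vandermonde (fun i => e1 (f i : ℚ))
      (fun k : Fin s => ∏ t ∈ range (k : ℕ),
        (Polynomial.X - Polynomial.C ((t : ℚ) * ((t : ℚ) + 1)))),
    Matrix.det_vandermonde]
  · rfl
  · intro i
    rw [Polynomial.natDegree_finsetProd_X_sub_C_eq_card, Finset.card_range]
  · intro i
    exact Polynomial.monic_prod_X_sub_C _ _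

private theorem cb_right {s : ℕ} (m L Y : ℕ) (f : Fin s → ℕ) :
    (Matrix.of fun c j : Fin s => e1 (((Y + f j : ℕ) : ℕ) : ℚ) ^ (c : ℕ) *
      Om m L s (((Y + f j : ℕ) : ℕ) : ℚ)).det =
      vd (fun i => e1 ((f i : ℚ) + Y)) * ∏ i, Om m L s ((f i : ℚ) + Y) := by
  have h1 : (Matrix.of fun c j : Fin s => e1 (((Y + f j : ℕ) : ℕ) : ℚ) ^ (c : ℕ) *
      Om m L s (((Y + f j : ℕ) : ℕ) : ℚ)) =
      Matrix.of fun c j : Fin s => Om m L s ((f j : ℚ) + Y) *
        (Matrix.vandermonde (fun i => e1 ((f i : ℚ) + Y))).transpose c j := by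
    ext c j
    simp only [Matrix.of_apply, Matrix.transpose_apply, Matrix.vandermonde_apply]
    push_cast
    rw [add_comm (Y : ℚ) (f j : ℚ)]
    ring
  rw [h1, Matrix.det_mul_row, Matrix.det_transpose, Matrix.det_vandermonde]
  rw [mul_comm]
  rfl

theorem exists_cst (s : ℕ) : ∃ c : ℚ, c ≠ 0 ∧ ∀ m L Y : ℕ,
    (Matrix.of fun i a : Fin s => ∑ z ∈ Ico Y (m + s),
      (((z - Y + (s - 1 - i)).choose (2 * (s - 1 - i)) : ℕ) : ℚ) *
        (e1 (z : ℚ) ^ (a : ℕ) * Om m L s (z : ℚ))).det = c * SS ℚ m L s Y := by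
  have hfac : (s.factorial : ℚ) ≠ 0 := by exact_mod_cast Nat.factorial_ne_zero _
  have hprod : (∏ k : Fin s, (((2 * (k : ℕ)).factorial : ℕ) : ℚ)⁻¹) ≠ 0 := by
    rw [Finset.prod_ne_zero_iff]
    intro k _
    exact inv_ne_zero (by exact_mod_cast Nat.factorial_ne_zero _)
  have hsign : (((Equiv.Perm.sign (Fin.revPerm : Equiv.Perm (Fin s)) : ℤˣ) : ℤ) : ℚ) ≠ 0 := by
    exact_mod_cast Units.ne_zero _
  refine ⟨(s.factorial : ℚ)⁻¹ *
    ((((Equiv.Perm.sign (Fin.revPerm : Equiv.Perm (Fin s)) : ℤˣ) : ℤ) : ℚ) *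
      ∏ k : Fin s, (((2 * (k : ℕ)).factorial : ℕ) : ℚ)⁻¹), ?_, ?_⟩
  · exact mul_ne_zero (inv_ne_zero hfac) (mul_ne_zero hsign hprod)
  intro m L Y
  have h1 : (Matrix.of fun i a : Fin s => ∑ z ∈ Ico Y (m + s),
      (((z - Y + (s - 1 - i)).choose (2 * (s - 1 - i)) : ℕ) : ℚ) *
        (e1 (z : ℚ) ^ (a : ℕ) * Om m L s (z : ℚ))) =
      Matrix.of fun i a : Fin s => ∑ x ∈ range (m + s - Y),
        (((x + (s - 1 - (i : ℕ))).choose (2 * (s - 1 - (i : ℕ))) : ℕ) : ℚ) *
          (e1 (((Y + x : ℕ) : ℕ) : ℚ) ^ (a : ℕ) * Om m L s (((Y + x : ℕ) : ℕ) : ℚ)) := by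
    ext i a
    simp only [Matrix.of_apply]
    rw [Finset.sum_Ico_eq_sum_range]
    refine Finset.sum_congr rfl fun x _ => ?_
    rw [Nat.add_sub_cancel_left]
  have h2 := cb_symm (s := s) (range (m + s - Y))
    (fun i x => (((x + (s - 1 - (i : ℕ))).choose (2 * (s - 1 - (i : ℕ))) : ℕ) : ℚ))
    (fun a x => e1 (((Y + x : ℕ) : ℕ) : ℚ) ^ (a : ℕ) * Om m L s (((Y + x : ℕ) : ℕ) : ℚ))
  rw [h1]
  have h3 : ∀ f : Fin s → ℕ,
      (Matrix.of fun i j : Fin s =>
        (((f j + (s - 1 - (i : ℕ))).choose (2 * (s - 1 - (i : ℕ))) : ℕ) : ℚ)).det =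
      (((Equiv.Perm.sign (Fin.revPerm : Equiv.Perm (Fin s)) : ℤˣ) : ℤ) : ℚ) *
        ((∏ k : Fin s, (((2 * (k : ℕ)).factorial : ℕ) : ℚ)⁻¹) *
          vd (fun i => e1 (f i : ℚ))) := by
    intro f
    rw [← cb_left, ← Matrix.det_permute]
    congr 1
    ext i j
    simp only [Matrix.of_apply, Matrix.submatrix_apply, Fin.revPerm_apply, id, Fin.val_rev]
    have : s - 1 - (i : ℕ) = s - ((i : ℕ) + 1) := by omega
    rw [this]
  have h5 : (s.factorial : ℚ) * (Matrix.of fun i a : Fin s => ∑ x ∈ range (m + s - Y),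
        (((x + (s - 1 - (i : ℕ))).choose (2 * (s - 1 - (i : ℕ))) : ℕ) : ℚ) *
          (e1 (((Y + x : ℕ) : ℕ) : ℚ) ^ (a : ℕ) * Om m L s (((Y + x : ℕ) : ℕ) : ℚ))).det =
      ((((Equiv.Perm.sign (Fin.revPerm : Equiv.Perm (Fin s)) : ℤˣ) : ℤ) : ℚ) *
        ∏ k : Fin s, (((2 * (k : ℕ)).factorial : ℕ) : ℚ)⁻¹) * SS ℚ m L s Y := by
    rw [h2, SS, Finset.mul_sum]
    refine Finset.sum_congr rfl fun f _ => ?_
    rw [h3 f, cb_right m L Y f]
    ring
  rw [mul_assoc, ← h5, ← mul_assoc, inv_mul_cancel₀ hfac, one_mul]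

end Pool.Agent.helper54.Expl
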