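import Pool.Agent.helper54.Expl.NDefs

/-!
# The sum with `Y = m`

Proof.  For `Y = m` the configurations are the functions `f : Fin s → {0, …, s - 1}`.  The product
of the two `vd` factors vanishes unless `f` is injective; then `f` is a permutation and the term is
the one of `f = id` (both `vd` change by the same sign, the product over `i` is invariant).  So
`SS ℚ m L s m = s! * vd (e1 i) * vd (e1 (m + i)) * ∏_{i < s} Om m L s (m + i)`.  Further
`e1 (m + j) - e1 (m + i) = (j - i) (2 m + i + j + 1)` and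
`Om m L s (m + i) = ∏_{t < L} (s + t - i) (2 m + s + t + 1 + i)`.  So the quotient
`SS ℚ (m + 1) L s (m + 1) / SS ℚ m L s m` is
`∏_{i < s} ∏_{j = i + 1}^{s + L - 1} (2 m + i + j + 3) / (2 m + i + j + 1)`, and the inner product
telescopes to `(2 m + s + L + i + 2) (2 m + s + L + i + 1) / ((2 m + 2 i + 3) (2 m + 2 i + 2))`.
-/

set_option autoImplicit false
open Finset

namespace Pool.Agent.helper54.Expl

/-- `vd` is a Vandermonde determinant -/
theorem diag_vd_det {K : Type*} [Field K] {s : ℕ} (x : Fin s → K) :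
    vd x = (Matrix.vandermonde x).det := (Matrix.det_vandermonde x).symm

theorem diag_vd_perm {K : Type*} [Field K] {s : ℕ} (x : Fin s → K) (σ : Equiv.Perm (Fin s)) :
    vd (fun i => x (σ i)) = (Equiv.Perm.sign σ : ℤ) * vd x := by
  rw [diag_vd_det, diag_vd_det, ← Matrix.det_permute σ (Matrix.vandermonde x)]
  rfl

theorem diag_vd_zero {K : Type*} [Field K] {s : ℕ} (x : Fin s → K) {i j : Fin s} (hij : i ≠ j)
    (h : x i = x j) : vd x = 0 := by
  rw [diag_vd_det, Matrix.det_vandermonde_eq_zero_iff]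
  exact ⟨i, j, h, hij⟩

/-- the term of a configuration -/
noncomputable def diag_T (m L s : ℕ) (f : Fin s → ℕ) : ℚ :=
  vd (fun i => e1 (f i : ℚ)) * vd (fun i => e1 ((f i : ℚ) + m)) * ∏ i, Om m L s ((f i : ℚ) + m)

theorem diag_SS (m L s : ℕ) :
    SS ℚ m L s m = (Fintype.card (Equiv.Perm (Fin s)) : ℚ) * diag_T m L s (fun i => (i : ℕ)) := by
  have h1 : SS ℚ m L s m = ∑ g : Fin s → Fin s, diag_T m L s (fun i => (g i : ℕ)) := by
    unfold SS
    have hms : m + s - m = s := by omega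
    rw [hms]
    refine (Finset.sum_bij' (fun (g : Fin s → Fin s) _ => fun i => ((g i : Fin s) : ℕ))
      (fun (f : Fin s → ℕ) hf => fun i => (⟨f i, by
        have := Fintype.mem_piFinset.1 hf i
        simpa using this⟩ : Fin s)) ?_ ?_ ?_ ?_ ?_).symm
    · intro g _
      simp
    · intro f _
      simp
    · intro g _
      rfl
    · intro f _
      rfl
    · intro g _
      rfl
  rw [h1]
  have h2 : ∑ g : Fin s → Fin s, diag_T m L s (fun i => (g i : ℕ)) =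
      ∑ g ∈ (univ : Finset (Fin s → Fin s)).filter Function.Bijective,
        diag_T m L s (fun i => (g i : ℕ)) := by
    refine (Finset.sum_subset (filter_subset _ _) ?_).symm
    intro g _ hg
    have hni : ¬ Function.Injective g := by
      intro hi
      exact hg (mem_filter.2 ⟨mem_univ _, (Finite.injective_iff_bijective).1 hi⟩)
    unfold Function.Injective at hni
    push Not at hni
    obtain ⟨i, j, hg1, hij⟩ := hni
    unfold diag_T
    rw [diag_vd_zero (fun i => e1 (((g i : Fin s) : ℕ) : ℚ)) hij (by simp only [hg1])]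
    simp
  rw [h2]
  have h3 : ∑ g ∈ (univ : Finset (Fin s → Fin s)).filter Function.Bijective,
        diag_T m L s (fun i => (g i : ℕ)) =
      ∑ σ : Equiv.Perm (Fin s), diag_T m L s (fun i => ((σ i : Fin s) : ℕ)) := by
    refine Finset.sum_bij (fun g hg => Equiv.ofBijective g (mem_filter.1 hg).2) ?_ ?_ ?_ ?_
    · intro g _
      exact mem_univ _
    · intro g _ g' _ h
      funext i
      have := congrArg (fun e : Equiv.Perm (Fin s) => e i) h
      exact this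
    · intro σ _
      exact ⟨σ, mem_filter.2 ⟨mem_univ _, σ.bijective⟩, Equiv.ext fun _ => rfl⟩
    · intro g _
      rfl
  rw [h3]
  have h4 : ∀ σ : Equiv.Perm (Fin s), diag_T m L s (fun i => ((σ i : Fin s) : ℕ)) =
      diag_T m L s (fun i => (i : ℕ)) := by
    intro σ
    unfold diag_T
    rw [diag_vd_perm (fun i : Fin s => e1 (((i : Fin s) : ℕ) : ℚ)) σ,
      diag_vd_perm (fun i : Fin s => e1 ((((i : Fin s) : ℕ) : ℚ) + m)) σ,
      Equiv.prod_comp σ (fun i : Fin s => Om m L s ((((i : Fin s) : ℕ) : ℚ) + m))]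
    have hs : ((Equiv.Perm.sign σ : ℤ) : ℚ) * ((Equiv.Perm.sign σ : ℤ) : ℚ) = 1 := by
      rw [← Int.cast_mul]
      have : ((Equiv.Perm.sign σ : ℤ)) * ((Equiv.Perm.sign σ : ℤ)) = 1 := by
        rw [← Units.val_mul, Int.units_mul_self]
        rfl
      rw [this]
      simp
    linear_combination (vd (fun i : Fin s => e1 (((i : Fin s) : ℕ) : ℚ)) *
      vd (fun i : Fin s => e1 ((((i : Fin s) : ℕ) : ℚ) + m)) *
      ∏ i : Fin s, Om m L s ((((i : Fin s) : ℕ) : ℚ) + m)) * hs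
  rw [Finset.sum_congr rfl (fun σ _ => h4 σ), Finset.sum_const, nsmul_eq_mul]
  simp

/-- telescoping with step two -/
theorem diag_tele (c : ℚ) (n : ℕ) :
    (∏ k ∈ range n, (c + 2 + k)) * (c * (c + 1)) = (∏ k ∈ range n, (c + k)) *
      ((c + n) * (c + n + 1)) := by
  induction n with
  | zero => simp
  | succ n ih =>
    rw [prod_range_succ, prod_range_succ]
    push_cast
    linear_combination (c + 2 + n) * ih

theorem diag_Ioi {s : ℕ} (i : Fin s) (g : ℕ → ℚ) :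
    ∏ j ∈ Ioi i, g (j : ℕ) = ∏ k ∈ range (s - 1 - i), g (i + 1 + k) := by
  have h : ∏ j ∈ Ioi i, g (j : ℕ) = ∏ j ∈ (Ioi i).map Fin.valEmbedding, g j := by
    rw [Finset.prod_map]
    rfl
  rw [h, Fin.map_valEmbedding_Ioi]
  have h2 : Ioo (i : ℕ) s = Ico ((i : ℕ) + 1) s := by
    ext x
    simp only [mem_Ioo, mem_Ico]
    omega
  rw [h2, prod_Ico_eq_prod_range]
  congr 2
  omega

/-- the factor of `i` -/
noncomputable def diag_G (m L s : ℕ) (i : Fin s) : ℚ :=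
  (∏ j ∈ Ioi i, (e1 (((j : ℕ) : ℚ) + m) - e1 (((i : ℕ) : ℚ) + m))) * Om m L s (((i : ℕ) : ℚ) + m)

/-- the constant factor of `i` -/
noncomputable def diag_K (L s : ℕ) (i : Fin s) : ℚ :=
  (∏ j ∈ Ioi i, (((j : ℕ) : ℚ) - ((i : ℕ) : ℚ))) *
    ∏ t ∈ range L, (((s : ℚ) + t) - ((i : ℕ) : ℚ))

theorem diag_G_eq (m L s : ℕ) (i : Fin s) :
    diag_G m L s i = diag_K L s i *
      ∏ k ∈ range (s - 1 - i + L), ((2 * (m : ℚ) + 2 * ((i : ℕ) : ℚ) + 2) + k) := by
  unfold diag_G diag_K Om e1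
  have h1 : ∀ j : Fin s, (((j : ℕ) : ℚ) + m) * ((((j : ℕ) : ℚ) + m) + 1) -
      (((i : ℕ) : ℚ) + m) * ((((i : ℕ) : ℚ) + m) + 1) =
      (((j : ℕ) : ℚ) - ((i : ℕ) : ℚ)) * (2 * (m : ℚ) + ((i : ℕ) : ℚ) + ((j : ℕ) : ℚ) + 1) := by
    intro j
    ring
  rw [Finset.prod_congr rfl (fun j _ => h1 j), Finset.prod_mul_distrib, Finset.prod_mul_distrib,
    prod_range_add]
  have h2 : ∏ j ∈ Ioi i, (2 * (m : ℚ) + ((i : ℕ) : ℚ) + ((j : ℕ) : ℚ) + 1) =
      ∏ k ∈ range (s - 1 - i), ((2 * (m : ℚ) + 2 * ((i : ℕ) : ℚ) + 2) + k) := by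
    rw [diag_Ioi i (fun j => 2 * (m : ℚ) + ((i : ℕ) : ℚ) + (j : ℚ) + 1)]
    refine Finset.prod_congr rfl (fun k _ => ?_)
    push_cast
    ring
  have hi : (i : ℕ) < s := i.2
  have h3 : ∏ t ∈ range L, (((m + s + t + 1 : ℕ) : ℚ) + (((i : ℕ) : ℚ) + m)) =
      ∏ k ∈ range L, ((2 * (m : ℚ) + 2 * ((i : ℕ) : ℚ) + 2) + ((s - 1 - (i : ℕ) + k : ℕ) : ℚ)) := by
    refine Finset.prod_congr rfl (fun k _ => ?_)
    have h4 : ((s - 1 - (i : ℕ) + k : ℕ) : ℚ) = (s : ℚ) - 1 - ((i : ℕ) : ℚ) + k := by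
      have h5 : s - 1 - (i : ℕ) + k + 1 + (i : ℕ) = s + k := by omega
      have h6 : ((s - 1 - (i : ℕ) + k + 1 + (i : ℕ) : ℕ) : ℚ) = ((s + k : ℕ) : ℚ) := by rw [h5]
      rw [Nat.cast_add, Nat.cast_add (s - 1 - (i : ℕ) + k) 1, Nat.cast_add s k, Nat.cast_one] at h6
      linarith
    rw [h4]
    push_cast
    ring
  have h5 : ∏ t ∈ range L, (((m + s + t : ℕ) : ℚ) - (((i : ℕ) : ℚ) + m)) =
      ∏ t ∈ range L, (((s : ℚ) + t) - ((i : ℕ) : ℚ)) := by
    refine Finset.prod_congr rfl (fun k _ => ?_)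
    push_cast
    ring
  rw [h2, h3, h5]
  ring

theorem diag_G_step (m L s : ℕ) (i : Fin s) :
    diag_G (m + 1) L s i * (((2 * m + 2 * (i : ℕ) + 2) * (2 * m + 2 * (i : ℕ) + 3) : ℕ) : ℚ) =
      diag_G m L s i *
        (((2 * m + s + L + (i : ℕ) + 1) * (2 * m + s + L + (i : ℕ) + 2) : ℕ) : ℚ) := by
  rw [diag_G_eq, diag_G_eq]
  have hi : (i : ℕ) < s := i.2
  have h := diag_tele (2 * (m : ℚ) + 2 * ((i : ℕ) : ℚ) + 2) (s - 1 - i + L)
  have h4 : ((s - 1 - (i : ℕ) + L : ℕ) : ℚ) = (s : ℚ) - 1 - ((i : ℕ) : ℚ) + L := by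
    have h5 : s - 1 - (i : ℕ) + L + 1 + (i : ℕ) = s + L := by omega
    have h6 : ((s - 1 - (i : ℕ) + L + 1 + (i : ℕ) : ℕ) : ℚ) = ((s + L : ℕ) : ℚ) := by rw [h5]
    rw [Nat.cast_add, Nat.cast_add (s - 1 - (i : ℕ) + L) 1, Nat.cast_add s L, Nat.cast_one] at h6
    linarith
  rw [h4] at h
  have h7 : ∏ k ∈ range (s - 1 - (i : ℕ) + L),
      ((2 * ((m + 1 : ℕ) : ℚ) + 2 * ((i : ℕ) : ℚ) + 2) + (k : ℚ)) =
      ∏ k ∈ range (s - 1 - (i : ℕ) + L), ((2 * (m : ℚ) + 2 * ((i : ℕ) : ℚ) + 2) + 2 + (k : ℚ)) := by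
    refine Finset.prod_congr rfl (fun k _ => ?_)
    push_cast
    ring
  rw [h7]
  push_cast
  linear_combination (diag_K L s i) * h

theorem diag_T_eq (m L s : ℕ) :
    diag_T m L s (fun i => (i : ℕ)) =
      vd (fun i : Fin s => e1 (((i : ℕ)) : ℚ)) * ∏ i : Fin s, diag_G m L s i := by
  unfold diag_T diag_G
  rw [Finset.prod_mul_distrib, mul_assoc]
  rfl

theorem SS_diag (m L s : ℕ) :
    SS ℚ (m + 1) L s (m + 1) *
        ∏ i ∈ range s, (((2 * m + 2 * i + 2) * (2 * m + 2 * i + 3) : ℕ) : ℚ) =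
      SS ℚ m L s m *
        ∏ i ∈ range s, (((2 * m + s + L + i + 1) * (2 * m + s + L + i + 2) : ℕ) : ℚ) := by
  rw [diag_SS, diag_SS, diag_T_eq, diag_T_eq,
    ← Fin.prod_univ_eq_prod_range
      (fun i => (((2 * m + 2 * i + 2) * (2 * m + 2 * i + 3) : ℕ) : ℚ)) s,
    ← Fin.prod_univ_eq_prod_range
      (fun i => (((2 * m + s + L + i + 1) * (2 * m + s + L + i + 2) : ℕ) : ℚ)) s]
  have h : (∏ i : Fin s, diag_G (m + 1) L s i) *
      (∏ i : Fin s, (((2 * m + 2 * (i : ℕ) + 2) * (2 * m + 2 * (i : ℕ) + 3) : ℕ) : ℚ)) =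
      (∏ i : Fin s, diag_G m L s i) *
      (∏ i : Fin s, (((2 * m + s + L + (i : ℕ) + 1) * (2 * m + s + L + (i : ℕ) + 2) : ℕ) : ℚ)) := by
    rw [← Finset.prod_mul_distrib, ← Finset.prod_mul_distrib]
    exact Finset.prod_congr rfl (fun i _ => diag_G_step m L s i)
  linear_combination ((Fintype.card (Equiv.Perm (Fin s)) : ℚ) *
    vd (fun i : Fin s => e1 (((i : ℕ)) : ℚ))) * h

end Pool.Agent.helper54.Expl
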