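import Pool.Agent.helper54.Expl.Row
import Pool.Agent.helper54.Expl.Blk
import Pool.Agent.helper54.Expl.Cb

/-!
# The ratio of the flagged determinants
-/

set_option autoImplicit false
open Finset

namespace Pool.Agent.helper54.Expl

/-- the matrix of `Dt` -/
noncomputable def Dm (m L s Y : ℕ) : Matrix (Fin (L + 2 * s - 1)) (Fin (L + 2 * s - 1)) ℚ :=
  Matrix.of fun i j : Fin (L + 2 * s - 1) =>
    hz (((L + 2 * s - 1 : ℕ) : ℤ) - 2 * (i : ℕ) + (j : ℕ))
      (if (i : ℕ) < s then (m : ℤ) - Y + (i : ℕ) + 1 else (m : ℤ) + (i : ℕ) + 1)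

theorem dt_ratio (m L s Y : ℕ) (hs : 1 ≤ s) (hY : Y ≤ m) (h0 : Dt m L s m ≠ 0) :
    Dt m L s Y * SS ℚ m L s m = Dt m L s m * SS ℚ m L s Y := by
  choose x hx1 hx2 using fun a : Fin s => exists_x m L s a a.2
  obtain ⟨c, hc, hcb⟩ := exists_cst s
  have hsl : s ≤ L + 2 * s - 1 := by omega
  let X : Matrix (Fin (L + 2 * s - 1)) (Fin s) ℚ := Matrix.of fun j a => x a j
  have hmul : ∀ (Z : ℕ) (i : Fin (L + 2 * s - 1)) (a : Fin s), (Dm m L s Z * X) i a =
      ∑ j ∈ range (L + 2 * s - 1), hz (((L + 2 * s - 1 : ℕ) : ℤ) - 2 * ((i : ℕ) : ℕ) + (j : ℕ))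
        (if (i : ℕ) < s then (m : ℤ) - Z + (i : ℕ) + 1 else (m : ℤ) + (i : ℕ) + 1) * x a j := by
    intro Z i a
    rw [Matrix.mul_apply, ← Fin.sum_univ_eq_sum_range (fun j => hz (((L + 2 * s - 1 : ℕ) : ℤ) -
      2 * ((i : ℕ) : ℕ) + (j : ℕ)) (if (i : ℕ) < s then (m : ℤ) - Z + (i : ℕ) + 1 else
        (m : ℤ) + (i : ℕ) + 1) * x a j)]
    rfl
  have htop : ∀ Z ≤ m, (Matrix.of fun i a : Fin s => (Dm m L s Z * X) (Fin.castLE hsl i) a).det =
      c * SS ℚ m L s Z := by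
    intro Z hZ
    rw [← hcb m L Z]
    congr 1
    ext i a
    rw [Matrix.of_apply, Matrix.of_apply, hmul]
    have hi : ((Fin.castLE hsl i : Fin (L + 2 * s - 1)) : ℕ) < s := i.2
    rw [if_pos hi]
    exact hx1 a i Z i.2 hZ
  have h1 := blk hsl (Dm m L s Y) (Dm m L s m) (fun i hi j => by
      unfold Dm
      rw [Matrix.of_apply, Matrix.of_apply, if_neg (by omega), if_neg (by omega)]) X
    (fun i hi a => by
      rw [hmul, if_neg (by omega)]
      exact hx2 a i hi) h0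
  rw [htop m le_rfl, htop Y hY] at h1
  have h2 : Dt m L s Y = (Dm m L s Y).det := rfl
  have h3 : Dt m L s m = (Dm m L s m).det := rfl
  rw [h2, h3]
  have h4 : c * ((Dm m L s Y).det * SS ℚ m L s m) = c * ((Dm m L s m).det * SS ℚ m L s Y) := by
    linarith
  exact mul_left_cancel₀ hc h4

end Pool.Agent.helper54.Expl
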