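import Pool.Agent.helper54.Expl.ODefs

/-!
# Taking the triangular piece out of the first `2 s` rows

`k = m + α + 1`, `n = k + β + 1` letters.  All operators are `NN` (Schub/Swap: they preserve
nonnegative functions).  Write `G ≼ H` if `G f w ≤ H f w` for all nonnegative `f` and all `w`; for
`NN` operators `G ≼ G'`, `H ≼ H'` gives `G * H ≼ G' * H'`, and `1 ≼ fac (lam ℚ) 1 j`,
`lam ℚ j ≼ fac (lam ℚ) 1 j`.

(a) For `x < 2 s ≤ m`: the row `dn (k + β - x) x` is, by `dn_split`, the product of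
`dn (β - s) (k + s)`, `fac (k + s - 1)`, `dn (2 s - 1) (k - s)`, `fac (k - s - 1)` and
`dn (k - s - 1 - x) x`; so it is `≽ B * M * A_x` with `B = dn (β - s) (k + s)`,
`M = dn (2 s - 1) (k - s)`, `A_x = dn (k - s - 1 - x) x`, and `B`, `M`, `A_x` commute (their
generators differ by at least `2`).  By induction the product of the rows `0, …, 2 s - 1` is
`≽ B ^ (2 s) * M ^ (2 s) * (A_0 * ⋯ * A_{2s-1}) = M ^ (2 s) * (B ^ (2 s) * Ar k s (2 s) 0)`, and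
`sch (k + β) 0` is this product times `sch (k + β - 2 s) (2 s)`.

(`s = 0` is trivial.)

(b) `M * M ≽ 2 ^ (j + 1) • cG k j` for `j < s`: `M ≽ ∏_{i ≤ j} fac (k - 1 - j + 2 i)` (drop the
other factors; the remaining ones commute), and `fac j * fac j = 1 + 2 u_j ≽ 2 u_j`
(`fac_mul_fac_same`).  Hence `M ^ (2 s) ≽ 2 ^ (1 + 2 + ⋯ + s) • cc k s`.
-/

set_option autoImplicit false
open Equiv Pool.Agent.helper54.Schub

namespace Pool.Agent.helper54.Expl

/-- the order on operators -/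
def ELe (G H : Module.End ℚ (Perm ℕ → ℚ)) : Prop :=
  ∀ f, (∀ w, 0 ≤ f w) → ∀ w, G f w ≤ H f w

lemma ELe.rfl' (G : Module.End ℚ (Perm ℕ → ℚ)) : ELe G G := fun _ _ _ => le_rfl

lemma ELe.trans' {G H L : Module.End ℚ (Perm ℕ → ℚ)} (h : ELe G H) (h' : ELe H L) : ELe G L :=
  fun f hf w => (h f hf w).trans (h' f hf w)

lemma ELe.mulL {G H H' : Module.End ℚ (Perm ℕ → ℚ)} (hG : NN G) (h : ELe H H') :
    ELe (G * H) (G * H') := by
  intro f hf w
  have h1 : ∀ v, 0 ≤ (H' f - H f) v := fun v => by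
    rw [Pi.sub_apply]; exact sub_nonneg.2 (h f hf v)
  have h2 := hG _ h1 w
  rw [map_sub, Pi.sub_apply] at h2
  exact sub_nonneg.1 h2

lemma ELe.mulR {G G' H : Module.End ℚ (Perm ℕ → ℚ)} (h : ELe G G') (hH : NN H) :
    ELe (G * H) (G' * H) :=
  fun f hf w => h _ (hH f hf) w

lemma ELe.mul' {G G' H H' : Module.End ℚ (Perm ℕ → ℚ)} (nG : NN G) (h : ELe G G')
    (h' : ELe H H') (nH' : NN H') : ELe (G * H) (G' * H') :=
  (ELe.mulL nG h').trans' (ELe.mulR h nH')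

lemma ele_one_fac (j : ℕ) : ELe 1 (fac (lam ℚ) (1 : ℚ) j) := by
  intro f hf w
  rw [fac_apply, Pi.add_apply, Pi.smul_apply, lam_apply, one_smul, Module.End.one_apply]
  split_ifs
  · exact le_add_of_nonneg_right (hf _)
  · rw [add_zero]

lemma nn_lam1 (j : ℕ) : NN (lam ℚ j) := by
  intro f hf w
  rw [lam_apply]
  split_ifs
  · exact hf _
  · exact le_rfl

lemma ele_one_dn : ∀ l p, ELe 1 (dn (lam ℚ) (1 : ℚ) l p)
  | 0, _ => ELe.rfl' _
  | (l + 1), p => by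
    have h := ELe.mul' NN.one (ele_one_dn l (p + 1)) (ele_one_fac p) (nn_fac p)
    rw [mul_one] at h
    exact h

/-- a factor in the middle -/
lemma ele_mid {G A B : Module.End ℚ (Perm ℕ → ℚ)} (hA : ELe 1 A) (hB : ELe 1 B) (nG : NN G)
    (nA : NN A) (nB : NN B) : ELe G (A * (G * B)) := by
  have h1 : ELe (1 * (G * 1)) (A * (G * B)) :=
    ELe.mul' NN.one hA (ELe.mulL nG hB) (nG.mul nB)
  rwa [mul_one, one_mul] at h1

/-! ### commutation -/

lemma u_comm_dn_le (j : ℕ) : ∀ (l p : ℕ), p + l + 1 ≤ j →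
    lam ℚ j * dn (lam ℚ) (1 : ℚ) l p = dn (lam ℚ) (1 : ℚ) l p * lam ℚ j
  | 0, p, _ => by simp
  | (l + 1), p, h => by
    have h1 : lam ℚ j * fac (lam ℚ) (1 : ℚ) p = fac (lam ℚ) (1 : ℚ) p * lam ℚ j := by
      have := nilCox_lam.comm (u := lam ℚ) p j (by omega)
      simp only [fac, mul_add, add_mul, one_mul, mul_one, smul_mul_assoc, mul_smul_comm, this]
    rw [dn_succ, ← mul_assoc, u_comm_dn_le j l (p + 1) (by omega), mul_assoc, h1, mul_assoc]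

lemma fac_comm_dn_le (j : ℕ) (l p : ℕ) (h : p + l + 1 ≤ j) :
    fac (lam ℚ) (1 : ℚ) j * dn (lam ℚ) (1 : ℚ) l p =
      dn (lam ℚ) (1 : ℚ) l p * fac (lam ℚ) (1 : ℚ) j := by
  have h1 := u_comm_dn_le j l p h
  rw [fac, add_mul, mul_add, one_mul, mul_one, smul_mul_assoc, mul_smul_comm, h1]

lemma dn_comm_dn (l p : ℕ) : ∀ (l' p' : ℕ), p + l + 1 ≤ p' →
    Commute (dn (lam ℚ) (1 : ℚ) l' p') (dn (lam ℚ) (1 : ℚ) l p)
  | 0, _, _ => Commute.one_left _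
  | (l' + 1), p', h => by
    rw [dn_succ]
    exact (dn_comm_dn l p l' (p' + 1) (by omega)).mul_left (fac_comm_dn_le p' l p h)

/-! ### the rows -/

lemma row_ge (k β s x : ℕ) (h1 : x < 2 * s) (h2 : 3 * s + 1 ≤ k) (h3 : s ≤ β) :
    ELe (dn (lam ℚ) (1 : ℚ) (β - s) (k + s) * (dn (lam ℚ) (1 : ℚ) (2 * s - 1) (k - s) *
      dn (lam ℚ) (1 : ℚ) (k - s - 1 - x) x)) (dn (lam ℚ) (1 : ℚ) (k + β - x) x) := by
  have e1 : dn (lam ℚ) (1 : ℚ) (k + β - x) x = dn (lam ℚ) (1 : ℚ) (β - s) (k + s) *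
      dn (lam ℚ) (1 : ℚ) (k + s - x) x := by
    have := dn_split (lam ℚ) (1 : ℚ) (β - s) (k + s - x) x
    rw [show k + s - x + (β - s) = k + β - x by omega,
      show x + (k + s - x) = k + s by omega] at this
    exact this
  have e2 : dn (lam ℚ) (1 : ℚ) (k + s - x) x = dn (lam ℚ) (1 : ℚ) (2 * s) (k - s) *
      dn (lam ℚ) (1 : ℚ) (k - s - x) x := by
    have := dn_split (lam ℚ) (1 : ℚ) (2 * s) (k - s - x) x
    rw [show k - s - x + 2 * s = k + s - x by omega,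
      show x + (k - s - x) = k - s by omega] at this
    exact this
  have e3 : dn (lam ℚ) (1 : ℚ) (2 * s) (k - s) = fac (lam ℚ) (1 : ℚ) (k + s - 1) *
      dn (lam ℚ) (1 : ℚ) (2 * s - 1) (k - s) := by
    have := dn_succ' (lam ℚ) (1 : ℚ) (2 * s - 1) (k - s)
    rw [show 2 * s - 1 + 1 = 2 * s by omega,
      show k - s + (2 * s - 1) = k + s - 1 by omega] at this
    exact this
  have e4 : dn (lam ℚ) (1 : ℚ) (k - s - x) x = fac (lam ℚ) (1 : ℚ) (k - s - 1) *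
      dn (lam ℚ) (1 : ℚ) (k - s - 1 - x) x := by
    have := dn_succ' (lam ℚ) (1 : ℚ) (k - s - 1 - x) x
    rw [show k - s - 1 - x + 1 = k - s - x by omega,
      show x + (k - s - 1 - x) = k - s - 1 by omega] at this
    exact this
  rw [e1, e2, e3, e4]
  apply ELe.mulL (nn_dn _ _)
  have h5 : ELe (1 * dn (lam ℚ) (1 : ℚ) (2 * s - 1) (k - s) *
      (1 * dn (lam ℚ) (1 : ℚ) (k - s - 1 - x) x))
      (fac (lam ℚ) (1 : ℚ) (k + s - 1) * dn (lam ℚ) (1 : ℚ) (2 * s - 1) (k - s) *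
        (fac (lam ℚ) (1 : ℚ) (k - s - 1) * dn (lam ℚ) (1 : ℚ) (k - s - 1 - x) x)) :=
    ELe.mul' (NN.one.mul (nn_dn _ _)) (ELe.mulR (ele_one_fac _) (nn_dn _ _))
      (ELe.mulR (ele_one_fac _) (nn_dn _ _)) ((nn_fac _).mul (nn_dn _ _))
  rwa [one_mul, one_mul] at h5

lemma nn_Ar (k s : ℕ) : ∀ Y x, NN (Ar k s Y x)
  | 0, _ => NN.one
  | (Y + 1), x => (nn_dn _ _).mul (nn_Ar k s Y (x + 1))

lemma rows_ge (k β s : ℕ) (h2 : 3 * s + 1 ≤ k) (h3 : s ≤ β) : ∀ Y x, x + Y ≤ 2 * s →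
    ELe (dn (lam ℚ) (1 : ℚ) (β - s) (k + s) ^ Y * (dn (lam ℚ) (1 : ℚ) (2 * s - 1) (k - s) ^ Y *
      (Ar k s Y x * sch ℚ (lam ℚ) (k + β - x - Y) (x + Y)))) (sch ℚ (lam ℚ) (k + β - x) x)
  | 0, x, _ => by
    rw [pow_zero, pow_zero, one_mul, one_mul, Ar, one_mul]
    exact ELe.rfl' _
  | (Y + 1), x, h => by
    have IH := rows_ge k β s h2 h3 Y (x + 1) (by omega)
    have hr := row_ge k β s x (by omega) h2 h3
    have e : sch ℚ (lam ℚ) (k + β - x) x = dn (lam ℚ) (1 : ℚ) (k + β - x) x *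
        sch ℚ (lam ℚ) (k + β - (x + 1)) (x + 1) := by
      have := sch_succ (K := ℚ) (u := lam ℚ) (k + β - (x + 1)) x
      rw [show k + β - (x + 1) + 1 = k + β - x by omega] at this
      exact this
    rw [e, Ar]
    set B := dn (lam ℚ) (1 : ℚ) (β - s) (k + s) with hB
    set M := dn (lam ℚ) (1 : ℚ) (2 * s - 1) (k - s) with hM
    set A := dn (lam ℚ) (1 : ℚ) (k - s - 1 - x) x with hA
    set R := Ar k s Y (x + 1) with hR
    have hs : k + β - x - (Y + 1) = k + β - (x + 1) - Y := by omega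
    have hs' : x + (Y + 1) = x + 1 + Y := by omega
    rw [hs, hs']
    set S := sch ℚ (lam ℚ) (k + β - (x + 1) - Y) (x + 1 + Y) with hS
    have cBM : Commute B M := dn_comm_dn _ _ _ _ (by omega)
    have cBA : Commute B A := dn_comm_dn _ _ _ _ (by omega)
    have cMA : Commute M A := dn_comm_dn _ _ _ _ (by omega)
    have e2 : B ^ (Y + 1) * (M ^ (Y + 1) * (A * R * S)) =
        (B * (M * A)) * (B ^ Y * (M ^ Y * (R * S))) := by
      have c1 : Commute (M * A) (B ^ Y) := (cBM.symm.mul_left cBA.symm).pow_right Y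
      have c2 : Commute A (M ^ Y) := cMA.symm.pow_right Y
      calc B ^ (Y + 1) * (M ^ (Y + 1) * (A * R * S))
          = B * B ^ Y * (M * M ^ Y * (A * (R * S))) := by
            rw [pow_succ' B, pow_succ' M, mul_assoc A R S]
        _ = B * (B ^ Y * (M * ((M ^ Y * A) * (R * S)))) := by noncomm_ring
        _ = B * (B ^ Y * (M * ((A * M ^ Y) * (R * S)))) := by rw [c2.eq]
        _ = B * ((B ^ Y * (M * A)) * (M ^ Y * (R * S))) := by noncomm_ring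
        _ = B * (((M * A) * B ^ Y) * (M ^ Y * (R * S))) := by rw [c1.eq]
        _ = (B * (M * A)) * (B ^ Y * (M ^ Y * (R * S))) := by noncomm_ring
    rw [e2]
    exact ELe.mul' ((nn_dn _ _).mul ((nn_dn _ _).mul (nn_dn _ _))) hr IH (nn_sch _ _)

/-! ### the triangular piece -/

/-- products of factors at distance two -/
noncomputable def EE (q n : ℕ) : Module.End ℚ (Perm ℕ → ℚ) :=
  ((List.range n).map fun i => fac (lam ℚ) (1 : ℚ) (q + 2 * i)).prod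

/-- products of generators at distance two -/
noncomputable def UU (q n : ℕ) : Module.End ℚ (Perm ℕ → ℚ) :=
  ((List.range n).map fun i => lam ℚ (q + 2 * i)).prod

lemma EE_succ (q n : ℕ) : EE q (n + 1) = EE q n * fac (lam ℚ) (1 : ℚ) (q + 2 * n) := by
  rw [EE, EE, List.range_succ, List.map_append, List.prod_append, List.map_singleton,
    List.prod_singleton]

lemma UU_succ (q n : ℕ) : UU q (n + 1) = UU q n * lam ℚ (q + 2 * n) := by
  rw [UU, UU, List.range_succ, List.map_append, List.prod_append, List.map_singleton,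
    List.prod_singleton]

lemma EE_zero (q : ℕ) : EE q 0 = 1 := by simp [EE]
lemma UU_zero (q : ℕ) : UU q 0 = 1 := by simp [UU]

lemma nn_EE (q : ℕ) : ∀ n, NN (EE q n)
  | 0 => by rw [EE_zero]; exact NN.one
  | (n + 1) => by rw [EE_succ]; exact (nn_EE q n).mul (nn_fac _)

lemma nn_UU (q : ℕ) : ∀ n, NN (UU q n)
  | 0 => by rw [UU_zero]; exact NN.one
  | (n + 1) => by rw [UU_succ]; exact (nn_UU q n).mul (nn_lam1 _)

lemma fac_comm_EE (q j : ℕ) : ∀ n, q + 2 * n ≤ j →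
    Commute (fac (lam ℚ) (1 : ℚ) j) (EE q n)
  | 0, _ => by rw [EE_zero]; exact Commute.one_right _
  | (n + 1), h => by
    rw [EE_succ]
    exact (fac_comm_EE q j n (by omega)).mul_right
      (fac_comm_fac nilCox_lam (1 : ℚ) 1 (q + 2 * n) j (by omega)).symm

lemma dn_ge_EE (q : ℕ) : ∀ n, ELe (EE q (n + 1)) (dn (lam ℚ) (1 : ℚ) (2 * n + 1) q)
  | 0 => by
    rw [EE_succ, EE_zero, one_mul, mul_zero, zero_add, add_zero, dn_succ, dn_zero, one_mul]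
    exact ELe.rfl' _
  | (n + 1) => by
    have IH := dn_ge_EE q n
    rw [EE_succ, ← (fac_comm_EE q (q + 2 * (n + 1)) (n + 1) le_rfl).eq]
    have e : dn (lam ℚ) (1 : ℚ) (2 * (n + 1) + 1) q = fac (lam ℚ) (1 : ℚ) (q + 2 * (n + 1)) *
        (fac (lam ℚ) (1 : ℚ) (q + (2 * n + 1)) * dn (lam ℚ) (1 : ℚ) (2 * n + 1) q) := by
      rw [dn_succ', show 2 * (n + 1) = 2 * n + 1 + 1 by ring, dn_succ']
    rw [e]
    apply ELe.mulL (nn_fac _)
    have h := ELe.mul' NN.one (ele_one_fac (q + (2 * n + 1))) IH (nn_dn _ _)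
    rwa [one_mul] at h

lemma ele_smul {G H : Module.End ℚ (Perm ℕ → ℚ)} (h : ELe G H) (c : ℚ) (hc : 0 ≤ c) :
    ELe (c • G) (c • H) := by
  intro f hf w
  rw [LinearMap.smul_apply, LinearMap.smul_apply, Pi.smul_apply, Pi.smul_apply, smul_eq_mul,
    smul_eq_mul]
  exact mul_le_mul_of_nonneg_left (h f hf w) hc

lemma nn_smul {G : Module.End ℚ (Perm ℕ → ℚ)} (h : NN G) (c : ℚ) (hc : 0 ≤ c) : NN (c • G) := by
  intro f hf w
  rw [LinearMap.smul_apply, Pi.smul_apply, smul_eq_mul]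
  exact mul_nonneg hc (h f hf w)

lemma fac_sq_ge (j : ℕ) :
    ELe ((2 : ℚ) • lam ℚ j) (fac (lam ℚ) (1 : ℚ) j * fac (lam ℚ) (1 : ℚ) j) := by
  rw [fac_mul_fac_same nilCox_lam, show (1 : ℚ) + 1 = 2 by norm_num]
  intro f hf w
  rw [fac_apply, Pi.add_apply, LinearMap.smul_apply]
  exact le_add_of_nonneg_left (hf w)

lemma EE_sq_ge (q : ℕ) : ∀ n, ELe ((2 : ℚ) ^ n • UU q n) (EE q n * EE q n)
  | 0 => by
    rw [EE_zero, UU_zero, pow_zero, one_smul, mul_one]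
    exact ELe.rfl' _
  | (n + 1) => by
    have IH := EE_sq_ge q n
    have e : EE q (n + 1) * EE q (n + 1) = (EE q n * EE q n) *
        (fac (lam ℚ) (1 : ℚ) (q + 2 * n) * fac (lam ℚ) (1 : ℚ) (q + 2 * n)) := by
      have c := (fac_comm_EE q (q + 2 * n) n le_rfl).eq
      rw [EE_succ]
      calc EE q n * fac (lam ℚ) (1 : ℚ) (q + 2 * n) * (EE q n * fac (lam ℚ) (1 : ℚ) (q + 2 * n))
          = EE q n * (fac (lam ℚ) (1 : ℚ) (q + 2 * n) * EE q n) *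
              fac (lam ℚ) (1 : ℚ) (q + 2 * n) := by noncomm_ring
        _ = EE q n * (EE q n * fac (lam ℚ) (1 : ℚ) (q + 2 * n)) *
              fac (lam ℚ) (1 : ℚ) (q + 2 * n) := by rw [c]
        _ = _ := by noncomm_ring
    have e' : (2 : ℚ) ^ (n + 1) • UU q (n + 1) =
        ((2 : ℚ) ^ n • UU q n) * ((2 : ℚ) • lam ℚ (q + 2 * n)) := by
      rw [UU_succ, smul_mul_smul_comm, pow_succ]
    rw [e, e']
    exact ELe.mul' (nn_smul (nn_UU _ _) _ (by positivity)) IH (fac_sq_ge _)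
      ((nn_fac _).mul (nn_fac _))

lemma cG_eq (k j : ℕ) : cG k j = UU (k - 1 - j) (j + 1) := rfl

lemma dn_sub_ge (a b c p : ℕ) :
    ELe (dn (lam ℚ) (1 : ℚ) b (p + a)) (dn (lam ℚ) (1 : ℚ) (a + (b + c)) p) := by
  have e1 := dn_split (lam ℚ) (1 : ℚ) (b + c) a p
  have e2 := dn_split (lam ℚ) (1 : ℚ) c b (p + a)
  rw [e1, e2, mul_assoc]
  exact ele_mid (ele_one_dn _ _) (ele_one_dn _ _) (nn_dn _ _) (nn_dn _ _) (nn_dn _ _)

lemma M_sq_ge (k s j : ℕ) (hj : j < s) (hk : s ≤ k) :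
    ELe ((2 : ℚ) ^ (j + 1) • cG k j) (dn (lam ℚ) (1 : ℚ) (2 * s - 1) (k - s) *
      dn (lam ℚ) (1 : ℚ) (2 * s - 1) (k - s)) := by
  have h1 := dn_sub_ge (s - 1 - j) (2 * j + 1) (s - 1 - j) (k - s)
  rw [show s - 1 - j + (2 * j + 1 + (s - 1 - j)) = 2 * s - 1 by omega,
    show k - s + (s - 1 - j) = k - 1 - j by omega] at h1
  have h2 : ELe (EE (k - 1 - j) (j + 1)) (dn (lam ℚ) (1 : ℚ) (2 * s - 1) (k - s)) :=
    (dn_ge_EE (k - 1 - j) j).trans' h1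
  rw [cG_eq]
  exact (EE_sq_ge _ _).trans' (ELe.mul' (nn_EE _ _) h2 h2 (nn_dn _ _))

lemma nn_cc (k : ℕ) : ∀ s, NN (cc k s)
  | 0 => NN.one
  | (s + 1) => (nn_UU (k - 1 - s) (s + 1)).mul (nn_cc k s)

lemma tri_succ (t : ℕ) : (t + 1) * (t + 1 + 1) / 2 = (t + 1) + t * (t + 1) / 2 := by
  have h : (t + 1) * (t + 1 + 1) = t * (t + 1) + (t + 1) * 2 := by ring
  rw [h, Nat.add_mul_div_right _ _ (by norm_num), add_comm]

lemma M_pow_ge (k s : ℕ) (hk : s ≤ k) : ∀ t, t ≤ s →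
    ELe ((2 : ℚ) ^ (t * (t + 1) / 2) • cc k t)
      ((dn (lam ℚ) (1 : ℚ) (2 * s - 1) (k - s) * dn (lam ℚ) (1 : ℚ) (2 * s - 1) (k - s)) ^ t)
  | 0, _ => by
    rw [pow_zero, cc]
    simp only [pow_zero, one_smul]
    exact ELe.rfl' _
  | (t + 1), h => by
    have IH := M_pow_ge k s hk t (by omega)
    have h1 := M_sq_ge k s t (by omega) hk
    have e : (2 : ℚ) ^ ((t + 1) * (t + 1 + 1) / 2) • cc k (t + 1) =
        ((2 : ℚ) ^ (t + 1) • cG k t) * ((2 : ℚ) ^ (t * (t + 1) / 2) • cc k t) := by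
      rw [smul_mul_smul_comm, tri_succ, pow_add, cc]
    have e2 : (dn (lam ℚ) (1 : ℚ) (2 * s - 1) (k - s) *
        dn (lam ℚ) (1 : ℚ) (2 * s - 1) (k - s)) ^ (t + 1) =
        (dn (lam ℚ) (1 : ℚ) (2 * s - 1) (k - s) * dn (lam ℚ) (1 : ℚ) (2 * s - 1) (k - s)) *
        (dn (lam ℚ) (1 : ℚ) (2 * s - 1) (k - s) *
          dn (lam ℚ) (1 : ℚ) (2 * s - 1) (k - s)) ^ t := pow_succ' _ _
    rw [e, e2]
    exact ELe.mul' (nn_smul (nn_UU _ _) _ (by positivity)) h1 IH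
      (NN.pow ((nn_dn _ _).mul (nn_dn _ _)) _)

lemma nn_Hop (k β s : ℕ) : NN (Hop k β s) :=
  (NN.pow (nn_dn _ _) _).mul ((nn_Ar _ _ _ _).mul (nn_sch _ _))

theorem sch_ge (k β s : ℕ) (h1 : 2 * s ≤ k) (h2 : 3 * s + 1 ≤ k) (h3 : s ≤ β) (w : Perm ℕ) :
    2 ^ (s * (s + 1) / 2) * cf w (cc k s * Hop k β s) ≤ cf w (sch ℚ (lam ℚ) (k + β) 0) := by
  have hr := rows_ge k β s h2 h3 (2 * s) 0 (by omega)
  rw [Nat.sub_zero, zero_add] at hr
  have cBM : Commute (dn (lam ℚ) (1 : ℚ) (β - s) (k + s))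
      (dn (lam ℚ) (1 : ℚ) (2 * s - 1) (k - s)) := by
    rcases Nat.eq_zero_or_pos s with h | h
    · subst h
      rw [show 2 * 0 - 1 = 0 by norm_num, dn_zero]
      exact Commute.one_right _
    · exact dn_comm_dn _ _ _ _ (by omega)
  have e : dn (lam ℚ) (1 : ℚ) (β - s) (k + s) ^ (2 * s) *
      (dn (lam ℚ) (1 : ℚ) (2 * s - 1) (k - s) ^ (2 * s) *
        (Ar k s (2 * s) 0 * sch ℚ (lam ℚ) (k + β - 2 * s) (2 * s))) =
      dn (lam ℚ) (1 : ℚ) (2 * s - 1) (k - s) ^ (2 * s) * Hop k β s := by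
    rw [Hop, ← mul_assoc, (cBM.pow_pow _ _).eq, mul_assoc]
  rw [e] at hr
  have hM := M_pow_ge k s (by omega) s le_rfl
  have e2 : (dn (lam ℚ) (1 : ℚ) (2 * s - 1) (k - s) *
      dn (lam ℚ) (1 : ℚ) (2 * s - 1) (k - s)) ^ s =
      dn (lam ℚ) (1 : ℚ) (2 * s - 1) (k - s) ^ (2 * s) := by
    rw [← sq, ← pow_mul]
  rw [e2] at hM
  have h4 := (ELe.mulR hM (nn_Hop k β s)).trans' hr
  have h5 := h4 (del ℚ) del_nonneg w
  rw [smul_mul_assoc, LinearMap.smul_apply, Pi.smul_apply, smul_eq_mul] at h5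
  exact h5

end Pool.Agent.helper54.Expl
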