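import Pool.Agent.helper54.Expl.ODefs

/-!
# Evaluation of the triangular piece

Proof.  `(lam ℚ j f) w = if w⁻¹ (j + 1) < w⁻¹ j then f (sj j * w) else 0`.  So if
`v⁻¹ j < v⁻¹ (j + 1)` and `w = sj j * v` then `(lam ℚ j f) w = f v`.  Start from `w'`; the piece
`cc k s` is `cG k (s - 1) * ⋯ * cG k 0`, so the generator `u_{k-1}` is used first, then
`u_{k-2}, u_k`, then `u_{k-3}, u_{k-1}, u_{k+1}`, and so on.  Call the value `v` of a permutation `w`
low if `w⁻¹ v < k`.  Invariant after `cG k 0, …, cG k (t - 1)`: the value `v` is low iff `v < k - t`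
or (`v < k + t` and `v - (k - t)` is odd); between `k - t` and `k + t - 1` high and low values
alternate, starting with a high one.  The generators of `cG k t` are `j = k - 1 - t + 2 i`, `i ≤ t`;
for each of them `j` is low and `j + 1` is high, so that `w⁻¹ j < k ≤ w⁻¹ (j + 1)`, and they use
disjoint pairs of values.  For `t = 0` the hypothesis `PM k w'` (`w' x < k ↔ x < k`) gives: `v` is
low iff `v < k`.
-/

set_option autoImplicit false
open Equiv Pool.Agent.helper54.Schub

namespace Pool.Agent.helper54.Expl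

/-- the product of the transpositions `sj (a + 2 i)`, `i < m` -/
def ex2Sig (a m : ℕ) : Perm ℕ := ((List.range m).map fun i => sj (a + 2 * i)).prod

lemma ex2Sig_zero (a : ℕ) : ex2Sig a 0 = 1 := by simp [ex2Sig]

lemma ex2Sig_succ (a m : ℕ) : ex2Sig a (m + 1) = ex2Sig a m * sj (a + 2 * m) := by
  simp [ex2Sig, List.range_succ]

lemma ex2Sig_fa (a n : ℕ) : ∀ m, a + 2 * m ≤ n → FA n (ex2Sig a m)
  | 0, _ => by
      rw [ex2Sig_zero]
      intro x _
      rfl
  | m + 1, h => by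
      rw [ex2Sig_succ]
      exact (ex2Sig_fa a n m (by omega)).mul (fa_sj (by omega))

lemma ex2Sig_inv (a : ℕ) : ∀ m v, (ex2Sig a m)⁻¹ v =
    if v < a ∨ a + 2 * m ≤ v then v else if (v - a) % 2 = 0 then v + 1 else v - 1
  | 0, v => by
      rw [ex2Sig_zero, if_pos (by omega)]
      simp
  | m + 1, v => by
      rw [ex2Sig_succ, mul_inv_rev, sj_inv, Perm.mul_apply, ex2Sig_inv a m v, sj_apply]
      split_ifs <;> omega

lemma ex2Sig_prod (a : ℕ) : ∀ (m : ℕ) (w : Perm ℕ),
    (∀ i < m, w⁻¹ (a + 2 * i) < w⁻¹ (a + 2 * i + 1)) → ∀ f : Perm ℕ → ℚ,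
    ((List.range m).map fun i => lam ℚ (a + 2 * i)).prod f (ex2Sig a m * w) = f w
  | 0, w, _, f => by simp [ex2Sig_zero]
  | m + 1, w, hw, f => by
      have e1 : ((List.range (m + 1)).map fun i => lam ℚ (a + 2 * i)).prod =
          ((List.range m).map fun i => lam ℚ (a + 2 * i)).prod * lam ℚ (a + 2 * m) := by
        simp [List.range_succ]
      rw [e1, ex2Sig_succ, mul_assoc, Module.End.mul_apply,
        ex2Sig_prod a m (sj (a + 2 * m) * w) ?_, lam_apply, inv_sj_mul, inv_sj_mul, sj_left,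
        sj_right, if_pos (hw m (by omega)), sj_mul_cancel]
      intro i hi
      rw [inv_sj_mul, inv_sj_mul, sj_of_ne (by omega) (by omega), sj_of_ne (by omega) (by omega)]
      exact hw i (by omega)

lemma ex2_inv (k n : ℕ) (w' : Perm ℕ) (h : PM k w') (hfa : FA n w') :
    ∀ t, t ≤ k → k + t ≤ n → ∃ w : Perm ℕ, FA n w ∧ (∀ f : Perm ℕ → ℚ, cc k t f w = f w') ∧
      ∀ v, w⁻¹ v < k ↔ v < k - t ∨ (v < k + t ∧ k - t ≤ v ∧ (v - (k - t)) % 2 = 1)
  | 0, _, _ => by
      refine ⟨w', hfa, fun f => rfl, fun v => ?_⟩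
      have h1 := h (w'⁻¹ v)
      rw [← Perm.mul_apply, mul_inv_cancel, Perm.one_apply] at h1
      rw [← h1]
      omega
  | t + 1, ht, htn => by
      obtain ⟨w, h1, h2, h3⟩ := ex2_inv k n w' h hfa t (by omega) (by omega)
      refine ⟨ex2Sig (k - 1 - t) (t + 1) * w, ?_, ?_, ?_⟩
      · exact (ex2Sig_fa _ n _ (by omega)).mul h1
      · intro f
        have e : cc k (t + 1) f (ex2Sig (k - 1 - t) (t + 1) * w) =
            cG k t (cc k t f) (ex2Sig (k - 1 - t) (t + 1) * w) := rfl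
        rw [e]
        unfold cG
        rw [ex2Sig_prod, h2]
        intro i hi
        have l1 : w⁻¹ (k - 1 - t + 2 * i) < k := by rw [h3]; omega
        have l2 : ¬ w⁻¹ (k - 1 - t + 2 * i + 1) < k := by rw [h3]; omega
        omega
      · intro v
        rw [mul_inv_rev, Perm.mul_apply, ex2Sig_inv, h3]
        split_ifs <;> omega

theorem exists_cc (k s n : ℕ) (hs : s ≤ k) (hn : k + s ≤ n) (w' : Perm ℕ) (h : PM k w')
    (hfa : FA n w') : ∃ w : Perm ℕ, FA n w ∧ ∀ f : Perm ℕ → ℚ, cc k s f w = f w' :=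
  let ⟨w, h1, h2, _⟩ := ex2_inv k n w' h hfa s hs hn
  ⟨w, h1, h2⟩

end Pool.Agent.helper54.Expl
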