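import Pool.Agent.helper54.Expl.ODefs

/-!
# Evaluation of the remaining operator at a direct product

Proof.  `k = m + α + 1`, `Y = 2 s`.  Use the `Tens` lemmas (Schub/Tens) as in `term_value`
(Schub/Swap).  `Tens k (del ℚ) (del ℚ) (del ℚ)` (`tens_del`).

(a) wall `k`: `Tens.schM` with `a = k - Y`, `p = Y`, `l = β` (note `k - Y + β = k + β - Y`) gives
`Tens k (sch (k + β - Y) Y del) (sch (k - Y - 1) Y del) ((dn β k ^ (k - Y) * sch β k) del)`; then
`Ar k s Y 0` acts on the left factor only (`Tens.dnA`: its generators are less than `k - s - 1`),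
`dn (β - s) (k + s) ^ Y` on the right one only (`Tens.dnB`, `Tens.powB`).

(b) wall `m` for the left factor: `Tens.schM` with `a = m - Y`, `p = Y`, `l = α` (note
`k - Y - 1 = (m - Y) + α`), then each row `dn (k - s - 1 - x) x` of `Ar k s Y 0` crosses the wall
`m`: `Tens.dnM` with `a = m - x - 1`, `b = α - s`, `p = x`.  On the left of the wall the rows
`dn (m - 1 - x) x`, `x < Y`, times `sch (m - Y - 1) Y` give `sch (m - 1) 0`.
-/

set_option autoImplicit false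
open Equiv Pool.Agent.helper54.Schub

namespace Pool.Agent.helper54.Expl

/-- the rows of `Ar` act on the left of the wall `k` -/
private lemma ex3_arA {k s : ℕ} {h : Perm ℕ → ℚ} : ∀ (Y x : ℕ) {F g : Perm ℕ → ℚ},
    Tens k F g h → x + Y ≤ k → Tens k (Ar k s Y x F) (Ar k s Y x g) h
  | 0, _, _, _, H, _ => H
  | (Y + 1), x, _, _, H, hx => by
    have ih := ex3_arA (s := s) Y (x + 1) H (by omega)
    exact Tens.dnA 1 (k - s - 1 - x) x ih (by omega)

/-- the rows of the staircase `sch (m - 1) 0` from `x` to `x + Y - 1` -/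
private noncomputable def ex3Al (m : ℕ) : ℕ → ℕ → Module.End ℚ (Perm ℕ → ℚ)
  | 0, _ => 1
  | Y + 1, x => dn (lam ℚ) (1 : ℚ) (m - 1 - x) x * ex3Al m Y (x + 1)

private lemma ex3_al_sch (m : ℕ) : ∀ (Y x : ℕ), x + Y ≤ m →
    ex3Al m Y x * sch ℚ (lam ℚ) (m - 1 - (x + Y)) (x + Y) = sch ℚ (lam ℚ) (m - 1 - x) x
  | 0, x, _ => by rw [ex3Al, one_mul, Nat.add_zero]
  | (Y + 1), x, hx => by
    have ih := ex3_al_sch m Y (x + 1) (by omega)
    rw [show x + 1 + Y = x + (Y + 1) by omega] at ih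
    rw [ex3Al, mul_assoc, ih]
    rcases h : m - 1 - x with _ | l
    · rw [dn_zero, one_mul, show m - 1 - (x + 1) = 0 by omega, sch_zero, sch_zero]
    · rw [show m - 1 - (x + 1) = l by omega, sch_succ]

/-- the rows of `Ar` cross the wall `m` -/
private lemma ex3_arM {m α s k : ℕ} (hk : k = m + α + 1) (hs : s ≤ α) : ∀ (Y x : ℕ)
    {F g h : Perm ℕ → ℚ}, Tens m F g h → x + Y ≤ m →
    Tens m (Ar k s Y x F) (ex3Al m Y x g) ((dn (lam ℚ) (1 : ℚ) (α - s) m ^ Y) h)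
  | 0, _, _, _, _, H, _ => by rw [pow_zero]; exact H
  | (Y + 1), x, _, _, _, H, hx => by
    have ih := ex3_arM (s := s) hk hs Y (x + 1) H (by omega)
    have h1 := Tens.dnM 1 (m - 1 - x) (α - s) x ih (by omega)
    rw [show m - 1 - x + 1 + (α - s) = k - s - 1 - x by omega] at h1
    rw [pow_succ']
    exact h1

theorem hop_val (m α β s : ℕ) (h1 : 2 * s ≤ m) (h2 : s ≤ α) (h3 : s ≤ β) (hm : 1 ≤ m)
    (σ : Perm ℕ) (hσ : FA m σ) :
    cf (σ * rv m α * rv (m + α + 1) β) (Hop (m + α + 1) β s) =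
      cf σ (sch ℚ (lam ℚ) (m - 1) 0) *
        cf (rv m α) (dn (lam ℚ) (1 : ℚ) (α - s) m ^ (2 * s) *
          (dn (lam ℚ) (1 : ℚ) α m ^ (m - 2 * s) * sch ℚ (lam ℚ) α m)) *
        cf (rv (m + α + 1) β) (dn (lam ℚ) (1 : ℚ) (β - s) (m + α + 1 + s) ^ (2 * s) *
          (dn (lam ℚ) (1 : ℚ) β (m + α + 1) ^ (m + α + 1 - 2 * s) *
            sch ℚ (lam ℚ) β (m + α + 1))) := by
  have A0 := Tens.schM (l := β) (tens_del (K := ℚ) (m + α + 1)) (m + α + 1 - 2 * s) (2 * s)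
    (by omega)
  rw [show m + α + 1 - 2 * s + β = m + α + 1 + β - 2 * s by omega] at A0
  have A1 := ex3_arA (s := s) (2 * s) 0 A0 (by omega)
  have A2 := Tens.powB (G := dn (lam ℚ) (1 : ℚ) (β - s) (m + α + 1 + s))
    (fun F h H => Tens.dnB 1 (β - s) (m + α + 1 + s) H (by omega)) (2 * s) A1
  have hσ2 : FA (m + α + 1) (σ * rv m α) :=
    (hσ.mono (by omega)).mul (fa_rv (by omega))
  have A3 := A2 _ (rv (m + α + 1) β) hσ2 (fb_rv le_rfl)
  have B0 := Tens.schM (l := α) (tens_del (K := ℚ) m) (m - 2 * s) (2 * s) (by omega)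
  rw [show m - 2 * s + α = m + α + 1 - 2 * s - 1 by omega] at B0
  have B1 := ex3_arM (s := s) (k := m + α + 1) rfl h2 (2 * s) 0 B0 (by omega)
  have B2 := B1 _ (rv m α) hσ (fb_rv le_rfl)
  have e := ex3_al_sch m (2 * s) 0 (by omega)
  rw [Nat.zero_add, show m - 1 - 2 * s = m - 2 * s - 1 by omega, Nat.sub_zero] at e
  have e2 : (ex3Al m (2 * s) 0) ((sch ℚ (lam ℚ) (m - 2 * s - 1) (2 * s)) (del ℚ)) σ =
      cf σ (sch ℚ (lam ℚ) (m - 1) 0) := by
    rw [← e]; rfl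
  rw [e2] at B2
  rw [B2] at A3
  exact A3

end Pool.Agent.helper54.Expl
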