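import Pool.Agent.helper54.Expl.Mean

/-!
# The lower bound for the restricted sum

Proof.  `Y = 2 s`, `n = m - 2 s`, `a = n + s = m - s`, so `s ≤ n`, `a ≥ 999999 (C + 1) s` and
`(a + L) / L ≤ 1 + C`, `L ≥ 1`.
(1) `log_shift` for `n, Y = 2 s`: `log (SS m L s (2 s)) ≥ log (SS n L s 0) + s ∑_{r < 4 s} log ((a + L
+ r + 1) / (a + r + 1)) - (4 s / a) E`, `E = (∑ wt ∑ f i) / SS n L s 0`.
(2) for `τ > 0` and a natural number `x`: `x ≤ τ / 2 + x ^ 2 / (2 τ) ≤ τ / 2 + e1 x / (2 τ)`; so by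
`mean_e1` `E ≤ s τ / 2 + 3 s ^ 2 (a + 1) (a + L) / (L τ) ≤ s τ / 2 + 6 s ^ 2 a (1 + C) / τ`; with
`τ = 1000 (1 + C) s`: `E ≤ 500 (1 + C) s ^ 2 + 6 s a / 1000`, `(4 s / a) E ≤ 0.003 s ^ 2 + 0.024 s ^ 2`.
(3) `SS m L s 0 = SS n L s 0 * ∏_{y < 2 s} (ratio of n + y)` by `hR`, so by `log_rho`
`log (SS m L s 0) ≤ log (SS n L s 0) + ∑_{y < 2 s} (2 s log ((a + y + L) / (a + y + 1)) + 6 s ^ 2 / a)`.
(4) the two sums of logarithms: compare each `y` with `r = 2 y` and `r = 2 y + 1`: for `r ≥ y`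
`log ((a + L + r + 1) / (a + r + 1)) ≥ log ((a + y + L) / (a + y + 1)) - (r - y) / (a + y + 1)`, so the
total difference is at most `4 s * s * (4 s / a) = 16 s ^ 3 / a`.
Altogether `log (SS m L s (2 s)) ≥ log (SS m L s 0) - s ^ 2 / 8`.
-/

set_option autoImplicit false
open Finset

namespace Pool.Agent.helper54.Expl

private theorem lb_one {x τ : ℝ} (hx : 0 ≤ x) (hτ : 0 < τ) : x ≤ τ / 2 + e1 x / (2 * τ) := by
  have h1 : x ^ 2 ≤ e1 x := by
    unfold e1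
    nlinarith
  have h2 : x ≤ τ / 2 + x ^ 2 / (2 * τ) := by
    have h3 : τ / 2 + x ^ 2 / (2 * τ) - x = (τ - x) ^ 2 / (2 * τ) := by
      field_simp
      ring
    have h4 : 0 ≤ (τ - x) ^ 2 / (2 * τ) := by positivity
    linarith
  have h5 : x ^ 2 / (2 * τ) ≤ e1 x / (2 * τ) := by
    gcongr
  linarith

private theorem lb_mean (n L s : ℕ) (hs : 1 ≤ s) (hsn : s ≤ n) (hL : 1 ≤ L)
    (hR : SS ℝ (n + 1) L s 0 * ∏ q ∈ range (2 * s), ((2 * n + 2 + q : ℕ) : ℝ) =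
      SS ℝ n L s 0 * ∏ q ∈ range (2 * s), ((2 * n + 2 * L + 2 * s + 1 + q : ℕ) : ℝ))
    {τ : ℝ} (hτ : 0 < τ) :
    (∑ f ∈ cfg s (n + s), wt n L f * ∑ i, (f i : ℝ)) / SS ℝ n L s 0 ≤
      s * τ / 2 + 3 * (s : ℝ) ^ 2 * (((n + s + 1 : ℕ) : ℝ) * ((n + s + L : ℕ) : ℝ) / L) / τ := by
  have hpos := SS_pos n L s
  rw [div_le_iff₀ hpos]
  have h1 := mean_e1 n L s hs hsn hL hR
  have h2 : (∑ f ∈ cfg s (n + s), wt n L f * ∑ i, (f i : ℝ)) ≤
      ∑ f ∈ cfg s (n + s), wt n L f * (s * τ / 2 + (∑ i, e1 (f i : ℝ)) / (2 * τ)) := by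
    refine Finset.sum_le_sum fun f hf => ?_
    refine mul_le_mul_of_nonneg_left ?_ (wt_nonneg hf)
    calc (∑ i, (f i : ℝ)) ≤ ∑ i : Fin s, (τ / 2 + e1 (f i : ℝ) / (2 * τ)) :=
          Finset.sum_le_sum fun i _ => lb_one (Nat.cast_nonneg _) hτ
      _ = s * τ / 2 + (∑ i, e1 (f i : ℝ)) / (2 * τ) := by
          rw [Finset.sum_add_distrib, Finset.sum_const, Finset.card_univ, Fintype.card_fin,
            nsmul_eq_mul, Finset.sum_div]
          ring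
  have h3 : (∑ f ∈ cfg s (n + s), wt n L f * (s * τ / 2 + (∑ i, e1 (f i : ℝ)) / (2 * τ))) =
      s * τ / 2 * SS ℝ n L s 0 +
        (∑ f ∈ cfg s (n + s), wt n L f * ∑ i, e1 (f i : ℝ)) / (2 * τ) := by
    rw [SS_zero, Finset.mul_sum, Finset.sum_div, ← Finset.sum_add_distrib]
    refine Finset.sum_congr rfl fun f _ => ?_
    ring
  have h4 : (∑ f ∈ cfg s (n + s), wt n L f * ∑ i, e1 (f i : ℝ)) / (2 * τ) ≤
      (6 * (s : ℝ) ^ 2 * (((n + s + 1 : ℕ) : ℝ) * ((n + s + L : ℕ) : ℝ) / L) * SS ℝ n L s 0) /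
        (2 * τ) := by
    gcongr
  refine (h2.trans (le_of_eq h3)).trans ?_
  refine (add_le_add_right h4 _).trans (le_of_eq ?_)
  ring

private theorem lb_log (a L y r : ℕ) (ha : 1 ≤ a) (hL : 1 ≤ L) (hyr : y ≤ r) :
    Real.log (((a + y + L : ℕ) : ℝ) / ((a + y + 1 : ℕ) : ℝ)) - ((r : ℝ) - y) / a ≤
      Real.log (((a + L + r + 1 : ℕ) : ℝ) / ((a + r + 1 : ℕ) : ℝ)) := by
  have ha' : (1 : ℝ) ≤ a := by exact_mod_cast ha
  have hL' : (1 : ℝ) ≤ L := by exact_mod_cast hL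
  have hy' : (0 : ℝ) ≤ y := Nat.cast_nonneg y
  have hyr' : (y : ℝ) ≤ r := by exact_mod_cast hyr
  push_cast
  rw [Real.log_div (by positivity) (by positivity), Real.log_div (by positivity) (by positivity)]
  have h1 : Real.log ((a : ℝ) + y + L) ≤ Real.log ((a : ℝ) + L + r + 1) := by
    apply Real.log_le_log (by positivity)
    linarith
  have h2 : Real.log ((a : ℝ) + r + 1) - Real.log ((a : ℝ) + y + 1) ≤ ((r : ℝ) - y) / a := by
    rw [← Real.log_div (by positivity) (by positivity)]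
    have h3 : 0 < ((a : ℝ) + r + 1) / ((a : ℝ) + y + 1) := by positivity
    refine (Real.log_le_sub_one_of_pos h3).trans ?_
    have h4 : ((a : ℝ) + r + 1) / ((a : ℝ) + y + 1) - 1 = ((r : ℝ) - y) / ((a : ℝ) + y + 1) := by
      field_simp
      ring
    rw [h4]
    apply div_le_div_of_nonneg_left (by linarith) (by positivity)
    linarith
  linarith

private theorem lb_prod {ι : Type*} (T : Finset ι) (g : ι → ℝ) (h : ∀ i ∈ T, 1 ≤ g i) :
    1 ≤ ∏ i ∈ T, g i := by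
  have h1 : ∏ _i ∈ T, (1 : ℝ) ≤ ∏ i ∈ T, g i :=
    Finset.prod_le_prod (fun _ _ => zero_le_one) h
  rwa [Finset.prod_const_one] at h1

private theorem lb_pair (g : ℕ → ℝ) (N : ℕ) :
    ∑ r ∈ range (2 * N), g r = ∑ y ∈ range N, (g (2 * y) + g (2 * y + 1)) := by
  induction N with
  | zero => simp
  | succ N ih =>
    rw [Finset.sum_range_succ, ← ih, show 2 * (N + 1) = 2 * N + 1 + 1 by ring,
      Finset.sum_range_succ, Finset.sum_range_succ]
    ring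

private theorem lb_sum (a L s : ℕ) (ha : 1 ≤ a) (hL : 1 ≤ L) :
    2 * (∑ y ∈ range (2 * s), Real.log (((a + y + L : ℕ) : ℝ) / ((a + y + 1 : ℕ) : ℝ))) -
      8 * (s : ℝ) ^ 2 / a ≤
    ∑ r ∈ range (2 * (2 * s)), Real.log (((a + L + r + 1 : ℕ) : ℝ) / ((a + r + 1 : ℕ) : ℝ)) := by
  have ha' : (1 : ℝ) ≤ a := by exact_mod_cast ha
  rw [lb_pair (fun r => Real.log (((a + L + r + 1 : ℕ) : ℝ) / ((a + r + 1 : ℕ) : ℝ))) (2 * s)]
  have h1 : ∑ y ∈ range (2 * s),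
      (2 * Real.log (((a + y + L : ℕ) : ℝ) / ((a + y + 1 : ℕ) : ℝ)) - 4 * (s : ℝ) / a) ≤
      ∑ y ∈ range (2 * s), (Real.log (((a + L + (2 * y) + 1 : ℕ) : ℝ) / ((a + (2 * y) + 1 : ℕ) : ℝ)) +
        Real.log (((a + L + (2 * y + 1) + 1 : ℕ) : ℝ) / ((a + (2 * y + 1) + 1 : ℕ) : ℝ))) := by
    refine Finset.sum_le_sum fun y hy => ?_
    have hy' : y + 1 ≤ 2 * s := Finset.mem_range.1 hy
    have hy2 : (y : ℝ) + 1 ≤ 2 * s := by exact_mod_cast hy'
    have h2 := lb_log a L y (2 * y) ha hL (by omega)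
    have h3 := lb_log a L y (2 * y + 1) ha hL (by omega)
    have h4 : (((2 * y : ℕ) : ℝ) - y) / a ≤ 2 * (s : ℝ) / a := by
      push_cast
      gcongr
      linarith
    have h5 : (((2 * y + 1 : ℕ) : ℝ) - y) / a ≤ 2 * (s : ℝ) / a := by
      push_cast
      gcongr
      linarith
    have h6 : 4 * (s : ℝ) / a = 2 * (s : ℝ) / a + 2 * (s : ℝ) / a := by ring
    rw [h6]
    linarith
  refine le_trans (le_of_eq ?_) h1
  rw [Finset.sum_sub_distrib, Finset.sum_const, Finset.card_range, nsmul_eq_mul, ← Finset.mul_sum]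
  push_cast
  ring

private theorem lb_up (n L s : ℕ) (hs : 1 ≤ s) (hsn : s ≤ n)
    (hR : ∀ n, SS ℝ (n + 1) L s 0 * ∏ q ∈ range (2 * s), ((2 * n + 2 + q : ℕ) : ℝ) =
      SS ℝ n L s 0 * ∏ q ∈ range (2 * s), ((2 * n + 2 * L + 2 * s + 1 + q : ℕ) : ℝ)) (Q : ℕ) :
    Real.log (SS ℝ (n + Q) L s 0) ≤ Real.log (SS ℝ n L s 0) +
      2 * s * (∑ y ∈ range Q,
        Real.log (((n + s + y + L : ℕ) : ℝ) / ((n + s + y + 1 : ℕ) : ℝ))) +
      Q * (6 * (s : ℝ) ^ 2 / ((n + s : ℕ) : ℝ)) := by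
  induction Q with
  | zero => simp
  | succ Q ih =>
    have h1 := hR (n + Q)
    have hD : ∀ q ∈ range (2 * s), ((2 * (n + Q) + 2 + q : ℕ) : ℝ) ≠ 0 := by
      intro q _
      positivity
    have hD' : (∏ q ∈ range (2 * s), ((2 * (n + Q) + 2 + q : ℕ) : ℝ)) ≠ 0 :=
      Finset.prod_ne_zero_iff.2 hD
    have h2 : SS ℝ (n + (Q + 1)) L s 0 = SS ℝ (n + Q) L s 0 * ∏ q ∈ range (2 * s),
        (((2 * (n + Q) + 2 * L + 2 * s + 1 + q : ℕ) : ℝ) / ((2 * (n + Q) + 2 + q : ℕ) : ℝ)) := by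
      rw [Finset.prod_div_distrib, ← mul_div_assoc, eq_div_iff hD', ← h1, add_assoc]
    have hP : 0 < ∏ q ∈ range (2 * s),
        (((2 * (n + Q) + 2 * L + 2 * s + 1 + q : ℕ) : ℝ) / ((2 * (n + Q) + 2 + q : ℕ) : ℝ)) := by
      apply Finset.prod_pos
      intro q _
      positivity
    rw [h2, Real.log_mul (SS_pos _ _ _).ne' hP.ne']
    have h3 := log_rho (n + Q) L s hs (by omega)
    have h4 : 6 * (s : ℝ) ^ 2 / ((n + Q + s : ℕ) : ℝ) ≤ 6 * (s : ℝ) ^ 2 / ((n + s : ℕ) : ℝ) := by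
      have h5 : (0 : ℝ) < ((n + s : ℕ) : ℝ) := by
        have : 0 < n + s := by omega
        exact_mod_cast this
      apply div_le_div_of_nonneg_left (by positivity) h5
      have : n + s ≤ n + Q + s := by omega
      exact_mod_cast this
    rw [Finset.sum_range_succ]
    have h6 : n + Q + s + L = n + s + Q + L := by ring
    have h7 : n + Q + s + 1 = n + s + Q + 1 := by ring
    rw [h6, h7] at h3
    push_cast at ih h3 h4 ⊢
    nlinarith

theorem ratio_lb (C m L s : ℕ) (hs : 1 ≤ s) (h1 : 1000000 * (C + 1) * s ≤ m) (h2 : m + s ≤ C * L)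
    (hR : ∀ n, SS ℝ (n + 1) L s 0 * ∏ q ∈ range (2 * s), ((2 * n + 2 + q : ℕ) : ℝ) =
      SS ℝ n L s 0 * ∏ q ∈ range (2 * s), ((2 * n + 2 * L + 2 * s + 1 + q : ℕ) : ℝ)) :
    Real.exp (-(s : ℝ) ^ 2 / 8) * SS ℝ m L s 0 ≤ SS ℝ m L s (2 * s) := by
  have hk : 1000000 * s ≤ 1000000 * (C + 1) * s := by nlinarith
  obtain ⟨n, rfl⟩ : ∃ n, m = n + 2 * s := ⟨m - 2 * s, by omega⟩
  have hsn : s ≤ n := by omega
  have hL : 1 ≤ L := by
    rcases Nat.eq_zero_or_pos L with h | h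
    · subst h
      omega
    · exact h
  have ha : 1 ≤ n + s := by omega
  -- real parameters
  obtain ⟨S, hS⟩ : ∃ S : ℝ, S = (s : ℝ) := ⟨_, rfl⟩
  obtain ⟨A, hA⟩ : ∃ A : ℝ, A = ((n + s : ℕ) : ℝ) := ⟨_, rfl⟩
  obtain ⟨D, hD⟩ : ∃ D : ℝ, D = (C : ℝ) + 1 := ⟨_, rfl⟩
  have hS1 : (1 : ℝ) ≤ S := by rw [hS]; exact_mod_cast hs
  have hD1 : (1 : ℝ) ≤ D := by
    rw [hD]
    have : (0 : ℝ) ≤ (C : ℝ) := Nat.cast_nonneg C
    linarith
  have hAD : 999999 * D * S ≤ A := by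
    have h3 : (1000000 * ((C : ℝ) + 1) * s) ≤ (n : ℝ) + 2 * s := by exact_mod_cast h1
    rw [hA, hD, hS]
    push_cast
    have h4 : (s : ℝ) ≤ ((C : ℝ) + 1) * s := by
      have : (0 : ℝ) ≤ (C : ℝ) * s := by positivity
      linarith
    linarith
  have hA1 : (1 : ℝ) ≤ A := by
    rw [hA]
    exact_mod_cast ha
  have hA0 : (0 : ℝ) < A := by linarith
  have hL0 : (0 : ℝ) < (L : ℝ) := by
    have : (1 : ℝ) ≤ (L : ℝ) := by exact_mod_cast hL
    linarith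
  have hAL : A ≤ (D - 1) * L := by
    have h3 : ((n : ℝ) + 2 * s) + s ≤ (C : ℝ) * L := by exact_mod_cast h2
    rw [hA, hD]
    push_cast
    have : (0 : ℝ) ≤ (s : ℝ) := Nat.cast_nonneg s
    linarith
  have hSA : S / A ≤ 1 / (999999 * D) := by
    rw [div_le_div_iff₀ hA0 (by positivity)]
    linarith
  have hSA' : S / A ≤ 1 / 999999 := by
    refine hSA.trans ?_
    apply one_div_le_one_div_of_le (by norm_num)
    linarith
  -- (2) the mean
  obtain ⟨E, hE⟩ : ∃ E : ℝ, E = (∑ f ∈ cfg s (n + s), wt n L f * ∑ i, (f i : ℝ)) / SS ℝ n L s 0 :=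
    ⟨_, rfl⟩
  have hE1 : E ≤ 500 * D * S ^ 2 + 6 / 1000 * (S * A) := by
    have hτ : (0 : ℝ) < 1000 * D * S := by positivity
    have h3 := lb_mean n L s hs hsn hL (hR n) hτ
    rw [← hE] at h3
    have h4 : ((n + s + 1 : ℕ) : ℝ) * ((n + s + L : ℕ) : ℝ) / L ≤ 2 * A * D := by
      have h5 : ((n + s + 1 : ℕ) : ℝ) = A + 1 := by rw [hA]; push_cast; ring
      have h6 : ((n + s + L : ℕ) : ℝ) = A + L := by rw [hA]; push_cast; ring
      rw [h5, h6, div_le_iff₀ hL0]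
      have h7 : A + L ≤ D * L := by linarith
      have h8 : A + 1 ≤ 2 * A := by linarith
      calc (A + 1) * (A + L) ≤ (2 * A) * (D * L) := by
            apply mul_le_mul h8 h7 (by positivity) (by positivity)
        _ = 2 * A * D * L := by ring
    rw [← hS] at h3
    have h5 : 3 * S ^ 2 * (((n + s + 1 : ℕ) : ℝ) * ((n + s + L : ℕ) : ℝ) / L) / (1000 * D * S) ≤
        3 * S ^ 2 * (2 * A * D) / (1000 * D * S) := by
      gcongr
    have h6 : 3 * S ^ 2 * (2 * A * D) / (1000 * D * S) = 6 / 1000 * (S * A) := by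
      field_simp
      ring
    have h7 : S * (1000 * D * S) / 2 = 500 * D * S ^ 2 := by ring
    rw [h7] at h3
    linarith
  have hE2 : 2 * ((2 * s : ℕ) : ℝ) / ((n + s : ℕ) : ℝ) * E ≤ 27 / 1000 * S ^ 2 := by
    have h3 : 2 * ((2 * s : ℕ) : ℝ) / ((n + s : ℕ) : ℝ) = 4 * (S / A) := by
      rw [hS, hA]
      push_cast
      ring
    rw [h3]
    have h4 : 4 * (S / A) * E ≤ 4 * (S / A) * (500 * D * S ^ 2 + 6 / 1000 * (S * A)) := by
      gcongr
    have h5 : 4 * (S / A) * (500 * D * S ^ 2 + 6 / 1000 * (S * A)) =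
        2000 * D * (S / A) * S ^ 2 + 24 / 1000 * S ^ 2 := by
      field_simp
      ring
    have h6 : 2000 * D * (S / A) ≤ 3 / 1000 := by
      have h7 : 2000 * D * (S / A) ≤ 2000 * D * (1 / (999999 * D)) := by gcongr
      have h8 : 2000 * D * (1 / (999999 * D)) = 2000 / 999999 := by
        field_simp
      rw [h8] at h7
      refine h7.trans ?_
      norm_num
    have h9 : 2000 * D * (S / A) * S ^ 2 ≤ 3 / 1000 * S ^ 2 := by gcongr
    linarith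
  -- (1) the shift
  have hsh := log_shift n L s (2 * s) ha
  rw [← hE] at hsh
  -- (3) the upper bound
  have hup := lb_up n L s hs hsn hR (2 * s)
  -- (4) comparison
  have hcmp := lb_sum (n + s) L s ha hL
  have hpos0 := SS_pos n L s
  have hposm := SS_pos (n + 2 * s) L s
  have hpos2 : 0 < SS ℝ (n + 2 * s) L s (2 * s) := by
    refine lt_of_lt_of_le hpos0 (le_trans ?_ (SS_shift_ge n L s (2 * s)))
    rw [SS_zero]
    refine Finset.sum_le_sum fun f hf => ?_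
    have h3 : (1 : ℝ) ≤ ∏ i, ∏ r ∈ range (2 * (2 * s)),
        ((((n + s + L + r + 1 : ℕ) : ℝ) + f i) / (((n + s + r + 1 : ℕ) : ℝ) + f i)) := by
      apply lb_prod
      intro i _
      apply lb_prod
      intro r _
      rw [le_div_iff₀ (by positivity)]
      push_cast
      linarith
    have h4 : wt n L f * 1 ≤ wt n L f * ∏ i, ∏ r ∈ range (2 * (2 * s)),
        ((((n + s + L + r + 1 : ℕ) : ℝ) + f i) / (((n + s + r + 1 : ℕ) : ℝ) + f i)) :=
      mul_le_mul_of_nonneg_left h3 (wt_nonneg hf)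
    rwa [mul_one] at h4
  have hSsum : S * (∑ r ∈ range (2 * (2 * s)),
      Real.log (((n + s + L + r + 1 : ℕ) : ℝ) / ((n + s + r + 1 : ℕ) : ℝ))) ≥
      2 * S * (∑ y ∈ range (2 * s),
        Real.log (((n + s + y + L : ℕ) : ℝ) / ((n + s + y + 1 : ℕ) : ℝ))) - 8 * S ^ 3 / A := by
    have h3 := mul_le_mul_of_nonneg_left hcmp (by linarith : (0 : ℝ) ≤ S)
    have h4 : S * (2 * (∑ y ∈ range (2 * s),
        Real.log (((n + s + y + L : ℕ) : ℝ) / ((n + s + y + 1 : ℕ) : ℝ))) -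
        8 * (s : ℝ) ^ 2 / ((n + s : ℕ) : ℝ)) = 2 * S * (∑ y ∈ range (2 * s),
        Real.log (((n + s + y + L : ℕ) : ℝ) / ((n + s + y + 1 : ℕ) : ℝ))) - 8 * S ^ 3 / A := by
      rw [← hS, ← hA]
      ring
    rw [h4] at h3
    exact h3
  rw [← hS] at hsh hup
  have hup2 : ((2 * s : ℕ) : ℝ) * (6 * S ^ 2 / ((n + s : ℕ) : ℝ)) = 12 * S ^ 3 / A := by
    rw [← hA]
    push_cast
    rw [← hS]
    ring
  rw [hup2] at hup
  have hcub : S ^ 3 / A ≤ S ^ 2 / 999999 := by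
    have h3 : S ^ 3 / A = S / A * S ^ 2 := by ring
    rw [h3]
    have h4 : S / A * S ^ 2 ≤ 1 / 999999 * S ^ 2 := by gcongr
    linarith
  have hfin : Real.log (SS ℝ (n + 2 * s) L s 0) - S ^ 2 / 8 ≤
      Real.log (SS ℝ (n + 2 * s) L s (2 * s)) := by
    have h3 : 12 * S ^ 3 / A = 12 * (S ^ 3 / A) := by ring
    have h4 : 8 * S ^ 3 / A = 8 * (S ^ 3 / A) := by ring
    rw [h3] at hup
    rw [h4] at hSsum
    have h5 : (0 : ℝ) ≤ S ^ 2 := by positivity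
    linarith
  rw [← hS]
  have h3 : Real.exp (-S ^ 2 / 8) * SS ℝ (n + 2 * s) L s 0 =
      Real.exp (Real.log (SS ℝ (n + 2 * s) L s 0) - S ^ 2 / 8) := by
    rw [sub_eq_add_neg, Real.exp_add, Real.exp_log hposm]
    rw [mul_comm]
    congr 2
    ring
  rw [h3]
  calc Real.exp (Real.log (SS ℝ (n + 2 * s) L s 0) - S ^ 2 / 8) ≤
        Real.exp (Real.log (SS ℝ (n + 2 * s) L s (2 * s))) := Real.exp_le_exp.2 hfin
    _ = SS ℝ (n + 2 * s) L s (2 * s) := Real.exp_log hpos2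

end Pool.Agent.helper54.Expl
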