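import Pool.Agent.helper54.Expl.ODefs

/-!
# Reversal of words

Proof.  Let `J f = fun w => f w⁻¹`.  Then `J (lam K j f) = rho K j (J f)` (Schub/Rep), `lam K j
(del K) = rho K j (del K)` (`lam_del`) and `lam`, `rho` commute.  Call `Rv A B R` (A, B words in
`fac (lam ℚ) 1 j`, `R` the word `A` with `rho` in place of `lam`) if `∀ f, J (A f) = R (J f)`,
`R (del ℚ) = B (del ℚ)`, `RC B` (so that `B` commutes with all the `R`s) and `R` commutes with every
`X` with `RC X`.  It holds for `A = B = fac (lam ℚ) 1 j`, `R = fac (rho ℚ) 1 j`, and if it holds for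
`(A, B, R)` and `(A', B', R')` then it holds for `(A * A', B' * B, R * R')`: `R (R' del) = R (B' del)
= B' (R del) = B' (B del)`.  So the reverse of `dn 1 l p` is `up 1 l p`, the reverse of `sch l p` is
`sch l p` (induction with `sch_succ` and `sch_succ'`), and the reverse of
`dn 1 (l - s) (p + s) ^ Y * (dn 1 l p ^ n * sch l p)` is `sch l p * up 1 l p ^ n *
up 1 (l - s) (p + s) ^ Y = dn 1 l p ^ n * sch l p * up 1 (l - s) (p + s) ^ Y` (`dn_pow_mul_sch` in
Schub/Swap).  Finally `cf (rv p l) A = cf (rv p l) B` because `(rv p l)⁻¹ = rv p l` and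
`J (del ℚ) = del ℚ`.

The second theorem is `cf_pow_trace` of Schub/Swap (`q = p`, `r = l - s`, `s = p + s`).
-/

set_option autoImplicit false
open Equiv Pool.Agent.helper54.Schub

namespace Pool.Agent.helper54.Expl

/-- inversion of the argument -/
def revJ (f : Perm ℕ → ℚ) : Perm ℕ → ℚ := fun w => f w⁻¹

lemma revJ_apply (f : Perm ℕ → ℚ) (w : Perm ℕ) : revJ f w = f w⁻¹ := rfl

lemma revJ_add (f g : Perm ℕ → ℚ) : revJ (f + g) = revJ f + revJ g := rfl

lemma revJ_lam (j : ℕ) (f : Perm ℕ → ℚ) : revJ (lam ℚ j f) = rho ℚ j (revJ f) := by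
  funext w
  rw [revJ_apply, lam_apply, rho_apply, revJ_apply, inv_inv, mul_inv_rev, sj_inv]

lemma revJ_del : revJ (del ℚ) = del ℚ := by
  funext w
  rw [revJ_apply, del_apply, del_apply]
  by_cases h : w = 1
  · subst h; simp
  · rw [if_neg h, if_neg]
    intro h2
    exact h (inv_eq_one.mp h2)

/-- `B` is the reverse of `A` (witnessed by the right word `R`) -/
def RevE (A B : Module.End ℚ (Perm ℕ → ℚ)) : Prop :=
  ∃ R : Module.End ℚ (Perm ℕ → ℚ), (∀ f, revJ (A f) = R (revJ f)) ∧ R (del ℚ) = B (del ℚ) ∧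
    RC B ∧ ∀ X, RC X → R * X = X * R

lemma revE_one : RevE 1 1 :=
  ⟨1, fun _ => rfl, rfl, rc_one, fun X _ => by rw [one_mul, mul_one]⟩

lemma RevE.mul {A B A' B' : Module.End ℚ (Perm ℕ → ℚ)} (h : RevE A B) (h' : RevE A' B') :
    RevE (A * A') (B' * B) := by
  obtain ⟨R, h1, h2, h3, h4⟩ := h
  obtain ⟨R', h1', h2', h3', h4'⟩ := h'
  refine ⟨R * R', fun f => ?_, ?_, rc_mul h3' h3, fun X hX => ?_⟩
  · rw [Module.End.mul_apply, Module.End.mul_apply, h1, h1']
  · have e : R (B' (del ℚ)) = B' (R (del ℚ)) := by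
      have := congrArg (fun G : Module.End ℚ (Perm ℕ → ℚ) => G (del ℚ)) (h4 B' h3')
      simpa [Module.End.mul_apply] using this
    rw [Module.End.mul_apply, Module.End.mul_apply, h2', e, h2]
  · rw [mul_assoc, h4' X hX, ← mul_assoc, h4 X hX, mul_assoc]

lemma RevE.pow {A B : Module.End ℚ (Perm ℕ → ℚ)} (h : RevE A B) : ∀ n : ℕ, RevE (A ^ n) (B ^ n)
  | 0 => by rw [pow_zero, pow_zero]; exact revE_one
  | n + 1 => by rw [pow_succ, pow_succ']; exact (RevE.pow h n).mul h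

lemma revE_fac (j : ℕ) : RevE (fac (lam ℚ) (1 : ℚ) j) (fac (lam ℚ) (1 : ℚ) j) := by
  refine ⟨fac (rho ℚ) (1 : ℚ) j, fun f => ?_, ?_, rc_fac _ _, fun X hX => ?_⟩
  · unfold fac
    rw [one_smul, one_smul, LinearMap.add_apply, LinearMap.add_apply, Module.End.one_apply,
      Module.End.one_apply, revJ_add, revJ_lam]
  · unfold fac
    rw [one_smul, one_smul, LinearMap.add_apply, LinearMap.add_apply, lam_del]
  · unfold fac
    rw [one_smul, add_mul, mul_add, one_mul, mul_one, hX j]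

lemma revE_dn : ∀ l p, RevE (dn (lam ℚ) (1 : ℚ) l p) (up (lam ℚ) (1 : ℚ) l p)
  | 0, _ => revE_one
  | l + 1, p => by
    rw [dn_succ, up_succ]
    exact (revE_dn l (p + 1)).mul (revE_fac p)

lemma revE_sch : ∀ l p, RevE (sch ℚ (lam ℚ) l p) (sch ℚ (lam ℚ) l p)
  | 0, _ => revE_one
  | l + 1, p => by
    have h := (revE_dn (l + 1) p).mul (revE_sch l (p + 1))
    rw [← sch_succ, ← sch_succ' nilCox_lam] at h
    exact h

lemma RevE.cf_eq {A B : Module.End ℚ (Perm ℕ → ℚ)} (h : RevE A B) (p l : ℕ) :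
    cf (rv p l) A = cf (rv p l) B := by
  obtain ⟨R, h1, h2, _, _⟩ := h
  have e := congrFun (h1 (del ℚ)) (rv p l)
  rw [revJ_apply, rv_inv, revJ_del, h2] at e
  exact e

theorem fop_right (p l s Y n : ℕ) (hs : s ≤ l) :
    cf (rv p l) (dn (lam ℚ) (1 : ℚ) (l - s) (p + s) ^ Y *
      (dn (lam ℚ) (1 : ℚ) l p ^ n * sch ℚ (lam ℚ) l p)) = Fop p l s Y n := by
  have h := ((revE_dn (l - s) (p + s)).pow Y).mul (((revE_dn l p).pow n).mul (revE_sch l p))
  rw [h.cf_eq p l, ← dn_pow_mul_sch]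
  rfl

theorem fop_left (p l s Y n : ℕ) (hs : s ≤ l) :
    cf (rv p l) (dn (lam ℚ) (1 : ℚ) (l - s) p ^ Y *
      (dn (lam ℚ) (1 : ℚ) l p ^ n * sch ℚ (lam ℚ) l p)) = Fop p l s Y n := by
  have h := cf_pow_trace (p := p) (l := l) (r := l - s) (s := p + s) (q := p) le_rfl (by omega)
    (by omega) Y (rc_mul (rc_pow (rc_dn (1 : ℚ) l p) n) (rc_sch l p))
  rw [h]
  rfl

end Pool.Agent.helper54.Expl
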