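import Pool.Agent.helper54.Expl.Wr

/-!
# Merging two blocks

Proof.  `a = α + 1`, `b = β + 1`.  By `W_prod` and induction on `β`,
`W m (α + β + 1) = W m α * W (m + α + 1) β * ∏_{c ≤ β} T c` with
`T c = (∏_{i = 1}^{a} (1 + 2 m / (i + a + c))) * ∏_{i = 1}^{c} (i + c) / (2 a + i + c)`
(for `β → β + 1` the quotient of the left sides is `∏_{i=1}^{a+b} (2 m + i + a + b) / (i + a + b)`,
the quotient of `W (m + a) (β + 1)` and `W (m + a) β` is `∏_{i=1}^{b} (2 m + 2 a + i + b) / (i + b)`;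
the factors `i > a` of the first product cancel the numerators of the second).  It is enough that
`T c > 1` for `c ≤ β`.  Let `S = ∏_{i = 1}^{c} (2 a + i + c) / (i + c)`.
* `merge_lt1`: the first factor is at least `8 ^ a` and `S = ∏_{j = 1}^{2 a} (2 c + j) / (c + j)
≤ 4 ^ a`.
* `merge_lt2`: the first factor is at least `1.39 ^ a`.  If `c ≥ 1` and `q = a / c ≥ 50` then every
factor of `S` is at most `2 q + 3 < 1.39 ^ q`.
-/

set_option autoImplicit false
open Finset Pool.Agent.helper54.Schub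

namespace Pool.Agent.helper54.Expl

/-- first factor of `T c` -/
private def mrgF (m a c : ℕ) : ℚ :=
  ∏ i ∈ range a, (((2 * m + i + a + c + 1 : ℕ) : ℚ) / ((i + a + c + 1 : ℕ) : ℚ))

/-- inverse of the second factor of `T c` -/
private def mrgS (n c : ℕ) : ℚ :=
  ∏ i ∈ range c, (((i + n + c + 1 : ℕ) : ℚ) / ((i + c + 1 : ℕ) : ℚ))

private lemma mrgS_pos (n c : ℕ) : 0 < mrgS n c := by
  unfold mrgS
  apply prod_pos
  intro i _
  have h1 : (0 : ℚ) < ((i + n + c + 1 : ℕ) : ℚ) := by exact_mod_cast Nat.succ_pos _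
  have h2 : (0 : ℚ) < ((i + c + 1 : ℕ) : ℚ) := by exact_mod_cast Nat.succ_pos _
  exact div_pos h1 h2

private lemma mrg_prod (m α : ℕ) : ∀ β : ℕ, W m (α + β + 1) =
    W m α * W (m + α + 1) β * ∏ c ∈ range (β + 1), (mrgF m (α + 1) c / mrgS (2 * (α + 1)) c)
  | 0 => by
    have h0 : W (m + α + 1) 0 = 1 := rfl
    rw [add_zero, W_prod, h0, mul_one, zero_add, prod_range_one]
    congr 1
    have h1 : mrgS (2 * (α + 1)) 0 = 1 := by simp [mrgS]
    rw [h1, div_one]
    unfold mrgF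
    apply prod_congr rfl
    intro i _
    have e1 : 2 * m + i + (α + 1) + 0 + 1 = 2 * m + i + α + 2 := by ring
    have e2 : i + (α + 1) + 0 + 1 = i + α + 2 := by ring
    rw [e1, e2]
  | β + 1 => by
    have ih := mrg_prod m α β
    rw [show α + (β + 1) + 1 = α + β + 1 + 1 by ring, W_prod m (α + β + 1), ih,
      W_prod (m + α + 1) β, prod_range_succ _ (β + 1)]
    have key : ∏ i ∈ range (α + β + 1 + 1),
        (((2 * m + i + (α + β + 1) + 2 : ℕ) : ℚ) / ((i + (α + β + 1) + 2 : ℕ) : ℚ)) =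
        (∏ i ∈ range (β + 1),
          (((2 * (m + α + 1) + i + β + 2 : ℕ) : ℚ) / ((i + β + 2 : ℕ) : ℚ))) *
        (mrgF m (α + 1) (β + 1) / mrgS (2 * (α + 1)) (β + 1)) := by
      rw [show α + β + 1 + 1 = (α + 1) + (β + 1) by ring, prod_range_add]
      have hF : ∏ i ∈ range (α + 1),
          (((2 * m + i + (α + β + 1) + 2 : ℕ) : ℚ) / ((i + (α + β + 1) + 2 : ℕ) : ℚ)) =
          mrgF m (α + 1) (β + 1) := by
        unfold mrgF
        apply prod_congr rfl
        intro i _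
        have e1 : 2 * m + i + (α + β + 1) + 2 = 2 * m + i + (α + 1) + (β + 1) + 1 := by ring
        have e2 : i + (α + β + 1) + 2 = i + (α + 1) + (β + 1) + 1 := by ring
        rw [e1, e2]
      have hS : (∏ i ∈ range (β + 1), (((2 * m + (α + 1 + i) + (α + β + 1) + 2 : ℕ) : ℚ) /
          ((α + 1 + i + (α + β + 1) + 2 : ℕ) : ℚ))) * mrgS (2 * (α + 1)) (β + 1) =
          ∏ i ∈ range (β + 1),
          (((2 * (m + α + 1) + i + β + 2 : ℕ) : ℚ) / ((i + β + 2 : ℕ) : ℚ)) := by
        unfold mrgS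
        rw [← prod_mul_distrib]
        apply prod_congr rfl
        intro i _
        have e1 : 2 * m + (α + 1 + i) + (α + β + 1) + 2 = 2 * (m + α + 1) + i + β + 2 := by ring
        have e2 : α + 1 + i + (α + β + 1) + 2 = i + 2 * (α + 1) + (β + 1) + 1 := by ring
        have e3 : i + (β + 1) + 1 = i + β + 2 := by ring
        rw [e1, e2, e3]
        have hp : (((i + 2 * (α + 1) + (β + 1) + 1 : ℕ) : ℚ)) ≠ 0 := by
          positivity
        rw [div_mul_div_comm, mul_comm (((i + 2 * (α + 1) + (β + 1) + 1 : ℕ) : ℚ)),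
          mul_div_mul_right _ _ hp]
      have hSp := (mrgS_pos (2 * (α + 1)) (β + 1)).ne'
      rw [hF, ← hS]
      rw [mul_assoc, mul_div_cancel₀ _ hSp]
      ring
    rw [key]
    ring

private lemma mrg_of_gt (m α β : ℕ)
    (h : ∀ c ∈ range (β + 1), mrgS (2 * (α + 1)) c < mrgF m (α + 1) c) :
    W m α * W (m + α + 1) β < W m (α + β + 1) := by
  rw [mrg_prod]
  have hp : 0 < W m α * W (m + α + 1) β := mul_pos (W_pos _ _) (W_pos _ _)
  have h1 : 1 < ∏ c ∈ range (β + 1), (mrgF m (α + 1) c / mrgS (2 * (α + 1)) c) := by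
    have h2 : ∀ c ∈ range (β + 1), 1 < mrgF m (α + 1) c / mrgS (2 * (α + 1)) c := by
      intro c hc
      rw [one_lt_div (mrgS_pos _ _)]
      exact h c hc
    calc (1 : ℚ) = ∏ c ∈ range (β + 1), (1 : ℚ) := by simp
      _ < _ := by
        apply prod_lt_prod_of_nonempty
        · intro i _; norm_num
        · exact h2
        · exact ⟨0, by simp⟩
  calc W m α * W (m + α + 1) β = W m α * W (m + α + 1) β * 1 := by ring
    _ < _ := by exact mul_lt_mul_of_pos_left h1 hp

private lemma mrgF_ge (m a c : ℕ) (r : ℚ) (hr : 0 ≤ r)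
    (h : r * ((2 * a + c : ℕ) : ℚ) ≤ ((2 * m + 2 * a + c : ℕ) : ℚ)) (hr1 : 1 ≤ r) :
    r ^ a ≤ mrgF m a c := by
  unfold mrgF
  rw [← card_range a, ← prod_const, card_range]
  apply prod_le_prod
  · intro i _; exact hr
  · intro i hi
    rw [mem_range] at hi
    have hp : (0 : ℚ) < ((i + a + c + 1 : ℕ) : ℚ) := by exact_mod_cast Nat.succ_pos _
    rw [le_div_iff₀ hp]
    have hi' : ((i : ℚ)) + 1 ≤ a := by exact_mod_cast hi
    push_cast at h ⊢
    nlinarith

private lemma mrg_tele (f : ℕ → ℚ) (hf : ∀ i, f i ≠ 0) :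
    ∀ n, ∏ i ∈ range n, (f (i + 1) / f i) = f n / f 0
  | 0 => by simp [hf 0]
  | n + 1 => by
    rw [prod_range_succ, mrg_tele f hf n]
    have h0 := hf 0
    have h1 := hf n
    field_simp

private lemma mrgS_le (c : ℕ) : ∀ n, mrgS n c ≤ 2 ^ n
  | 0 => by
    have : mrgS 0 c = 1 := by
      unfold mrgS
      apply prod_eq_one
      intro i _
      rw [show i + 0 + c + 1 = i + c + 1 by ring]
      exact div_self (by positivity)
    rw [this, pow_zero]
  | n + 1 => by
    have ih := mrgS_le c n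
    have h1 : mrgS (n + 1) c = mrgS n c *
        ∏ i ∈ range c, (((i + 1 + n + c + 1 : ℕ) : ℚ) / ((i + n + c + 1 : ℕ) : ℚ)) := by
      unfold mrgS
      rw [← prod_mul_distrib]
      apply prod_congr rfl
      intro i _
      have hp : (((i + n + c + 1 : ℕ) : ℚ)) ≠ 0 := by positivity
      rw [show i + (n + 1) + c + 1 = i + 1 + n + c + 1 by ring, div_mul_div_comm,
        mul_comm (((i + n + c + 1 : ℕ) : ℚ)), mul_div_mul_right _ _ hp]
    have h2 := mrg_tele (fun i => ((i + n + c + 1 : ℕ) : ℚ))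
      (fun i => by
        show ((i + n + c + 1 : ℕ) : ℚ) ≠ 0
        positivity) c
    rw [h1]
    rw [h2]
    have hp : (0 : ℚ) < ((0 + n + c + 1 : ℕ) : ℚ) := by exact_mod_cast Nat.succ_pos _
    have h3 : ((c + n + c + 1 : ℕ) : ℚ) / ((0 + n + c + 1 : ℕ) : ℚ) ≤ 2 := by
      rw [div_le_iff₀ hp]
      have : (0 : ℚ) ≤ n := Nat.cast_nonneg _
      push_cast
      linarith
    have h4 : (0 : ℚ) ≤ ((c + n + c + 1 : ℕ) : ℚ) / ((0 + n + c + 1 : ℕ) : ℚ) := by
      apply div_nonneg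
      · exact Nat.cast_nonneg _
      · exact hp.le
    rw [pow_succ]
    exact mul_le_mul ih h3 h4 (by positivity)

theorem merge_lt1 (m α β : ℕ) (h : 7 * (2 * (α + 1) + (β + 1)) ≤ 2 * m) :
    W m α * W (m + α + 1) β < W m (α + β + 1) := by
  apply mrg_of_gt
  intro c hc
  rw [mem_range] at hc
  have h1 := mrgS_le c (2 * (α + 1))
  have h2 : (8 : ℚ) ^ (α + 1) ≤ mrgF m (α + 1) c := by
    apply mrgF_ge _ _ _ _ (by norm_num) _ (by norm_num)
    have : 8 * (2 * (α + 1) + c) ≤ 2 * m + 2 * (α + 1) + c := by omega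
    exact_mod_cast this
  have h3 : (2 : ℚ) ^ (2 * (α + 1)) < 8 ^ (α + 1) := by
    rw [pow_mul]
    exact pow_lt_pow_left₀ (by norm_num) (by norm_num) (Nat.succ_ne_zero _)
  linarith

private lemma mrg_pow : ∀ q : ℕ, ((2 * (q + 50) + 3 : ℕ) : ℚ) < (139 / 100) ^ (q + 50)
  | 0 => by norm_num
  | q + 1 => by
    have ih := mrg_pow q
    rw [show q + 1 + 50 = (q + 50) + 1 by ring, pow_succ]
    have : (0 : ℚ) ≤ q := Nat.cast_nonneg _
    push_cast at ih ⊢
    linarith

theorem merge_lt2 (m α β : ℕ) (h1 : α ≤ 2 * m + 1) (h2 : 9 ≤ α) (h3 : 50 * (β + 1) ≤ α + 1) :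
    W m α * W (m + α + 1) β < W m (α + β + 1) := by
  apply mrg_of_gt
  intro c hc
  rw [mem_range] at hc
  have hF : (139 / 100 : ℚ) ^ (α + 1) ≤ mrgF m (α + 1) c := by
    apply mrgF_ge _ _ _ _ (by norm_num) _ (by norm_num)
    have : 139 * (2 * (α + 1) + c) ≤ 100 * (2 * m + 2 * (α + 1) + c) := by omega
    have h4 : (139 : ℚ) * ((2 * (α + 1) + c : ℕ) : ℚ) ≤
        100 * ((2 * m + 2 * (α + 1) + c : ℕ) : ℚ) := by exact_mod_cast this
    linarith
  refine lt_of_lt_of_le ?_ hF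
  rcases Nat.eq_zero_or_pos c with hc0 | hc0
  · subst hc0
    have : mrgS (2 * (α + 1)) 0 = 1 := by simp [mrgS]
    rw [this]
    exact one_lt_pow₀ (by norm_num) (Nat.succ_ne_zero _)
  · have hd := Nat.div_add_mod (α + 1) c
    have hm := Nat.mod_lt (α + 1) hc0
    set q := (α + 1) / c with hq
    have hq50 : 50 ≤ q := by
      rw [hq, Nat.le_div_iff_mul_le hc0]
      omega
    have hqc : c * q ≤ α + 1 := by omega
    have hqc2 : α + 1 ≤ c * (q + 1) := by
      have : c * (q + 1) = c * q + c := by ring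
      omega
    have hS : mrgS (2 * (α + 1)) c ≤ ((2 * q + 3 : ℕ) : ℚ) ^ c := by
      unfold mrgS
      calc ∏ i ∈ range c, (((i + 2 * (α + 1) + c + 1 : ℕ) : ℚ) / ((i + c + 1 : ℕ) : ℚ))
          ≤ ∏ i ∈ range c, ((2 * q + 3 : ℕ) : ℚ) := by
            apply prod_le_prod
            · intro i _
              apply div_nonneg <;> exact Nat.cast_nonneg _
            · intro i _
              have hp : (0 : ℚ) < ((i + c + 1 : ℕ) : ℚ) := by exact_mod_cast Nat.succ_pos _
              rw [div_le_iff₀ hp]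
              have : i + 2 * (α + 1) + c + 1 ≤ (2 * q + 3) * (i + c + 1) := by nlinarith
              exact_mod_cast this
        _ = _ := by rw [prod_const, card_range]
    have hP : ((2 * q + 3 : ℕ) : ℚ) < (139 / 100) ^ q := by
      have := mrg_pow (q - 50)
      rwa [show q - 50 + 50 = q by omega] at this
    calc mrgS (2 * (α + 1)) c ≤ ((2 * q + 3 : ℕ) : ℚ) ^ c := hS
      _ < ((139 / 100) ^ q) ^ c := pow_lt_pow_left₀ hP (Nat.cast_nonneg _) hc0.ne'
      _ = (139 / 100) ^ (c * q) := by rw [← pow_mul, mul_comm q c]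
      _ ≤ (139 / 100) ^ (α + 1) := pow_le_pow_right₀ (by norm_num) hqc

end Pool.Agent.helper54.Expl
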