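import Pool.Agent.helper54.Expl.Mx
import Pool.Agent.helper54.Expl.Mrg

/-!
# The last two blocks of an optimal layered permutation have size at least a constant times `n`

Proof.  Take `Mx n w` (`exists_mx`) and apply `mx_cons` three times: `w = τ * rv k β`,
`τ = σ * rv m α` (`Mx k τ`, `k = m + α + 1`), `σ = σ' * rv m' α'` (`Mx m σ`, `m = m' + α' + 1`), with
`β ≤ 2 k + 1`, `α ≤ 2 m + 1`, `α' ≤ 2 m' + 1`.  So `n ≤ 3 k + 2`, `k ≤ 3 m + 2`.
Let `a = α + 1`, `b = β + 1`.  By `mx_cons2`, `merge_lt1` and `merge_lt2` for `(m, α, β)`: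
`2 m < 7 (2 a + b)`, so `n = m + a + b < 8 a + 4.5 b`, and `α < 9` or `a < 50 b`; in both cases
`n ≤ 405 b + 80`.  The same for `τ`, with `(m', α', α)` (use `Mx k (σ' * rv m' α' * rv m α)`):
`k ≤ 405 a + 80`.  With `n ≥ 1000000` all the claims follow by `omega`.
The last claim: `val n w = val m σ * W m α * W (m + α + 1) β` by `val_cons` (twice).
-/

set_option autoImplicit false
open Equiv Pool.Agent.helper54.Schub

namespace Pool.Agent.helper54.Expl

/-- the last block of an optimal permutation is not much smaller than the whole -/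
private lemma str_step {m α β : ℕ} {σ : Perm ℕ} (hσ : Lay m σ) (hα : α ≤ 2 * m + 1)
    (h : Mx (m + α + 1 + β + 1) (σ * rv m α * rv (m + α + 1) β)) :
    m + α + 1 + β + 1 ≤ 405 * (β + 1) + 80 := by
  have h0 := mx_cons2 hσ h
  have h1 : ¬ 7 * (2 * (α + 1) + (β + 1)) ≤ 2 * m := fun h1 =>
    absurd (merge_lt1 m α β h1) (not_lt.2 h0)
  have h2 : ¬ (9 ≤ α ∧ 50 * (β + 1) ≤ α + 1) := fun h2 =>
    absurd (merge_lt2 m α β hα h2.1 h2.2) (not_lt.2 h0)
  omega

theorem exists_struct (n : ℕ) (hn : 1000000 ≤ n) :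
    ∃ (m α β : ℕ) (σ : Perm ℕ), Lay m σ ∧ m + α + 1 + β + 1 = n ∧ n ≤ 2000 * m ∧ n ≤ 2000 * α ∧
      n ≤ 2000 * β ∧ ∀ w, Lay n w → val n w ≤ val m σ * W m α * W (m + α + 1) β := by
  obtain ⟨w, hw⟩ := exists_mx n
  obtain ⟨k, β, τ, hk, hτ, hwτ, hβ⟩ := mx_cons hw (by omega)
  obtain ⟨m, α, σ, hm, hσ, hτσ, hα⟩ := mx_cons hτ (by omega)
  obtain ⟨m', α', σ', hm', hσ', hσσ', hα'⟩ := mx_cons hσ (by omega)
  subst hk hm
  have e1 : m + α + 1 + β + 1 ≤ 405 * (β + 1) + 80 := by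
    refine str_step (α := α) (β := β) hσ.1 hα ?_
    rw [← hτσ, ← hwτ]
    exact hw
  have e2 : m + α + 1 ≤ 405 * (α + 1) + 80 := by
    subst hm'
    refine str_step (α := α') (β := α) hσ'.1 hα' ?_
    rw [← hσσ', ← hτσ]
    exact hτ
  refine ⟨m, α, β, σ, hσ.1, rfl, by omega, by omega, by omega, fun v hv => ?_⟩
  have h1 := hw.2 v hv
  rw [hwτ, val_cons (m + α + 1) β τ hτ.1.fa, hτσ, val_cons m α σ hσ.1.fa] at h1
  exact h1

end Pool.Agent.helper54.Expl
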