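import Pool.Agent.helper54.Expl.Ssr
import Pool.Agent.helper54.Expl.Lb
import Pool.Agent.helper54.Expl.Str
import Pool.Agent.helper54.Expl.Ex1
import Pool.Agent.helper54.Expl.Ex2
import Pool.Agent.helper54.Expl.Ex3
import Pool.Agent.helper54.Expl.Rev

/-!
# Exponential improvement of the layered permutations
-/

set_option autoImplicit false
open Finset Equiv Pool.Agent.helper54.Schub

namespace Pool.Agent.helper54.Expl

/-- lower bound for the restricted block count -/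
theorem fop_lb (C p m L s : ℕ) (hs : 1 ≤ s) (h1 : 1000000 * (C + 1) * s ≤ m)
    (h2 : m + s ≤ C * L) :
    Real.exp (-(s : ℝ) ^ 2 / 8) * ((W m (L + 2 * s - 1) : ℚ) : ℝ) ≤
      ((Fop p (L + 2 * s - 1) s (2 * s) (m - 2 * s) : ℚ) : ℝ) := by
  have hY : 2 * s ≤ m := by nlinarith
  rw [fop_det p m L s (2 * s) hs hY]
  have E1 := dt_eq m L s (2 * s) hs hY
  have E0 := dt_eq m L s 0 hs (Nat.zero_le _)
  rw [dt_zero m L s hs] at E0
  have R1 : ((Dt m L s (2 * s) : ℚ) : ℝ) * SS ℝ m L s m =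
      ((W m (L + s - 1) : ℚ) : ℝ) * SS ℝ m L s (2 * s) := by
    rw [← SS_cast, ← SS_cast]; exact_mod_cast E1
  have R0 : ((W m (L + 2 * s - 1) : ℚ) : ℝ) * SS ℝ m L s m =
      ((W m (L + s - 1) : ℚ) : ℝ) * SS ℝ m L s 0 := by
    rw [← SS_cast, ← SS_cast]; exact_mod_cast E0
  have hW : (0 : ℝ) < ((W m (L + 2 * s - 1) : ℚ) : ℝ) := by exact_mod_cast W_pos _ _
  have hW' : (0 : ℝ) < ((W m (L + s - 1) : ℚ) : ℝ) := by exact_mod_cast W_pos _ _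
  have hS := SS_pos m L s
  have hSm : 0 < SS ℝ m L s m := by
    have : 0 < ((W m (L + 2 * s - 1) : ℚ) : ℝ) * SS ℝ m L s m := by
      rw [R0]; exact mul_pos hW' hS
    exact (mul_pos_iff_of_pos_left hW).1 this
  have hlb := ratio_lb C m L s hs h1 h2 (fun n => SS_ratio_real n L s hs)
  have h3 : Real.exp (-(s : ℝ) ^ 2 / 8) * ((W m (L + 2 * s - 1) : ℚ) : ℝ) * SS ℝ m L s m ≤
      ((Dt m L s (2 * s) : ℚ) : ℝ) * SS ℝ m L s m := by
    calc Real.exp (-(s : ℝ) ^ 2 / 8) * ((W m (L + 2 * s - 1) : ℚ) : ℝ) * SS ℝ m L s m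
        = ((W m (L + s - 1) : ℚ) : ℝ) * (Real.exp (-(s : ℝ) ^ 2 / 8) * SS ℝ m L s 0) := by
          rw [mul_assoc, R0]; ring
      _ ≤ ((W m (L + s - 1) : ℚ) : ℝ) * SS ℝ m L s (2 * s) :=
          mul_le_mul_of_nonneg_left hlb hW'.le
      _ = _ := R1.symm
  exact le_of_mul_le_mul_right h3 hSm

/-- the insertion of the triangular piece -/
theorem exch (m α β s : ℕ) (h1 : 2 * s ≤ m) (h2 : s ≤ α) (h3 : s ≤ β) (hm : 1 ≤ m)
    (σ : Perm ℕ) (hσ : FA m σ) :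
    ∃ w, FA (m + α + 1 + β + 1) w ∧
      2 ^ (s * (s + 1) / 2) * (val m σ * Fop m α s (2 * s) (m - 2 * s) *
        Fop (m + α + 1) β s (2 * s) (m + α + 1 - 2 * s)) ≤ val (m + α + 1 + β + 1) w := by
  have hpm : PM (m + α + 1) (σ * rv m α * rv (m + α + 1) β) :=
    st_pm ((hσ.mono (by omega)).mul (fa_rv (by omega))) (fb_rv le_rfl)
  have hfa : FA (m + α + 1 + β + 1) (σ * rv m α * rv (m + α + 1) β) :=
    ((hσ.mono (by omega)).mul (fa_rv (by omega))).mul (fa_rv (by omega))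
  obtain ⟨w, hw1, hw2⟩ := exists_cc (m + α + 1) s (m + α + 1 + β + 1) (by omega) (by omega)
    _ hpm hfa
  refine ⟨w, hw1, ?_⟩
  have h4 := sch_ge (m + α + 1) β s (by omega) (by omega) h3 w
  have h5 : cf w (cc (m + α + 1) s * Hop (m + α + 1) β s) =
      cf (σ * rv m α * rv (m + α + 1) β) (Hop (m + α + 1) β s) := hw2 _
  rw [h5, hop_val m α β s h1 h2 h3 hm σ hσ, fop_left m α s _ _ h2,
    fop_right (m + α + 1) β s _ _ h3] at h4
  exact h4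

lemma two_pow_ge (s : ℕ) : Real.exp (0.345 * (s : ℝ) ^ 2) ≤ 2 ^ (s * (s + 1) / 2) := by
  have h1 : ((s * (s + 1) / 2 : ℕ) : ℝ) = (s : ℝ) * (s + 1) / 2 := by
    rw [Nat.cast_div (Nat.even_mul_succ_self s).two_dvd (by norm_num)]
    push_cast
    ring
  have h2 := Real.log_two_gt_d9
  have h3 : (0.345 : ℝ) * (s : ℝ) ^ 2 ≤ Real.log 2 * ((s * (s + 1) / 2 : ℕ) : ℝ) := by
    rw [h1]
    have h4 : (0 : ℝ) ≤ s := Nat.cast_nonneg s
    nlinarith [mul_nonneg h4 h4]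
  calc Real.exp (0.345 * (s : ℝ) ^ 2)
      ≤ Real.exp (Real.log 2 * ((s * (s + 1) / 2 : ℕ) : ℝ)) := Real.exp_le_exp.2 h3
    _ = 2 ^ (s * (s + 1) / 2) := by
      rw [Real.exp_mul, Real.exp_log (by norm_num), Real.rpow_natCast]

/-- the value of some permutation exceeds the values of all layered ones by an exponential factor -/
theorem exists_large (n : ℕ) (hn : 10 ^ 14 ≤ n) : ∃ w : Perm ℕ, FA n w ∧ ∀ v : Perm ℕ, Lay n v →
    Real.exp ((n : ℝ) ^ 2 / 10 ^ 28) * ((val n v : ℚ) : ℝ) ≤ ((val n w : ℚ) : ℝ) := by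
  obtain ⟨m, α, β, σ, hσ, hmn, hm, hα, hβ, hmax⟩ := exists_struct n (by omega)
  obtain ⟨s, hs⟩ : ∃ s, s = m / 8001000000 := ⟨_, rfl⟩
  have hs1 : 8001000000 * s ≤ m := by rw [hs]; exact Nat.mul_div_le _ _
  have hs2 : m < 8001000000 * (s + 1) := by rw [hs]; exact Nat.lt_mul_div_succ _ (by norm_num)
  have hs6 : 6 ≤ s := by omega
  obtain ⟨w, hw1, hw2⟩ := exch m α β s (by omega) (by omega) (by omega) (by omega) σ hσ.fa
  rw [hmn] at hw1 hw2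
  refine ⟨w, hw1, fun v hv => ?_⟩
  obtain ⟨L1, hL1⟩ : ∃ L1, L1 = α + 1 - 2 * s := ⟨_, rfl⟩
  obtain ⟨L2, hL2⟩ : ∃ L2, L2 = β + 1 - 2 * s := ⟨_, rfl⟩
  have ha : L1 + 2 * s - 1 = α := by omega
  have hb : L2 + 2 * s - 1 = β := by omega
  have B1 := fop_lb 8000 m m L1 s (by omega) (by omega) (by omega)
  have B2 := fop_lb 8000 (m + α + 1) (m + α + 1) L2 s (by omega) (by omega) (by omega)
  rw [ha] at B1
  rw [hb] at B2
  have hv1 : ((val n v : ℚ) : ℝ) ≤ ((val m σ : ℚ) : ℝ) * ((W m α : ℚ) : ℝ) *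
      ((W (m + α + 1) β : ℚ) : ℝ) := by exact_mod_cast hmax v hv
  have hw3 : (2 : ℝ) ^ (s * (s + 1) / 2) * (((val m σ : ℚ) : ℝ) *
      ((Fop m α s (2 * s) (m - 2 * s) : ℚ) : ℝ) *
        ((Fop (m + α + 1) β s (2 * s) (m + α + 1 - 2 * s) : ℚ) : ℝ)) ≤ ((val n w : ℚ) : ℝ) := by
    exact_mod_cast hw2
  have hσp : (0 : ℝ) < ((val m σ : ℚ) : ℝ) := by exact_mod_cast hσ.val_pos
  have hWa : (0 : ℝ) < ((W m α : ℚ) : ℝ) := by exact_mod_cast W_pos _ _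
  have hWb : (0 : ℝ) < ((W (m + α + 1) β : ℚ) : ℝ) := by exact_mod_cast W_pos _ _
  have hsn : (n : ℝ) ≤ 18700000000000 * s := by
    have h1 : n ≤ 2000 * m := hm
    have h2 : 6 * m ≤ 7 * 8001000000 * s := by omega
    have h3 : 6 * n ≤ 2000 * (7 * 8001000000 * s) := by omega
    have h4 : (6 : ℝ) * n ≤ 2000 * (7 * 8001000000 * s) := by exact_mod_cast h3
    linarith
  have hexp : (n : ℝ) ^ 2 / 10 ^ 28 ≤ 0.095 * (s : ℝ) ^ 2 := by
    have h0 : (0 : ℝ) ≤ n := Nat.cast_nonneg n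
    have h1 : (n : ℝ) ^ 2 ≤ (18700000000000 * s) ^ 2 := by gcongr
    rw [div_le_iff₀ (by positivity)]
    nlinarith [sq_nonneg (s : ℝ)]
  have hsplit : Real.exp (0.095 * (s : ℝ) ^ 2) = Real.exp (0.345 * (s : ℝ) ^ 2) *
      (Real.exp (-(s : ℝ) ^ 2 / 8) * Real.exp (-(s : ℝ) ^ 2 / 8)) := by
    rw [← Real.exp_add, ← Real.exp_add]
    congr 1
    ring
  have he := Real.exp_pos (-(s : ℝ) ^ 2 / 8)
  calc Real.exp ((n : ℝ) ^ 2 / 10 ^ 28) * ((val n v : ℚ) : ℝ)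
      ≤ Real.exp (0.095 * (s : ℝ) ^ 2) * (((val m σ : ℚ) : ℝ) * ((W m α : ℚ) : ℝ) *
          ((W (m + α + 1) β : ℚ) : ℝ)) := by
        apply mul_le_mul (Real.exp_le_exp.2 hexp) hv1 _ (Real.exp_pos _).le
        have := hv.val_pos
        exact_mod_cast this.le
    _ = Real.exp (0.345 * (s : ℝ) ^ 2) * (((val m σ : ℚ) : ℝ) *
          (Real.exp (-(s : ℝ) ^ 2 / 8) * ((W m α : ℚ) : ℝ)) *
          (Real.exp (-(s : ℝ) ^ 2 / 8) * ((W (m + α + 1) β : ℚ) : ℝ))) := by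
        rw [hsplit]; ring
    _ ≤ 2 ^ (s * (s + 1) / 2) * (((val m σ : ℚ) : ℝ) *
          ((Fop m α s (2 * s) (m - 2 * s) : ℚ) : ℝ) *
          ((Fop (m + α + 1) β s (2 * s) (m + α + 1 - 2 * s) : ℚ) : ℝ)) := by
        have hA0 : 0 ≤ Real.exp (-(s : ℝ) ^ 2 / 8) * ((W m α : ℚ) : ℝ) := by positivity
        have hB0 : 0 ≤ Real.exp (-(s : ℝ) ^ 2 / 8) * ((W (m + α + 1) β : ℚ) : ℝ) := by positivity
        have hFa := hA0.trans B1
        apply mul_le_mul (two_pow_ge s) _ (by positivity) (by positivity)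
        apply mul_le_mul (mul_le_mul_of_nonneg_left B1 hσp.le) B2 hB0
        exact mul_nonneg hσp.le hFa
    _ ≤ _ := hw3

/-- **Main theorem.** -/
theorem main (n : ℕ) (hn : 10 ^ 14 ≤ n) (S : Perm (Fin n) → MvPolynomial (Fin n) ℤ)
    (hS : IsSchubert n S) : ∃ w : Perm (Fin n), ∀ v : Perm (Fin n), IsLayered v →
      Real.exp ((n : ℝ) ^ 2 / 10 ^ 28) * ((nu S v : ℤ) : ℝ) ≤ ((nu S w : ℤ) : ℝ) := by
  obtain ⟨w, hw1, hw2⟩ := exists_large n hn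
  refine ⟨rst w hw1, fun v hv => ?_⟩
  have h1 := nu_eq_val hS v
  have h2 := nu_eq_val hS (rst w hw1)
  rw [iot_rst] at h2
  have h3 := hw2 (iot v) hv.lay
  rw [← h1, ← h2] at h3
  exact_mod_cast h3

end Pool.Agent.helper54.Expl
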