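import Pool.Agent.helper54.Expl.Fin

/-!
# Permutations which end with two reversed blocks
-/

set_option autoImplicit false
open Finset Equiv Pool.Agent.helper54.Schub

namespace Pool.Agent.helper54.Expl

/-- `v` maps `[0, m)` to itself, reverses the interval `[m, m + a)` and reverses `[m + a, n)` -/
def TwoBlocks {n : ℕ} (m a : ℕ) (v : Perm (Fin n)) : Prop :=
  (∀ p : Fin n, m ≤ (p : ℕ) → (p : ℕ) < m + a → (v p : ℕ) + p + 1 = m + (m + a)) ∧
    ∀ p : Fin n, m + a ≤ (p : ℕ) → (v p : ℕ) + p + 1 = m + a + n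

lemma TwoBlocks.eq {n m α β : ℕ} {v : Perm (Fin n)} (hn : n = m + α + 1 + β + 1)
    (h : TwoBlocks m (α + 1) v) :
    ∃ σ, FA m σ ∧ iot v = σ * rv m α * rv (m + α + 1) β := by
  refine ⟨iot v * rv (m + α + 1) β * rv m α, ?_, ?_⟩
  · intro x hx
    rw [Perm.mul_apply, Perm.mul_apply]
    by_cases h1 : n ≤ x
    · rw [rv_apply m α, if_neg (by omega), rv_apply, if_neg (by omega), iot_apply_of_ge v h1]
    · by_cases h2 : m + α + 1 ≤ x
      · rw [rv_apply m α, if_neg (by omega), rv_apply, if_pos (by omega)]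
        have h3 := h.2 ⟨2 * (m + α + 1) + β - x, by omega⟩ (by simp only; omega)
        have h4 := iot_apply v ⟨2 * (m + α + 1) + β - x, by omega⟩
        simp only at h3 h4
        rw [h4]
        omega
      · rw [rv_apply m α, if_pos (by omega), rv_apply, if_neg (by omega)]
        have h3 := h.1 ⟨2 * m + α - x, by omega⟩ (by simp only; omega) (by simp only; omega)
        have h4 := iot_apply v ⟨2 * m + α - x, by omega⟩
        simp only at h3 h4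
        rw [h4]
        omega
  · have e1 : rv (m + α + 1) β * rv (m + α + 1) β = 1 :=
      mul_eq_one_iff_eq_inv.2 (rv_inv _ _).symm
    have e2 : rv m α * rv m α = 1 := mul_eq_one_iff_eq_inv.2 (rv_inv _ _).symm
    rw [mul_assoc (iot v * rv (m + α + 1) β), e2, mul_one, mul_assoc, e1, mul_one]

lemma val_nonneg (n : ℕ) (w : Perm ℕ) : 0 ≤ val n w := nn_sch _ _ _ del_nonneg _

lemma val_two {m α β : ℕ} {σ : Perm ℕ} (hσ : FA m σ) :
    val (m + α + 1 + β + 1) (σ * rv m α * rv (m + α + 1) β) =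
      val m σ * W m α * W (m + α + 1) β := by
  rw [val_cons _ _ _ ((hσ.mono (by omega)).mul (fa_rv (by omega))), val_cons _ _ _ hσ]

/-- the gain for a permutation which ends with two long reversed blocks -/
theorem exists_large2 (C m α β : ℕ) (hC : 1 ≤ C) {n : ℕ} (hn : n = m + α + 1 + β + 1)
    (hn0 : 10 ^ 7 * C * (4 * C + 1) ≤ n) (hm : n ≤ C * m) (ha : n ≤ C * (α + 1))
    (hb : n ≤ C * (β + 1)) (σ : Perm ℕ) (hσ : FA m σ) :
    ∃ w : Perm ℕ, FA n w ∧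
      Real.exp ((n : ℝ) ^ 2 / (10 ^ 14 * (4 * C + 1) ^ 2 * C ^ 2)) *
        ((val n (σ * rv m α * rv (m + α + 1) β) : ℚ) : ℝ) ≤ ((val n w : ℚ) : ℝ) := by
  obtain ⟨K0, hK0⟩ : ∃ K0, K0 = 1000000 * (4 * C + 1) := ⟨_, rfl⟩
  obtain ⟨s, hs⟩ : ∃ s, s = m / K0 := ⟨_, rfl⟩
  have hKpos : 0 < K0 := by omega
  have hs1 : K0 * s ≤ m := by rw [hs]; exact Nat.mul_div_le _ _
  have hs2 : m < K0 * (s + 1) := by rw [hs]; exact Nat.lt_mul_div_succ _ hKpos
  have hmn : m ≤ n := by omega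
  have hm10 : 10 * K0 ≤ m := by
    have h1 : C * (10 * K0) ≤ C * m := by
      refine le_trans (le_of_eq ?_) (hn0.trans hm)
      rw [hK0]; ring
    exact Nat.le_of_mul_le_mul_left h1 (by omega)
  have hs10 : 10 ≤ s := by
    by_contra hcon
    have : K0 * (s + 1) ≤ K0 * 10 := Nat.mul_le_mul_left _ (by omega)
    omega
  have hsa : 4000000 * s ≤ α + 1 := by
    have h1 : C * (4000000 * s) ≤ C * (α + 1) := by
      refine le_trans ?_ ((hs1.trans hmn).trans ha)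
      rw [hK0]; nlinarith
    exact Nat.le_of_mul_le_mul_left h1 (by omega)
  have hsb : 4000000 * s ≤ β + 1 := by
    have h1 : C * (4000000 * s) ≤ C * (β + 1) := by
      refine le_trans ?_ ((hs1.trans hmn).trans hb)
      rw [hK0]; nlinarith
    exact Nat.le_of_mul_le_mul_left h1 (by omega)
  have hsm : 1000000 * (4 * C + 1) * s ≤ m := by rw [← hK0]; exact hs1
  have hsm2 : 2 * s ≤ m := by nlinarith
  obtain ⟨L1, hL1⟩ : ∃ L1, α + 1 = L1 + 2 * s := ⟨α + 1 - 2 * s, by omega⟩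
  obtain ⟨L2, hL2⟩ : ∃ L2, β + 1 = L2 + 2 * s := ⟨β + 1 - 2 * s, by omega⟩
  have hc1 : m + s ≤ 4 * C * L1 := by
    have h1 : n ≤ C * (L1 + 2 * s) := by rw [← hL1]; exact ha
    nlinarith
  have hc2 : m + α + 1 + s ≤ 4 * C * L2 := by
    have h1 : n ≤ C * (L2 + 2 * s) := by rw [← hL2]; exact hb
    have h2 : m + α + 1 ≤ n := by omega
    nlinarith
  obtain ⟨w, hw1, hw2⟩ := exch m α β s hsm2 (by omega) (by omega) (by omega) σ hσ
  rw [← hn] at hw1 hw2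
  refine ⟨w, hw1, ?_⟩
  have B1 := fop_lb (4 * C) m m L1 s (by omega) hsm hc1
  have B2 := fop_lb (4 * C) (m + α + 1) (m + α + 1) L2 s (by omega) (by omega) hc2
  rw [show L1 + 2 * s - 1 = α by omega] at B1
  rw [show L2 + 2 * s - 1 = β by omega] at B2
  have hv1 : ((val n (σ * rv m α * rv (m + α + 1) β) : ℚ) : ℝ) = ((val m σ : ℚ) : ℝ) *
      ((W m α : ℚ) : ℝ) * ((W (m + α + 1) β : ℚ) : ℝ) := by
    rw [hn, val_two hσ]; push_cast; ring
  have hw3 : (2 : ℝ) ^ (s * (s + 1) / 2) * (((val m σ : ℚ) : ℝ) *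
      ((Fop m α s (2 * s) (m - 2 * s) : ℚ) : ℝ) *
        ((Fop (m + α + 1) β s (2 * s) (m + α + 1 - 2 * s) : ℚ) : ℝ)) ≤ ((val n w : ℚ) : ℝ) := by
    exact_mod_cast hw2
  have hσp : (0 : ℝ) ≤ ((val m σ : ℚ) : ℝ) := by exact_mod_cast val_nonneg _ _
  have hWa : (0 : ℝ) < ((W m α : ℚ) : ℝ) := by exact_mod_cast W_pos _ _
  have hWb : (0 : ℝ) < ((W (m + α + 1) β : ℚ) : ℝ) := by exact_mod_cast W_pos _ _
  have hsn : (n : ℝ) ≤ 1100000 * (4 * C + 1) * C * s := by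
    have h2 : 10 * m ≤ 11 * (K0 * s) := by nlinarith
    have h3 : 10 * n ≤ C * (11 * (1000000 * (4 * C + 1) * s)) := by
      rw [← hK0]
      calc 10 * n ≤ 10 * (C * m) := by omega
        _ = C * (10 * m) := by ring
        _ ≤ _ := Nat.mul_le_mul_left _ h2
    have h4 : (10 : ℝ) * n ≤ C * (11 * (1000000 * (4 * C + 1) * s)) := by exact_mod_cast h3
    linarith
  have hC0 : (0 : ℝ) < (4 * C + 1) ^ 2 * C ^ 2 := by
    have : (0 : ℝ) < C := by exact_mod_cast hC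
    positivity
  have hexp : (n : ℝ) ^ 2 / (10 ^ 14 * (4 * C + 1) ^ 2 * C ^ 2) ≤ 0.095 * (s : ℝ) ^ 2 := by
    have h0 : (0 : ℝ) ≤ n := Nat.cast_nonneg n
    have h1 : (n : ℝ) ^ 2 ≤ (1100000 * (4 * C + 1) * C * s) ^ 2 := by gcongr
    rw [div_le_iff₀ (by
      have : (0 : ℝ) < 10 ^ 14 * ((4 * C + 1) ^ 2 * C ^ 2) := by positivity
      linarith [mul_assoc (10 ^ 14 : ℝ) ((4 * C + 1) ^ 2) (C ^ 2 : ℝ)])]
    refine h1.trans ?_
    have h3 : (0 : ℝ) ≤ ((4 * C + 1) ^ 2 * C ^ 2) * (s : ℝ) ^ 2 := by positivity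
    nlinarith
  have hsplit : Real.exp (0.095 * (s : ℝ) ^ 2) = Real.exp (0.345 * (s : ℝ) ^ 2) *
      (Real.exp (-(s : ℝ) ^ 2 / 8) * Real.exp (-(s : ℝ) ^ 2 / 8)) := by
    rw [← Real.exp_add, ← Real.exp_add]
    congr 1
    ring
  have he := Real.exp_pos (-(s : ℝ) ^ 2 / 8)
  calc Real.exp ((n : ℝ) ^ 2 / (10 ^ 14 * (4 * C + 1) ^ 2 * C ^ 2)) *
        ((val n (σ * rv m α * rv (m + α + 1) β) : ℚ) : ℝ)
      ≤ Real.exp (0.095 * (s : ℝ) ^ 2) * (((val m σ : ℚ) : ℝ) * ((W m α : ℚ) : ℝ) *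
          ((W (m + α + 1) β : ℚ) : ℝ)) := by
        rw [hv1]
        apply mul_le_mul_of_nonneg_right (Real.exp_le_exp.2 hexp)
        exact mul_nonneg (mul_nonneg hσp hWa.le) hWb.le
    _ = Real.exp (0.345 * (s : ℝ) ^ 2) * (((val m σ : ℚ) : ℝ) *
          (Real.exp (-(s : ℝ) ^ 2 / 8) * ((W m α : ℚ) : ℝ)) *
          (Real.exp (-(s : ℝ) ^ 2 / 8) * ((W (m + α + 1) β : ℚ) : ℝ))) := by
        rw [hsplit]; ring
    _ ≤ 2 ^ (s * (s + 1) / 2) * (((val m σ : ℚ) : ℝ) *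
          ((Fop m α s (2 * s) (m - 2 * s) : ℚ) : ℝ) *
          ((Fop (m + α + 1) β s (2 * s) (m + α + 1 - 2 * s) : ℚ) : ℝ)) := by
        have hA0 : 0 ≤ Real.exp (-(s : ℝ) ^ 2 / 8) * ((W m α : ℚ) : ℝ) := by positivity
        have hB0 : 0 ≤ Real.exp (-(s : ℝ) ^ 2 / 8) * ((W (m + α + 1) β : ℚ) : ℝ) := by positivity
        have hFa := hA0.trans B1
        apply mul_le_mul (two_pow_ge s) _
          (mul_nonneg (mul_nonneg hσp hA0) hB0) (by positivity)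
        apply mul_le_mul (mul_le_mul_of_nonneg_left B1 hσp) B2 hB0
        exact mul_nonneg hσp hFa
    _ ≤ _ := hw3

/-- **Second theorem.** -/
theorem main2 (C n m a : ℕ) (hn0 : 10 ^ 7 * C * (4 * C + 1) ≤ n) (hma : m + a < n)
    (hm : n ≤ C * m) (ha : n ≤ C * a) (hb : n ≤ C * (n - m - a))
    (S : Perm (Fin n) → MvPolynomial (Fin n) ℤ) (hS : IsSchubert n S) (v : Perm (Fin n))
    (hv : TwoBlocks m a v) : ∃ w : Perm (Fin n),
      Real.exp ((n : ℝ) ^ 2 / (10 ^ 14 * (4 * C + 1) ^ 2 * C ^ 2)) * ((nu S v : ℤ) : ℝ) ≤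
        ((nu S w : ℤ) : ℝ) := by
  have hC : 1 ≤ C := by
    rcases Nat.eq_zero_or_pos C with h | h
    · subst h; omega
    · exact h
  have ha1 : 1 ≤ a := by
    rcases Nat.eq_zero_or_pos a with h | h
    · subst h; omega
    · exact h
  obtain ⟨α, rfl⟩ : ∃ α, a = α + 1 := ⟨a - 1, by omega⟩
  obtain ⟨β, hβ⟩ : ∃ β, n = m + α + 1 + β + 1 := ⟨n - m - α - 2, by omega⟩
  obtain ⟨σ, hσ1, hσ2⟩ := hv.eq hβ
  obtain ⟨w, hw1, hw2⟩ := exists_large2 C m α β hC hβ hn0 hm ha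
    (by rwa [show n - m - (α + 1) = β + 1 by omega] at hb) σ hσ1
  refine ⟨rst w hw1, ?_⟩
  have h1 := nu_eq_val hS v
  have h2 := nu_eq_val hS (rst w hw1)
  rw [iot_rst] at h2
  rw [← hσ2, ← h1, ← h2] at hw2
  exact_mod_cast hw2

/-- **Third theorem.** -/
theorem main3 (n m a : ℕ) (hm : 12 ≤ m) (ha : 1 ≤ a) (hma : m + a < n)
    (S : Perm (Fin n) → MvPolynomial (Fin n) ℤ) (hS : IsSchubert n S) (v : Perm (Fin n))
    (hv : TwoBlocks m a v) : ∃ w : Perm (Fin n), nu S v < nu S w := by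
  obtain ⟨α, rfl⟩ : ∃ α, a = α + 1 := ⟨a - 1, by omega⟩
  obtain ⟨β, hβ⟩ : ∃ β, n = m + α + 1 + β + 1 := ⟨n - m - α - 2, by omega⟩
  obtain ⟨σ, hσ1, hσ2⟩ := hv.eq hβ
  have h1 := nu_eq_val hS v
  have h0 : val n (σ * rv m α * rv (m + α + 1) β) = val m σ * W m α * W (m + α + 1) β := by
    rw [hβ]; exact val_two hσ1
  rw [hσ2, h0] at h1
  have key : ∃ w : Perm ℕ, FA n w ∧ val m σ * W m α * W (m + α + 1) β < val n w := by
    rcases (val_nonneg m σ).eq_or_lt with h0 | h0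
    · obtain ⟨w, hw⟩ := exists_mx n
      refine ⟨w, hw.1.fa, ?_⟩
      rw [← h0, zero_mul, zero_mul]
      exact hw.1.val_pos
    · refine ⟨σ * rv m α * rv (m + α + 1) β * sj (m + α), ?_, ?_⟩
      · rw [hβ]
        exact (((hσ1.mono (by omega)).mul (fa_rv (by omega))).mul (fa_rv (by omega))).mul
          (fa_sj (by omega))
      · have h2 := cf_swap_ge m α β σ hσ1
        rw [hβ]
        refine lt_of_lt_of_le ?_ h2
        rw [mul_assoc]
        exact mul_lt_mul_of_pos_left (sum_Q_gt m α β hm) h0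
  obtain ⟨w, hw1, hw2⟩ := key
  refine ⟨rst w hw1, ?_⟩
  have h2 := nu_eq_val hS (rst w hw1)
  rw [iot_rst] at h2
  rw [← h1, ← h2] at hw2
  exact_mod_cast hw2

end Pool.Agent.helper54.Expl
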