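import Pool.Agent.helper54.Expl.JtOne

/-!
# The restricted block count as a determinant; two special values

Proof.  `sch l p = dn l p * dn (l-1) (p+1) * ⋯ * dn (l-s+1) (p+s-1) * sch (l-s) (p+s)` and
`sch (l-s) (p+s) * up (l-s) (p+s) ^ Y = dn (l-s) (p+s) ^ Y * sch (l-s) (p+s)` (`dn_pow_mul_sch` in
Schub/Swap), so the operator in `Fop p l s Y n` is `Ae l p e` with `e 0 = n + 1`, `e i = 1` for
`0 < i < l`, `i ≠ s`, and `e s = Y + 1` (if `s ≥ 1`; the statement `fop_eq_ae` needs `1 ≤ s`).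
* `fop_det`: `jt_one`, with `l = L + 2 s - 1` and `n = m - Y`; the sums `e 0 + ... + e i` are
  `n + i + 1` for `i < s` and `n + Y + i + 1` for `i ≥ s`.
* `fop_zero`: definition of `Wn` and `Wn_eq` (Schub/Top).
* `fop_full`: `n = 0`: strip the first `s` rows one by one with `top_rv` (Schub/Top; the remaining
  operator only uses larger generators, `Sup`), what remains is `Wn Y (l - s) (p + s)`.
-/

set_option autoImplicit false
open Equiv Finset Pool.Agent.helper54.Schub

namespace Pool.Agent.helper54.Expl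

/-- all exponents equal to one: the block operator `sch` -/
lemma fopval_ae_one : ∀ (l p : ℕ), Ae l p (fun _ => 1) = sch ℚ (lam ℚ) l p
  | 0, p => by rw [sch_zero]; rfl
  | (l + 1), p => by
    rw [sch_succ, Ae, fopval_ae_one l (p + 1), pow_one]

/-- strip one row of `sch l p * up (l - s) (p + s) ^ Y` -/
lemma fopval_strip (p l s Y : ℕ) :
    sch ℚ (lam ℚ) (l + 1) p * up (lam ℚ) (1 : ℚ) (l + 1 - (s + 1)) (p + (s + 1)) ^ Y =
      dn (lam ℚ) (1 : ℚ) (l + 1) p *
        (sch ℚ (lam ℚ) l (p + 1) * up (lam ℚ) (1 : ℚ) (l - s) (p + 1 + s) ^ Y) := by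
  rw [sch_succ, mul_assoc, show l + 1 - (s + 1) = l - s by omega,
    show p + (s + 1) = p + 1 + s by omega]

lemma fopval_sch_up (Y : ℕ) : ∀ (s l p : ℕ), s ≤ l →
    sch ℚ (lam ℚ) l p * up (lam ℚ) (1 : ℚ) (l - s) (p + s) ^ Y =
      Ae l p (fun i => if i = s then Y + 1 else 1)
  | 0, 0, p, _ => by
    rw [sch_zero, Nat.sub_zero, up_zero, one_pow, mul_one]
    rfl
  | 0, (l + 1), p, _ => by
    have h2 : (fun i : ℕ => if i + 1 = 0 then Y + 1 else 1) = fun _ => 1 := by
      funext i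
      rw [if_neg (by omega)]
    change sch ℚ (lam ℚ) (l + 1) p * up (lam ℚ) (1 : ℚ) (l + 1) p ^ Y = _
    rw [← dn_pow_mul_sch, Ae, if_pos rfl, h2, fopval_ae_one, sch_succ, ← mul_assoc, pow_succ]
  | (s + 1), 0, p, h => absurd h (by omega)
  | (s + 1), (l + 1), p, h => by
    have h2 : (fun i : ℕ => if i + 1 = s + 1 then Y + 1 else 1) =
        fun i => if i = s then Y + 1 else 1 := by
      funext i
      by_cases hi : i = s
      · rw [if_pos (by omega), if_pos hi]
      · rw [if_neg (by omega), if_neg hi]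
    rw [fopval_strip, fopval_sch_up Y s l (p + 1) (by omega), Ae, if_neg (by omega), h2, pow_one]

theorem fop_eq_ae (p l s Y n : ℕ) (hs : 1 ≤ s) (hl : s ≤ l) :
    Fop p l s Y n = cf (rv p l) (Ae l p (fun i =>
      if i = 0 then n + 1 else if i = s then Y + 1 else 1)) := by
  obtain ⟨s, rfl⟩ : ∃ t, s = t + 1 := ⟨s - 1, by omega⟩
  obtain ⟨l, rfl⟩ : ∃ t, l = t + 1 := ⟨l - 1, by omega⟩
  have h2 : (fun i : ℕ => if i + 1 = 0 then n + 1 else if i + 1 = s + 1 then Y + 1 else 1) =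
      fun i => if i = s then Y + 1 else 1 := by
    funext i
    rw [if_neg (by omega)]
    by_cases hi : i = s
    · rw [if_pos (by omega), if_pos hi]
    · rw [if_neg (by omega), if_neg hi]
  unfold Fop
  rw [mul_assoc, fopval_strip, fopval_sch_up Y s l (p + 1) (by omega), Ae, if_pos rfl, h2,
    ← mul_assoc, pow_succ]

lemma fopval_sum (n s Y : ℕ) (hs : 1 ≤ s) : ∀ i : ℕ,
    (∑ c ∈ range (i + 1), (if c = 0 then n + 1 else if c = s then Y + 1 else 1)) =
      if i < s then n + 1 + i else n + 1 + Y + i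
  | 0 => by
    rw [zero_add, sum_range_one, if_pos rfl, if_pos (by omega)]
  | (i + 1) => by
    rw [sum_range_succ, fopval_sum n s Y hs i, if_neg (Nat.succ_ne_zero i)]
    split_ifs <;> omega

theorem fop_det (p m L s Y : ℕ) (hs : 1 ≤ s) (hY : Y ≤ m) :
    Fop p (L + 2 * s - 1) s Y (m - Y) = Dt m L s Y := by
  rw [fop_eq_ae p (L + 2 * s - 1) s Y (m - Y) hs (by omega), jt_one]
  unfold Dt
  congr 1
  ext i j
  simp only [Matrix.of_apply]
  rw [fopval_sum (m - Y) s Y hs (i : ℕ)]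
  congr 1
  by_cases hi : (i : ℕ) < s
  · rw [if_pos hi, if_pos hi]
    push_cast [Nat.cast_sub hY]
    ring
  · rw [if_neg hi, if_neg hi]
    push_cast [Nat.cast_sub hY]
    ring

theorem fop_zero (p l s n : ℕ) : Fop p l s 0 n = W n l := by
  unfold Fop
  rw [pow_zero, mul_one, ← Wn_eq n l p]
  rfl

lemma fopval_full_aux (Y : ℕ) : ∀ (s l p : ℕ), s ≤ l →
    cf (rv p l) (sch ℚ (lam ℚ) l p * up (lam ℚ) (1 : ℚ) (l - s) (p + s) ^ Y) = W Y (l - s)
  | 0, l, p, _ => by
    rw [Nat.sub_zero, Nat.add_zero, ← dn_pow_mul_sch, ← Wn_eq Y l p]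
    rfl
  | (s + 1), 0, p, h => absurd h (by omega)
  | (s + 1), (l + 1), p, h => by
    have hsup : Sup p 0 ((sch ℚ (lam ℚ) l (p + 1) *
        up (lam ℚ) (1 : ℚ) (l - s) (p + 1 + s) ^ Y) (del ℚ)) := by
      rw [Module.End.mul_apply]
      refine sup_sch l (p + 1) _ ?_ (by omega)
      refine sup_pow (fun f hf => ?_) Y _ (sup_del p)
      exact (sup_up (1 : ℚ) (l - s) (p + 1 + s) f hf).2 (by omega)
    rw [fopval_strip, cf_mul, top_rv (1 : ℚ) l _ hsup, one_pow, one_mul,
      show l + 1 - (s + 1) = l - s by omega]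
    exact fopval_full_aux Y s l (p + 1) (by omega)

theorem fop_full (p l s Y : ℕ) (hs : s ≤ l) : Fop p l s Y 0 = W Y (l - s) := by
  unfold Fop
  rw [pow_zero, one_mul]
  exact fopval_full_aux Y s l p hs

end Pool.Agent.helper54.Expl
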