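import Pool.Agent.helper54.Expl.ODefs

/-!
# The flagged Jacobi-Trudi formula

Proof.  Write `D_i(y) = dn (lam K) y (l - i) (p + i)`.  Both sides satisfy the same recursion.

(1) Interpolation.  `interp` (Schub/Ring) says `(y - z) D_0(y) D_0(z) = y D_0(y) D_1(z) - z D_0(z)
D_1(y)`.  So if `x 0` is `r ++ [y, z]` (the factors `D_0` commute: `dn_comm`), then
`(y - z) * LHS(x) = y * LHS(x') - z * LHS(x'')` where in `x'` the variable `z` has been moved from
level `0` to level `1` (in front of `x 1`) and in `x''` the variable `y` has been moved.  On the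
right-hand side only row `0` of the matrix changes (`vars x i` for `i ≥ 1` is only permuted, `gs` is
a product, so use `List.Perm`), and
`(y - z) gs (r ++ [y, z]) = y gs (r ++ [y]) - z gs (r ++ [z])` because
`(y - z) g(y) g(z) = y g(y) - z g(z)` for `g(y) = PowerSeries.mk (y ^ n) = 1 / (1 - y T)`; the
determinant is linear in row `0` (`Matrix.det_updateRow_add`, `Matrix.det_updateRow_smul`).
`y - z ≠ 0` because the variables are distinct.

(2) `x 0 = []`, `l ≥ 1`: the left-hand side is `0` (`Ax K l (p+1) ..` only uses generators `≥ p + 1`: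
use `Sup p 0` of Schub/Block, `sup_dn_of_lt`, and `rv p l p = p + l ≠ p`), the matrix has a zero row.

(3) `x 0 = [y]`: LHS is `y ^ l * cf (rv (p + 1) (l - 1)) (Ax K (l - 1) (p + 1) (x ∘ succ))` by
`top_rv` (Schub/Top; needs `Sup p 0` as in (2)).  RHS: subtract `y` times column `j` from column
`j + 1` (`Matrix.det_eq_of_forall_col_eq_smul_add_pred`): `cz (f * (1 - y T)) r = cz f r - y * cz f
(r - 1)`; row `0` becomes `(y ^ l, 0, …, 0)`, and the remaining minor is the matrix of size `l - 1`
for `x ∘ succ` (`vars x (i + 1) = y :: vars (x ∘ succ) i`).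

Induction on `l`, and inside on the length of `x 0` (all `x` and `p` general).
-/

set_option autoImplicit false
open Equiv Pool.Agent.helper54.Schub

namespace Pool.Agent.helper54.Expl

section Series

variable {K : Type*} [CommRing K]

/-- the series `1 / (1 - y T)` -/
noncomputable def jtg (y : K) : PowerSeries K := PowerSeries.mk fun n => y ^ n

lemma jt_g (y : K) : (1 - PowerSeries.C y * PowerSeries.X) * jtg y = 1 := by
  ext n
  rw [sub_mul, one_mul, map_sub, mul_assoc, PowerSeries.coeff_C_mul, PowerSeries.coeff_one]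
  cases n with
  | zero =>
    rw [PowerSeries.coeff_zero_X_mul, mul_zero, sub_zero, if_pos rfl]
    unfold jtg
    rw [PowerSeries.coeff_mk, pow_zero]
  | succ n =>
    rw [PowerSeries.coeff_succ_X_mul, if_neg (Nat.succ_ne_zero n)]
    unfold jtg
    rw [PowerSeries.coeff_mk, PowerSeries.coeff_mk, pow_succ', sub_self]

lemma jt_gs_nil : gs ([] : List K) = 1 := rfl

lemma jt_gs_cons (y : K) (L : List K) : gs (y :: L) = jtg y * gs L := by
  unfold gs
  rw [List.map_cons, List.prod_cons]
  rfl

lemma jt_gs_append (L M : List K) : gs (L ++ M) = gs L * gs M := by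
  unfold gs
  rw [List.map_append, List.prod_append]

lemma jt_gg (y z : K) : PowerSeries.C (y - z) * (jtg y * jtg z) =
    PowerSeries.C y * jtg y - PowerSeries.C z * jtg z := by
  have h1 := jt_g y
  have h2 := jt_g z
  rw [map_sub]
  linear_combination (PowerSeries.C y * jtg y) * h2 - (PowerSeries.C z * jtg z) * h1

lemma jt_cz_C (a : K) (f : PowerSeries K) (r : ℤ) : cz (PowerSeries.C a * f) r = a * cz f r := by
  unfold cz
  split_ifs
  · rw [mul_zero]
  · rw [PowerSeries.coeff_C_mul]

lemma jt_cz_sub (f h : PowerSeries K) (r : ℤ) : cz (f - h) r = cz f r - cz h r := by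
  unfold cz
  split_ifs
  · rw [sub_zero]
  · rw [map_sub]

lemma jt_cz_rec (y : K) (h : PowerSeries K) (r : ℤ) :
    cz (jtg y * h) (r + 1) = cz h (r + 1) + y * cz (jtg y * h) r := by
  have key : h = jtg y * h - PowerSeries.C y * (PowerSeries.X * (jtg y * h)) := by
    have h1 := jt_g y
    linear_combination (-h) * h1
  have h2 : cz h (r + 1) = cz (jtg y * h) (r + 1) -
      y * cz (PowerSeries.X * (jtg y * h)) (r + 1) := by
    rw [← jt_cz_C, ← jt_cz_sub, ← key]
  have h3 : cz (PowerSeries.X * (jtg y * h)) (r + 1) = cz (jtg y * h) r := by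
    unfold cz
    rcases lt_trichotomy (r + 1) 0 with h4 | h4 | h4
    · rw [if_pos h4, if_pos (by omega)]
    · rw [if_neg (by omega), if_pos (by omega), h4]
      exact PowerSeries.coeff_zero_X_mul _
    · rw [if_neg (by omega), if_neg (by omega), show (r + 1).toNat = r.toNat + 1 by omega,
        PowerSeries.coeff_succ_X_mul]
  rw [h2, h3]
  ring

lemma jt_cz_one {r : ℤ} (hr : r ≠ 0) : cz (1 : PowerSeries K) r = 0 := by
  unfold cz
  split_ifs with h
  · rfl
  · rw [PowerSeries.coeff_one, if_neg (by omega)]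

lemma jt_cz_g (y : K) (n : ℕ) : cz (jtg y) (n : ℤ) = y ^ n := by
  unfold cz jtg
  rw [if_neg (by omega), Int.toNat_natCast, PowerSeries.coeff_mk]

/-- the list `L` in front of the sequence `x` -/
def jtc (L : List K) (x : ℕ → List K) : ℕ → List K
  | 0 => L
  | i + 1 => x i

omit [CommRing K] in
lemma jt_vars_c (L : List K) (x : ℕ → List K) : ∀ i, vars (jtc L x) (i + 1) = L ++ vars x i
  | 0 => rfl
  | i + 1 => by
    show vars (jtc L x) (i + 1) ++ x (i + 1) = L ++ (vars x i ++ x (i + 1))
    rw [jt_vars_c L x i, List.append_assoc]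

/-- the variable `z` is put in front of the list of level `0` -/
def jtp (z : K) (x : ℕ → List K) : ℕ → List K := jtc (z :: x 0) fun i => x (i + 1)

omit [CommRing K] in
lemma jt_c_self (x : ℕ → List K) : jtc (x 0) (fun i => x (i + 1)) = x := by
  funext i
  cases i <;> rfl

omit [CommRing K] in
lemma jt_vars_p (z : K) (x : ℕ → List K) (i : ℕ) : vars (jtp z x) i = z :: vars x i := by
  cases i with
  | zero => rfl
  | succ i =>
    have h1 : vars x (i + 1) = x 0 ++ vars (fun i => x (i + 1)) i := by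
      conv_lhs => rw [← jt_c_self x]
      rw [jt_vars_c]
    rw [jtp, jt_vars_c, h1]
    rfl

/-- the matrix of the flagged Jacobi-Trudi formula -/
noncomputable def jtM (l : ℕ) (x : ℕ → List K) : Matrix (Fin l) (Fin l) K :=
  Matrix.of fun i j : Fin l => cz (gs (vars x i)) ((l : ℤ) - 2 * (i : ℕ) + (j : ℕ))

lemma jtM_apply (l : ℕ) (x : ℕ → List K) (i j : Fin l) :
    jtM l x i j = cz (gs (vars x i)) ((l : ℤ) - 2 * (i : ℕ) + (j : ℕ)) := rfl

lemma jt_det_nil (l : ℕ) (x : ℕ → List K) : (jtM (l + 1) (jtc [] x)).det = 0 := by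
  refine Matrix.det_eq_zero_of_row_eq_zero 0 fun j => ?_
  rw [jtM_apply]
  show cz (1 : PowerSeries K) _ = 0
  refine jt_cz_one ?_
  have h1 : ((0 : Fin (l + 1)) : ℕ) = 0 := rfl
  rw [h1]
  push_cast
  omega

lemma jt_det_one (l : ℕ) (y : K) (x : ℕ → List K) :
    (jtM (l + 1) (jtc [y] x)).det = y ^ (l + 1) * (jtM l x).det := by
  obtain ⟨B, hB0, hBs⟩ : ∃ B : Matrix (Fin (l + 1)) (Fin (l + 1)) K,
      (∀ i, B i 0 = jtM (l + 1) (jtc [y] x) i 0) ∧ ∀ (i : Fin (l + 1)) (j : Fin l),
      B i j.succ = jtM (l + 1) (jtc [y] x) i j.succ -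
        y * jtM (l + 1) (jtc [y] x) i (Fin.castSucc j) := by
    refine ⟨Matrix.of fun i j => Fin.cases (motive := fun _ => K) (jtM (l + 1) (jtc [y] x) i 0)
      (fun j => jtM (l + 1) (jtc [y] x) i j.succ -
        y * jtM (l + 1) (jtc [y] x) i (Fin.castSucc j)) j, fun i => rfl, fun i j => rfl⟩
  have hsucc : ∀ (i : Fin (l + 1)) (j : Fin l) (h : PowerSeries K),
      gs (vars (jtc [y] x) i) = jtg y * h →
      B i j.succ = cz h ((l : ℤ) + 1 - 2 * (i : ℕ) + (j : ℕ) + 1) := by
    intro i j h hh
    have e1 : (((l + 1 : ℕ) : ℤ) - 2 * ((i : ℕ) : ℤ) + ((j.succ : Fin (l + 1)) : ℕ)) =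
        (l : ℤ) + 1 - 2 * (i : ℕ) + (j : ℕ) + 1 := by
      rw [Fin.val_succ]
      push_cast
      ring
    have e2 : (((l + 1 : ℕ) : ℤ) - 2 * ((i : ℕ) : ℤ) + ((Fin.castSucc j : Fin (l + 1)) : ℕ)) =
        (l : ℤ) + 1 - 2 * (i : ℕ) + (j : ℕ) := by
      rw [Fin.val_castSucc]
      push_cast
      ring
    rw [hBs, jtM_apply, jtM_apply, e1, e2, hh, jt_cz_rec]
    ring
  rw [Matrix.det_eq_of_forall_col_eq_smul_add_pred (A := jtM (l + 1) (jtc [y] x)) (B := B)
    (fun _ => y) (fun i => (hB0 i).symm) (fun i j => by rw [hBs]; ring),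
    Matrix.det_succ_row_zero, Fin.sum_univ_succ]
  have h0 : B 0 0 = y ^ (l + 1) := by
    rw [hB0, jtM_apply]
    have e1 : (((l + 1 : ℕ) : ℤ) - 2 * (((0 : Fin (l + 1)) : ℕ) : ℤ) + ((0 : Fin (l + 1)) : ℕ)) =
        ((l + 1 : ℕ) : ℤ) := by
      have h1 : ((0 : Fin (l + 1)) : ℕ) = 0 := rfl
      rw [h1]
      push_cast
      ring
    rw [e1]
    show cz (gs [y]) _ = _
    rw [jt_gs_cons, jt_gs_nil, mul_one, jt_cz_g]
  have hs : ∀ j : Fin l, B 0 j.succ = 0 := by
    intro j
    rw [hsucc 0 j 1 (by show gs [y] = _; rw [jt_gs_cons, jt_gs_nil])]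
    refine jt_cz_one ?_
    have h1 : ((0 : Fin (l + 1)) : ℕ) = 0 := rfl
    rw [h1]
    push_cast
    omega
  have hm : B.submatrix Fin.succ ((0 : Fin (l + 1)).succAbove) = jtM l x := by
    ext i j
    rw [Matrix.submatrix_apply, Fin.zero_succAbove, hsucc i.succ j (gs (vars x i)) (by
      rw [Fin.val_succ, jt_vars_c, jt_gs_append, jt_gs_cons, jt_gs_nil, mul_one]), jtM_apply]
    congr 1
    rw [Fin.val_succ]
    push_cast
    ring
  rw [h0, hm, Finset.sum_eq_zero fun j _ => by rw [hs]; ring]
  have h1 : ((0 : Fin (l + 1)) : ℕ) = 0 := rfl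
  rw [h1]
  ring

lemma jt_det_two (l : ℕ) (y z : K) (r : List K) (x : ℕ → List K) :
    (y - z) * (jtM (l + 1) (jtc (y :: z :: r) x)).det =
      y * (jtM (l + 1) (jtc (y :: r) (jtp z x))).det -
        z * (jtM (l + 1) (jtc (z :: r) (jtp y x))).det := by
  have hrow : ∀ j : Fin (l + 1), (y - z) * jtM (l + 1) (jtc (y :: z :: r) x) 0 j =
      y * jtM (l + 1) (jtc (y :: r) (jtp z x)) 0 j -
        z * jtM (l + 1) (jtc (z :: r) (jtp y x)) 0 j := by
    intro j
    rw [jtM_apply, jtM_apply, jtM_apply, ← jt_cz_C, ← jt_cz_C, ← jt_cz_C, ← jt_cz_sub]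
    congr 1
    show PowerSeries.C (y - z) * gs (y :: z :: r) = PowerSeries.C y * gs (y :: r) -
      PowerSeries.C z * gs (z :: r)
    rw [jt_gs_cons, jt_gs_cons, jt_gs_cons]
    linear_combination gs r * jt_gg y z
  have hm1 : ∀ j : Fin (l + 1),
      (jtM (l + 1) (jtc (y :: r) (jtp z x))).submatrix Fin.succ j.succAbove =
        (jtM (l + 1) (jtc (y :: z :: r) x)).submatrix Fin.succ j.succAbove := by
    intro j
    ext i k
    rw [Matrix.submatrix_apply, Matrix.submatrix_apply, jtM_apply, jtM_apply, Fin.val_succ,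
      jt_vars_c, jt_vars_c, jt_vars_p, jt_gs_append, jt_gs_append, jt_gs_cons, jt_gs_cons,
      jt_gs_cons, jt_gs_cons]
    congr 1
    ring
  have hm2 : ∀ j : Fin (l + 1),
      (jtM (l + 1) (jtc (z :: r) (jtp y x))).submatrix Fin.succ j.succAbove =
        (jtM (l + 1) (jtc (y :: z :: r) x)).submatrix Fin.succ j.succAbove := by
    intro j
    ext i k
    rw [Matrix.submatrix_apply, Matrix.submatrix_apply, jtM_apply, jtM_apply, Fin.val_succ,
      jt_vars_c, jt_vars_c, jt_vars_p, jt_gs_append, jt_gs_append, jt_gs_cons, jt_gs_cons,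
      jt_gs_cons, jt_gs_cons]
    congr 1
    ring
  rw [Matrix.det_succ_row_zero, Matrix.det_succ_row_zero (jtM (l + 1) (jtc (y :: r) (jtp z x))),
    Matrix.det_succ_row_zero (jtM (l + 1) (jtc (z :: r) (jtp y x))), Finset.mul_sum,
    Finset.mul_sum, Finset.mul_sum, ← Finset.sum_sub_distrib]
  refine Finset.sum_congr rfl fun j _ => ?_
  rw [hm1, hm2]
  linear_combination ((-1) ^ (j : ℕ) *
    ((jtM (l + 1) (jtc (y :: z :: r) x)).submatrix Fin.succ j.succAbove).det) * hrow j

end Series

section Operators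

variable {K : Type*} [CommRing K]

lemma jt_Ax_succ (l p : ℕ) (L : List K) (x : ℕ → List K) :
    Ax K (l + 1) p (jtc L x) = (L.map fun y => dn (lam K) y (l + 1) p).prod * Ax K l (p + 1) x :=
  rfl

lemma jt_push (z : K) (l p : ℕ) (x : ℕ → List K) :
    dn (lam K) z l p * Ax K l p x = Ax K l p (jtp z x) := by
  cases l with
  | zero =>
    rw [dn_zero, one_mul]
    rfl
  | succ l =>
    rw [jtp, jt_Ax_succ, List.map_cons, List.prod_cons, mul_assoc]
    rfl

lemma jt_sup_list (l q p : ℕ) (hq : p < q) (f : Perm ℕ → K) (hf : Sup p 0 f) :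
    ∀ L : List K, Sup p 0 ((L.map fun y => dn (lam K) y l q).prod f)
  | [] => hf
  | y :: L => by
    rw [List.map_cons, List.prod_cons]
    exact sup_dn_of_lt y l q _ (jt_sup_list l q p hq f hf L) (by omega)

lemma jt_sup (p : ℕ) : ∀ (l q : ℕ) (x : ℕ → List K), p < q → Sup p 0 (Ax K l q x (del K))
  | 0, _, _, _ => sup_del p
  | l + 1, q, x, hq => jt_sup_list (l + 1) q p hq _ (jt_sup p l (q + 1) _ (by omega)) (x 0)

lemma jt_op_nil (l p : ℕ) (x : ℕ → List K) :
    cf (rv p (l + 1)) (Ax K (l + 1) p (jtc [] x)) = 0 := by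
  rw [jt_Ax_succ, List.map_nil, List.prod_nil, one_mul]
  by_contra hne
  have h1 := jt_sup (K := K) p l (p + 1) x (by omega) (rv p (l + 1)) hne
  rw [rv_apply, if_pos (by omega)] at h1
  omega

lemma jt_op_one (l p : ℕ) (y : K) (x : ℕ → List K) :
    cf (rv p (l + 1)) (Ax K (l + 1) p (jtc [y] x)) =
      y ^ (l + 1) * cf (rv (p + 1) l) (Ax K l (p + 1) x) := by
  rw [jt_Ax_succ, List.map_cons, List.map_nil, List.prod_cons, List.prod_nil, mul_one, cf_mul,
    top_rv y l _ (jt_sup p l (p + 1) x (by omega))]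
  rfl

lemma jt_op_two (l p : ℕ) (y z : K) (r : List K) (x : ℕ → List K) :
    (y - z) * cf (rv p (l + 1)) (Ax K (l + 1) p (jtc (y :: z :: r) x)) =
      y * cf (rv p (l + 1)) (Ax K (l + 1) p (jtc (y :: r) (jtp z x))) -
        z * cf (rv p (l + 1)) (Ax K (l + 1) p (jtc (z :: r) (jtp y x))) := by
  obtain ⟨R, hR⟩ : ∃ R, R = (r.map fun y => dn (lam K) y (l + 1) p).prod := ⟨_, rfl⟩
  have hcR : ∀ w : K, dn (lam K) w (l + 1) p * R = R * dn (lam K) w (l + 1) p := by
    intro w
    rw [hR]
    refine (Commute.list_prod_right _ _ fun a ha => ?_).eq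
    obtain ⟨v, -, rfl⟩ := List.mem_map.mp ha
    exact dn_comm (nilCox_lam (K := K)) w v (l + 1) p
  have hi := interp (nilCox_lam (K := K)) y z l p
  have e1 : Ax K (l + 1) p (jtc (y :: z :: r) x) =
      R * (dn (lam K) y (l + 1) p * dn (lam K) z (l + 1) p) * Ax K l (p + 1) x := by
    rw [jt_Ax_succ, List.map_cons, List.map_cons, List.prod_cons, List.prod_cons, ← hR, hcR z,
      ← mul_assoc (dn (lam K) y (l + 1) p) R, hcR y, mul_assoc R]
  have e2 : ∀ v w : K, Ax K (l + 1) p (jtc (v :: r) (jtp w x)) =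
      R * (dn (lam K) v (l + 1) p * dn (lam K) w l (p + 1)) * Ax K l (p + 1) x := by
    intro v w
    rw [jt_Ax_succ, List.map_cons, List.prod_cons, ← hR, hcR v, ← jt_push]
    simp only [mul_assoc]
  rw [e1, e2, e2, ← cf_smul, ← cf_smul, ← cf_smul, ← cf_sub]
  congr 1
  rw [← smul_mul_assoc, ← mul_smul_comm, hi, mul_sub, sub_mul, mul_smul_comm, mul_smul_comm,
    smul_mul_assoc, smul_mul_assoc]

end Operators

theorem jt_aux {K : Type*} [CommRing K] [IsDomain K] (l : ℕ) : ∀ (p : ℕ) (x : ℕ → List K),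
    (∀ i, (vars x i).Nodup) → cf (rv p l) (Ax K l p x) = (jtM l x).det := by
  induction l with
  | zero =>
    intro p x _
    rw [rv_zero, Matrix.det_isEmpty]
    exact del_one (K := K)
  | succ l ih =>
    intro p
    have key : ∀ (n : ℕ) (L : List K) (x : ℕ → List K), L.length = n →
        (∀ i, (vars (jtc L x) i).Nodup) →
        cf (rv p (l + 1)) (Ax K (l + 1) p (jtc L x)) = (jtM (l + 1) (jtc L x)).det := by
      intro n
      induction n with
      | zero =>
        intro L x hL _
        rw [List.length_eq_zero_iff.mp hL, jt_op_nil, jt_det_nil]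
      | succ n ihn =>
        intro L x hL hx
        match L, hL, hx with
        | [], hL, _ => exact absurd hL (by simp)
        | [y], _, hx =>
          rw [jt_op_one, jt_det_one, ih (p + 1) x fun i => ?_]
          have h1 := hx (i + 1)
          rw [jt_vars_c] at h1
          exact (List.nodup_cons.mp h1).2
        | y :: z :: r, hL, hx =>
          have h0 : (y :: z :: r).Nodup := hx 0
          have hyz : y ≠ z := by
            rintro rfl
            exact (List.nodup_cons.mp h0).1 List.mem_cons_self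
          have hnd : ∀ v w : K, (∀ M : List K, (v :: r ++ w :: M).Perm (y :: z :: r ++ M)) →
              ∀ i, (vars (jtc (v :: r) (jtp w x)) i).Nodup := by
            intro v w hp i
            cases i with
            | zero =>
              have h1 : (v :: r ++ [w]).Nodup := ((hp []).nodup_iff).mpr (by simpa using h0)
              exact (List.nodup_append.mp h1).1
            | succ i =>
              rw [jt_vars_c, jt_vars_p]
              refine ((hp _).nodup_iff).mpr ?_
              have h1 := hx (i + 1)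
              rwa [jt_vars_c] at h1
          have h1 := jt_op_two l p y z r x
          have hlen : r.length + 1 = n := by
            simpa using hL
          rw [ihn (y :: r) (jtp z x) (by simpa using hlen) (hnd y z fun M => by
              rw [List.cons_append, List.cons_append, List.cons_append]
              exact (List.perm_middle).cons y),
            ihn (z :: r) (jtp y x) (by simpa using hlen) (hnd z y fun M => by
              rw [List.cons_append, List.cons_append, List.cons_append]
              exact ((List.perm_middle).cons z).trans (List.Perm.swap y z _)),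
            ← jt_det_two] at h1
          exact mul_left_cancel₀ (sub_ne_zero.mpr hyz) h1
    intro x hx
    have h1 := key _ (x 0) (fun i => x (i + 1)) rfl (by rw [jt_c_self]; exact hx)
    rwa [jt_c_self] at h1

theorem jt {K : Type*} [CommRing K] [IsDomain K] (l p : ℕ) (x : ℕ → List K)
    (hx : ∀ i, (vars x i).Nodup) :
    cf (rv p l) (Ax K l p x) =
      (Matrix.of fun i j : Fin l => cz (gs (vars x i)) ((l : ℤ) - 2 * (i : ℕ) + (j : ℕ))).det :=
  jt_aux l p x hx

end Pool.Agent.helper54.Expl
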