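import Mathlib

/-!
# Numbers: particle sums and flagged determinants

PROJECT EXPL (MP_cb98a7_co, architect helper54).  A block of `b = L + 2 s` letters after `m`
letters; `l = L + 2 s - 1 = b - 1`.
-/

set_option autoImplicit false
open Finset

namespace Pool.Agent.helper54.Expl

noncomputable section

section
variable {K : Type*} [Field K]

/-- `e(z) = z (z + 1)` -/
def e1 (z : K) : K := z * (z + 1)

/-- the Vandermonde product `∏_{i < j} (x j - x i)` -/
def vd {s : ℕ} (x : Fin s → K) : K := ∏ i, ∏ j ∈ Ioi i, (x j - x i)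

/-- the weight `∏_{t < L} (m + s + t - z) (m + s + t + 1 + z)` -/
def Om (m L s : ℕ) (z : K) : K :=
  ∏ t ∈ range L, (((m + s + t : ℕ) : K) - z) * (((m + s + t + 1 : ℕ) : K) + z)

end

/-- the sum over `s` particles `f i < m + s - Y` -/
def SS (K : Type*) [Field K] (m L s Y : ℕ) : K :=
  ∑ f ∈ Fintype.piFinset (fun _ : Fin s => range (m + s - Y)),
    vd (fun i => e1 (f i : K)) * vd (fun i => e1 ((f i : K) + Y)) *
      ∏ i, Om m L s ((f i : K) + Y)

/-- the weight of a configuration (`Y = 0`) -/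
def wt {s : ℕ} (n L : ℕ) (f : Fin s → ℕ) : ℝ :=
  vd (fun i => e1 (f i : ℝ)) ^ 2 * ∏ i, Om n L s (f i : ℝ)

/-- the configurations -/
def cfg (s N : ℕ) : Finset (Fin s → ℕ) := Fintype.piFinset (fun _ : Fin s => range N)

/-- `h_r(φ)`: the coefficient of `T ^ r` in `(1 - T) ^ (-φ)` (`0` for `r < 0`) -/
def hz (r φ : ℤ) : ℚ :=
  if r < 0 then 0 else (∏ t ∈ range r.toNat, ((φ : ℚ) + t)) / (r.toNat.factorial : ℚ)

/-- backward difference -/
def nab (f : ℤ → ℚ) (y : ℤ) : ℚ := f y - f (y - 1)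

/-- the flagged determinant: flags `m - Y + i + 1` in the first `s` rows and `m + i + 1` in the
other ones -/
def Dt (m L s Y : ℕ) : ℚ :=
  (Matrix.of fun i j : Fin (L + 2 * s - 1) =>
    hz (((L + 2 * s - 1 : ℕ) : ℤ) - 2 * (i : ℕ) + (j : ℕ))
      (if (i : ℕ) < s then (m : ℤ) - Y + (i : ℕ) + 1 else (m : ℤ) + (i : ℕ) + 1)).det

end

end Pool.Agent.helper54.Expl
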