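import Pool.Agent.helper54.Expl.Jt
import Pool.Agent.helper54.Expl.NDefs
import Pool.Agent.helper54.Schub.Exist

/-!
# The flagged Jacobi-Trudi formula with all variables equal to one

Apply `jt` with polynomials in one variable `X` over `ℚ` and pairwise distinct variables
`1 + c X`, `c = 0, 1, 2, …` (`e i` of them at level `i`), then set `X = 0` on both sides.
-/

set_option autoImplicit false
open Equiv Finset Pool.Agent.helper54.Schub

namespace Pool.Agent.helper54.Expl

private lemma jo_prod_map {K K' : Type*} [CommRing K] [CommRing K'] (g : K →+* K') (l p : ℕ) :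
    ∀ (L : List K) (f : Perm ℕ → K) (w : Perm ℕ),
      g ((L.map fun y => dn (lam K) y l p).prod f w) =
        ((L.map g).map fun y => dn (lam K') y l p).prod (fun w => g (f w)) w
  | [], _, _ => rfl
  | y :: L, f, w => by
    rw [List.map_cons, List.prod_cons, List.map_cons, List.map_cons, List.prod_cons,
      Module.End.mul_apply, Module.End.mul_apply, dn_map]
    exact congrArg (fun F => dn (lam K') (g y) l p F w) (funext fun v => jo_prod_map g l p L f v)

private lemma jo_Ax_map {K : Type*} [CommRing K] (g : K →+* ℚ) : ∀ (l p : ℕ) (x : ℕ → List K)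
    (e : ℕ → ℕ), (∀ i, (x i).map g = List.replicate (e i) 1) → ∀ (f : Perm ℕ → K) (w : Perm ℕ),
      g (Ax K l p x f w) = Ae l p e (fun w => g (f w)) w
  | 0, _, _, _, _, _, _ => rfl
  | l + 1, p, x, e, h, f, w => by
    rw [Ax, Ae, Module.End.mul_apply, Module.End.mul_apply, jo_prod_map, h 0, List.map_replicate,
      List.prod_replicate]
    exact congrArg (fun F => (dn (lam ℚ) (1 : ℚ) (l + 1) p ^ e 0) F w)
      (funext fun v => jo_Ax_map g l (p + 1) (fun i => x (i + 1)) (fun i => e (i + 1))
        (fun i => h (i + 1)) f v)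

private lemma jo_cf_map {K : Type*} [CommRing K] (g : K →+* ℚ) (l p : ℕ) (x : ℕ → List K)
    (e : ℕ → ℕ) (h : ∀ i, (x i).map g = List.replicate (e i) 1) (w : Perm ℕ) :
    g (cf w (Ax K l p x)) = cf w (Ae l p e) := by
  unfold cf
  rw [jo_Ax_map g l p x e h]
  refine congrArg (fun F => Ae l p e F w) (funext fun v => ?_)
  rw [del_apply, del_apply]
  split_ifs
  · exact map_one g
  · exact map_zero g

private lemma jo_gs_map {K K' : Type*} [CommRing K] [CommRing K'] (g : K →+* K') :
    ∀ (L : List K), PowerSeries.map g (gs L) = gs (L.map g)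
  | [] => by simp [gs]
  | y :: L => by
    have ih := jo_gs_map g L
    have e2 : PowerSeries.map g (PowerSeries.mk fun n => y ^ n) =
        PowerSeries.mk fun n => (g y) ^ n := by
      ext n
      rw [PowerSeries.coeff_map, PowerSeries.coeff_mk, PowerSeries.coeff_mk, map_pow]
    rw [List.map_cons]
    unfold gs at ih ⊢
    rw [List.map_cons, List.prod_cons, List.map_cons, List.prod_cons, map_mul, ih, e2]

private lemma jo_cz_map {K K' : Type*} [CommRing K] [CommRing K'] (g : K →+* K')
    (f : PowerSeries K) (r : ℤ) : g (cz f r) = cz (PowerSeries.map g f) r := by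
  unfold cz
  split_ifs
  · exact map_zero g
  · rw [PowerSeries.coeff_map]

private lemma jo_cz_one (φ : ℕ) (r : ℤ) :
    cz (gs (List.replicate φ (1 : ℚ))) r = hz r (φ : ℤ) := by
  unfold cz hz
  by_cases hr : r < 0
  · rw [if_pos hr, if_pos hr]
  · rw [if_neg hr, if_neg hr]
    generalize r.toNat = n
    have e0 : gs (List.replicate φ (1 : ℚ)) = (PowerSeries.mk 1) ^ φ := by
      rw [gs, List.map_replicate, List.prod_replicate]
      congr 1
      ext k
      simp
    rw [e0]
    have hn : (n.factorial : ℚ) ≠ 0 := by exact_mod_cast n.factorial_ne_zero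
    rw [eq_div_iff hn]
    cases φ with
    | zero =>
      rw [pow_zero, PowerSeries.coeff_one]
      cases n with
      | zero => simp
      | succ n =>
        rw [if_neg (Nat.succ_ne_zero n), zero_mul, Finset.prod_range_succ']
        simp
    | succ d =>
      rw [PowerSeries.mk_one_pow_eq_mk_choose_add, PowerSeries.coeff_mk]
      have h1 := Nat.ascFactorial_eq_factorial_mul_choose d n
      rw [Nat.ascFactorial_eq_prod_range] at h1
      have h2 : ((∏ t ∈ range n, (d + 1 + t) : ℕ) : ℚ) =
          ((n.factorial * (d + n).choose n : ℕ) : ℚ) := by rw [h1]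
      have h3 : (d + n).choose d = (d + n).choose n := by
        have := Nat.choose_symm_add (a := d) (b := n)
        exact this
      rw [h3]
      push_cast at h2 ⊢
      rw [h2]
      ring

theorem jt_one (l p : ℕ) (e : ℕ → ℕ) :
    cf (rv p l) (Ae l p e) =
      (Matrix.of fun i j : Fin l => hz ((l : ℤ) - 2 * (i : ℕ) + (j : ℕ))
        ((∑ c ∈ range ((i : ℕ) + 1), e c : ℕ) : ℤ)).det := by
  set v : ℕ → Polynomial ℚ := fun c => 1 + Polynomial.C (c : ℚ) * Polynomial.X with hv
  have hvinj : Function.Injective v := by
    intro a b hab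
    have h1 := congrArg (fun q => Polynomial.coeff q 1) hab
    simp only [hv, Polynomial.coeff_add, Polynomial.coeff_C_mul, Polynomial.coeff_X_one, mul_one,
      Polynomial.coeff_one] at h1
    simpa using h1
  set x : ℕ → List (Polynomial ℚ) := fun i =>
    (List.range (e i)).map fun t => v (∑ c ∈ range i, e c + t) with hx
  have hvars : ∀ i, vars x i = (List.range (∑ c ∈ range (i + 1), e c)).map v := by
    intro i
    induction i with
    | zero => simp [vars, hx]
    | succ i ih =>
      rw [vars, ih, Finset.sum_range_succ _ (i + 1), List.range_add, List.map_append,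
        List.map_map]
      rfl
  have hnd : ∀ i, (vars x i).Nodup := by
    intro i
    rw [hvars]
    exact List.nodup_range.map hvinj
  set g : Polynomial ℚ →+* ℚ := Polynomial.evalRingHom 0 with hg
  have hgv : ∀ c, g (v c) = 1 := by
    intro c
    simp [hg, hv]
  have hgl : ∀ (n : ℕ) (k : ℕ → ℕ), ((List.range n).map fun t => v (k t)).map g =
      List.replicate n 1 := by
    intro n k
    rw [List.map_map]
    have : (g ∘ fun t => v (k t)) = fun _ => (1 : ℚ) := by
      funext t
      exact hgv _
    rw [this]
    simp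
  have h1 := congrArg g (jt (K := Polynomial ℚ) l p x hnd)
  rw [jo_cf_map g l p x e (fun i => hgl (e i) _), RingHom.map_det] at h1
  rw [h1]
  congr 1
  ext i j
  rw [RingHom.mapMatrix_apply, Matrix.map_apply, Matrix.of_apply, Matrix.of_apply, jo_cz_map,
    jo_gs_map, hvars]
  have h2 := hgl (∑ c ∈ range ((i : ℕ) + 1), e c) (fun t => t)
  have h3 : ((List.range (∑ c ∈ range ((i : ℕ) + 1), e c)).map v).map g =
      List.replicate (∑ c ∈ range ((i : ℕ) + 1), e c) 1 := h2
  rw [h3, jo_cz_one]

end Pool.Agent.helper54.Expl
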