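import Pool.Agent.helper54.Expl.Fin2

/-!
# A maximizer has no two adjacent layers after the first twelve letters
-/

set_option autoImplicit false
open Finset Equiv Pool.Agent.helper54.Schub

namespace Pool.Agent.helper54.Expl

/-- `[m, m + a)` and `[m + a, m + a + b)` are adjacent layers of `v` : `v` maps `[0, m)` to itself,
and it maps the intervals `[m, m + a)` and `[m + a, m + a + b)` onto themselves, reversing them -/
def AdjLayers {n : ℕ} (m a b : ℕ) (v : Perm (Fin n)) : Prop :=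
  (∀ p : Fin n, (p : ℕ) < m → (v p : ℕ) < m) ∧
  (∀ p : Fin n, m ≤ (p : ℕ) → (p : ℕ) < m + a → (v p : ℕ) + p + 1 = m + (m + a)) ∧
    ∀ p : Fin n, m + a ≤ (p : ℕ) → (p : ℕ) < m + a + b →
      (v p : ℕ) + p + 1 = m + a + (m + a + b)

lemma pm_of_maps {k : ℕ} {u : Perm ℕ} (h : ∀ x, x < k → u x < k) : PM k u := by
  intro x
  refine ⟨fun hx => ?_, h x⟩
  have h1 : (range k).image u ⊆ range k := by
    intro y hy
    rw [mem_image] at hy
    obtain ⟨z, hz, rfl⟩ := hy
    rw [mem_range] at hz ⊢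
    exact h z hz
  have h2 : (range k).image u = range k := by
    apply eq_of_subset_of_card_le h1
    rw [card_image_of_injective _ u.injective]
  have h3 : u x ∈ (range k).image u := by rw [h2, mem_range]; exact hx
  rw [mem_image] at h3
  obtain ⟨z, hz, hz2⟩ := h3
  rw [mem_range] at hz
  have := u.injective hz2
  omega

lemma pm_split {k : ℕ} {u : Perm ℕ} (h : PM k u) : ∃ ρ τ : Perm ℕ, FA k ρ ∧ FB k τ ∧ u = ρ * τ ∧
    ∀ x, x < k → ρ x = u x := by
  have hi := h.inv
  let ρ : Perm ℕ :=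
    { toFun := fun x => if x < k then u x else x
      invFun := fun x => if x < k then u⁻¹ x else x
      left_inv := by
        intro x
        by_cases hx : x < k
        · have h1 : u x < k := (h x).2 hx
          simp only [hx, if_true, h1]
          exact u.symm_apply_apply x
        · simp only [hx, if_false]
      right_inv := by
        intro x
        by_cases hx : x < k
        · have h1 : u⁻¹ x < k := (hi x).2 hx
          simp only [hx, if_true, h1]
          exact u.apply_symm_apply x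
        · simp only [hx, if_false] }
  have hρ : ∀ x, ρ x = if x < k then u x else x := fun _ => rfl
  have hfa : FA k ρ := by
    intro x hx
    rw [hρ, if_neg (by omega)]
  refine ⟨ρ, ρ⁻¹ * u, hfa, ?_, by rw [mul_inv_cancel_left], fun x hx => by rw [hρ, if_pos hx]⟩
  intro x hx
  rw [Perm.mul_apply, Perm.inv_eq_iff_eq, hρ, if_pos hx]

lemma val_split {k l : ℕ} {ρ τ : Perm ℕ} (hρ : FA k ρ) (hτ : FB k τ) :
    val (k + l + 1) (ρ * τ) = val k ρ *
      cf τ (dn (lam ℚ) (1 : ℚ) l k ^ k * sch ℚ (lam ℚ) l k) := by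
  have H := Tens.schM (l := l) (tens_del (K := ℚ) k) k 0 (by omega)
  have h1 := H ρ τ hρ hτ
  unfold Pool.Agent.helper54.Schub.val
  rw [Nat.add_sub_cancel]
  exact h1

lemma AdjLayers.eq {n m α β : ℕ} {v : Perm (Fin n)} (hn : m + α + 1 + β + 1 ≤ n)
    (h : AdjLayers m (α + 1) (β + 1) v) :
    ∃ σ τ : Perm ℕ, FA m σ ∧ FB (m + α + 1 + β + 1) τ ∧ FA n τ ∧
      iot v = σ * rv m α * rv (m + α + 1) β * τ := by
  obtain ⟨k, hk⟩ : ∃ k, k = m + α + 1 + β + 1 := ⟨_, rfl⟩
  have e1 : ∀ x, x < m → iot v x < m := by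
    intro x hx
    have h1 := h.1 ⟨x, by omega⟩ hx
    have h2 := iot_apply v ⟨x, by omega⟩
    simp only at h2
    rw [h2]; exact h1
  have e2 : ∀ x, m ≤ x → x < m + (α + 1) → iot v x + x + 1 = m + (m + (α + 1)) := by
    intro x hx hx2
    have h1 := h.2.1 ⟨x, by omega⟩ hx hx2
    have h2 := iot_apply v ⟨x, by omega⟩
    simp only at h1 h2
    rw [h2]; exact h1
  have e3 : ∀ x, m + (α + 1) ≤ x → x < m + (α + 1) + (β + 1) →
      iot v x + x + 1 = m + (α + 1) + (m + (α + 1) + (β + 1)) := by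
    intro x hx hx2
    have h1 := h.2.2 ⟨x, by omega⟩ hx hx2
    have h2 := iot_apply v ⟨x, by omega⟩
    simp only at h1 h2
    rw [h2]; exact h1
  have hpm : PM k (iot v) := by
    apply pm_of_maps
    intro x hx
    by_cases h1 : x < m
    · have := e1 x h1; omega
    · by_cases h2 : x < m + (α + 1)
      · have := e2 x (by omega) h2; omega
      · have := e3 x (by omega) (by omega); omega
  obtain ⟨ρ, τ, hρ, hτ, huv, hρu⟩ := pm_split hpm
  have r1 : rv (m + α + 1) β * rv (m + α + 1) β = 1 :=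
    mul_eq_one_iff_eq_inv.2 (rv_inv _ _).symm
  have r2 : rv m α * rv m α = 1 := mul_eq_one_iff_eq_inv.2 (rv_inv _ _).symm
  refine ⟨ρ * rv (m + α + 1) β * rv m α, τ, ?_, by rw [← hk]; exact hτ, ?_, ?_⟩
  · intro x hx
    rw [Perm.mul_apply, Perm.mul_apply]
    by_cases h1 : k ≤ x
    · rw [rv_apply m α, if_neg (by omega), rv_apply, if_neg (by omega), hρ x h1]
    · by_cases h2 : m + α + 1 ≤ x
      · rw [rv_apply m α, if_neg (by omega), rv_apply, if_pos (by omega), hρu _ (by omega)]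
        have h3 := e3 (2 * (m + α + 1) + β - x) (by omega) (by omega)
        omega
      · rw [rv_apply m α, if_pos (by omega), rv_apply, if_neg (by omega), hρu _ (by omega)]
        have h3 := e2 (2 * m + α - x) (by omega) (by omega)
        omega
  · intro x hx
    have h1 : iot v x = x := iot_apply_of_ge v hx
    rw [huv, Perm.mul_apply] at h1
    have h2 : k ≤ τ x := hτ.le (by omega)
    rw [hρ _ h2] at h1
    exact h1
  · rw [mul_assoc (ρ * rv (m + α + 1) β), r2, mul_one, mul_assoc ρ, r1, mul_one]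
    exact huv

/-- **A maximizer has no adjacent layers after the first twelve letters.** -/
theorem adj_layers (n m a b : ℕ) (hm : 12 ≤ m) (ha : 1 ≤ a) (hb : 1 ≤ b) (hn : m + a + b ≤ n)
    (S : Perm (Fin n) → MvPolynomial (Fin n) ℤ) (hS : IsSchubert n S) (v : Perm (Fin n))
    (hv : AdjLayers m a b v) : ∃ w : Perm (Fin n), nu S v < nu S w := by
  obtain ⟨α, rfl⟩ : ∃ α, a = α + 1 := ⟨a - 1, by omega⟩
  obtain ⟨β, rfl⟩ : ∃ β, b = β + 1 := ⟨b - 1, by omega⟩
  obtain ⟨σ, τ, hσ, hτ, hτn, huv⟩ := hv.eq (by omega)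
  obtain ⟨k, hk⟩ : ∃ k, k = m + α + 1 + β + 1 := ⟨_, rfl⟩
  rw [← hk] at hτ
  obtain ⟨ρ, hρ⟩ : ∃ ρ, ρ = σ * rv m α * rv (m + α + 1) β := ⟨_, rfl⟩
  have hρfa : FA k ρ := by
    rw [hρ]
    exact ((hσ.mono (by omega)).mul (fa_rv (by omega))).mul (fa_rv (by omega))
  have h1 := nu_eq_val hS v
  rw [huv, ← hρ] at h1
  have key : ∃ w : Perm ℕ, FA n w ∧ val n (ρ * τ) < val n w := by
    rcases (val_nonneg n (ρ * τ)).eq_or_lt with h0 | h0
    · obtain ⟨w, hw⟩ := exists_mx n
      exact ⟨w, hw.1.fa, by rw [← h0]; exact hw.1.val_pos⟩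
    · have hq : ∃ ρ' : Perm ℕ, FA k ρ' ∧ (0 < val k ρ → val k ρ < val k ρ') := by
        refine ⟨ρ * sj (m + α), hρfa.mul (fa_sj (by omega)), fun hpos => ?_⟩
        have e1 : val k ρ = val m σ * W m α * W (m + α + 1) β := by
          rw [hk, hρ]; exact val_two hσ
        have h2 := cf_swap_ge m α β σ hσ
        rw [← hρ] at h2
        have h3 : 0 < val m σ := by
          by_contra hcon
          have h4 : val m σ = 0 := le_antisymm (not_lt.1 hcon) (val_nonneg m σ)
          rw [e1, h4, zero_mul, zero_mul] at hpos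
          exact lt_irrefl _ hpos
        rw [e1, hk]
        refine lt_of_lt_of_le ?_ h2
        rw [mul_assoc]
        exact mul_lt_mul_of_pos_left (sum_Q_gt m α β hm) h3
      obtain ⟨ρ', hρ', hlt⟩ := hq
      rcases Nat.lt_or_ge k n with hkn | hkn
      · obtain ⟨l, rfl⟩ : ∃ l, n = k + l + 1 := ⟨n - k - 1, by omega⟩
        refine ⟨ρ' * τ, (hρ'.mono (by omega)).mul hτn, ?_⟩
        rw [val_split hρfa hτ] at h0 ⊢
        rw [val_split hρ' hτ]
        have hV : 0 ≤ cf τ (dn (lam ℚ) (1 : ℚ) l k ^ k * sch ℚ (lam ℚ) l k) :=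
          ((nn_dn l k).pow k).mul (nn_sch l k) _ del_nonneg _
        have hV' : 0 < cf τ (dn (lam ℚ) (1 : ℚ) l k ^ k * sch ℚ (lam ℚ) l k) := by
          rcases hV.eq_or_lt with h5 | h5
          · rw [← h5, mul_zero] at h0; exact absurd h0 (lt_irrefl _)
          · exact h5
        have hR : 0 < val k ρ := (mul_pos_iff_of_pos_right hV').1 h0
        exact mul_lt_mul_of_pos_right (hlt hR) hV'
      · have hkn' : n = k := by omega
        subst hkn'
        have hτ1 : τ = 1 := by
          ext x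
          by_cases hx : x < n
          · rw [hτ x hx]; rfl
          · rw [hτn x (by omega)]; rfl
        rw [hτ1, mul_one] at h0 ⊢
        exact ⟨ρ', hρ', hlt h0⟩
  obtain ⟨w, hw1, hw2⟩ := key
  refine ⟨rst w hw1, ?_⟩
  have h2 := nu_eq_val hS (rst w hw1)
  rw [iot_rst] at h2
  rw [← h1, ← h2] at hw2
  exact_mod_cast hw2

end Pool.Agent.helper54.Expl
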