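import Pool.Agent.helper54.Expl.Shift

/-!
# Jensen's inequality for the shift

`jensen_exp` is Jensen's inequality for `exp` (`convexOn_exp.map_sum_le` or from
`exp x ≥ exp c * (1 + x - c)`).

`log_shift`: by `SS_shift_ge` and `jensen_exp` (with `X f = ∑ i, ∑ r, log (…)`)
`SS ℝ (n + Y) L s Y ≥ Z * exp (E X)`, `Z = SS ℝ n L s 0 = ∑ wt`, and for `x ≥ 0`, `A = n + s + r + 1`:
`log ((A + L + x) / (A + x)) ≥ log ((A + L) / A) - x / A` (`log (A + L + x) ≥ log (A + L)` and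
`log (A + x) - log A ≤ x / A`), and `x / A ≤ x / (n + s)`.
-/

set_option autoImplicit false
open Finset

namespace Pool.Agent.helper54.Expl

theorem jensen_exp {ι : Type*} (S : Finset ι) (w X : ι → ℝ) (hw : ∀ i ∈ S, 0 ≤ w i)
    (hpos : 0 < ∑ i ∈ S, w i) :
    (∑ i ∈ S, w i) * Real.exp ((∑ i ∈ S, w i * X i) / ∑ i ∈ S, w i) ≤
      ∑ i ∈ S, w i * Real.exp (X i) := by
  set W := ∑ i ∈ S, w i with hW
  set c := (∑ i ∈ S, w i * X i) / W with hc
  have hcW : c * W = ∑ i ∈ S, w i * X i := by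
    rw [hc, div_mul_cancel₀ _ hpos.ne']
  have h1 : ∀ i ∈ S, Real.exp c * (w i + w i * X i - c * w i) ≤ w i * Real.exp (X i) := by
    intro i hi
    have h2 : X i - c + 1 ≤ Real.exp (X i - c) := Real.add_one_le_exp _
    have h3 : Real.exp (X i) = Real.exp c * Real.exp (X i - c) := by
      rw [← Real.exp_add]; congr 1; ring
    rw [h3]
    have h4 : 0 ≤ w i * Real.exp c := mul_nonneg (hw i hi) (Real.exp_pos c).le
    nlinarith [mul_le_mul_of_nonneg_left h2 h4]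
  calc W * Real.exp c = Real.exp c * (W + c * W - c * W) := by ring
    _ = Real.exp c * (∑ i ∈ S, (w i + w i * X i - c * w i)) := by
        rw [Finset.sum_sub_distrib, Finset.sum_add_distrib, ← Finset.mul_sum, ← hW, ← hcW]
    _ = ∑ i ∈ S, Real.exp c * (w i + w i * X i - c * w i) := by rw [Finset.mul_sum]
    _ ≤ ∑ i ∈ S, w i * Real.exp (X i) := Finset.sum_le_sum h1

/-- one factor -/
private theorem lsh_one (N L r x : ℕ) (hN : 1 ≤ N) :
    Real.log (((N + L + r + 1 : ℕ) : ℝ) / ((N + r + 1 : ℕ) : ℝ)) - (x : ℝ) / (N : ℝ) ≤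
      Real.log ((((N + L + r + 1 : ℕ) : ℝ) + x) / (((N + r + 1 : ℕ) : ℝ) + x)) := by
  have hN' : (0 : ℝ) < N := by exact_mod_cast hN
  have hx : (0 : ℝ) ≤ x := Nat.cast_nonneg x
  have hA : (0 : ℝ) < ((N + r + 1 : ℕ) : ℝ) := by positivity
  have hB : (0 : ℝ) < ((N + L + r + 1 : ℕ) : ℝ) := by positivity
  have hAx : (0 : ℝ) < ((N + r + 1 : ℕ) : ℝ) + x := by positivity
  have hBx : (0 : ℝ) < ((N + L + r + 1 : ℕ) : ℝ) + x := by positivity
  rw [Real.log_div hB.ne' hA.ne', Real.log_div hBx.ne' hAx.ne']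
  have h1 : Real.log ((N + L + r + 1 : ℕ) : ℝ) ≤ Real.log (((N + L + r + 1 : ℕ) : ℝ) + x) :=
    Real.log_le_log hB (by linarith)
  have h2 : Real.log (((N + r + 1 : ℕ) : ℝ) + x) - Real.log ((N + r + 1 : ℕ) : ℝ) ≤
      (x : ℝ) / (N : ℝ) := by
    rw [← Real.log_div hAx.ne' hA.ne']
    have h3 := Real.log_le_sub_one_of_pos (div_pos hAx hA)
    have h4 : (((N + r + 1 : ℕ) : ℝ) + x) / ((N + r + 1 : ℕ) : ℝ) - 1 =
        (x : ℝ) / ((N + r + 1 : ℕ) : ℝ) := by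
      field_simp; ring
    have h5 : (x : ℝ) / ((N + r + 1 : ℕ) : ℝ) ≤ (x : ℝ) / (N : ℝ) := by
      apply div_le_div_of_nonneg_left hx hN'
      push_cast
      have : (0 : ℝ) ≤ r := Nat.cast_nonneg r
      linarith
    linarith
  linarith

/-- all factors -/
private theorem lsh_all (N L s Y : ℕ) (hN : 1 ≤ N) (f : Fin s → ℕ) :
    (s : ℝ) * ∑ r ∈ range (2 * Y), Real.log (((N + L + r + 1 : ℕ) : ℝ) / ((N + r + 1 : ℕ) : ℝ)) -
        2 * Y / (N : ℝ) * ∑ i, (f i : ℝ) ≤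
      ∑ i, ∑ r ∈ range (2 * Y),
        Real.log ((((N + L + r + 1 : ℕ) : ℝ) + f i) / (((N + r + 1 : ℕ) : ℝ) + f i)) := by
  have h1 : ∀ i : Fin s, (∑ r ∈ range (2 * Y),
      Real.log (((N + L + r + 1 : ℕ) : ℝ) / ((N + r + 1 : ℕ) : ℝ))) -
        2 * Y / (N : ℝ) * (f i : ℝ) ≤ ∑ r ∈ range (2 * Y),
        Real.log ((((N + L + r + 1 : ℕ) : ℝ) + f i) / (((N + r + 1 : ℕ) : ℝ) + f i)) := by
    intro i
    have h2 := Finset.sum_le_sum (s := range (2 * Y)) (fun r _ => lsh_one N L r (f i) hN)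
    rw [Finset.sum_sub_distrib, Finset.sum_const, Finset.card_range, nsmul_eq_mul] at h2
    have h3 : ((2 * Y : ℕ) : ℝ) * ((f i : ℝ) / (N : ℝ)) = 2 * Y / (N : ℝ) * (f i : ℝ) := by
      push_cast; ring
    rw [h3] at h2
    exact h2
  have h4 := Finset.sum_le_sum (s := (Finset.univ : Finset (Fin s))) (fun i _ => h1 i)
  rw [Finset.sum_sub_distrib, Finset.sum_const, Finset.card_univ, Fintype.card_fin, nsmul_eq_mul,
    ← Finset.mul_sum] at h4
  exact h4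

theorem log_shift (n L s Y : ℕ) (hn : 1 ≤ n + s) :
    Real.log (SS ℝ n L s 0) +
        s * ∑ r ∈ range (2 * Y), Real.log (((n + s + L + r + 1 : ℕ) : ℝ) / ((n + s + r + 1 : ℕ) : ℝ)) -
        2 * Y / ((n + s : ℕ) : ℝ) *
          ((∑ f ∈ cfg s (n + s), wt n L f * ∑ i, (f i : ℝ)) / SS ℝ n L s 0) ≤
      Real.log (SS ℝ (n + Y) L s Y) := by
  set Z := SS ℝ n L s 0 with hZ
  have hZpos : 0 < Z := SS_pos n L s
  have hZs : Z = ∑ f ∈ cfg s (n + s), wt n L f := SS_zero n L s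
  set T := ∑ r ∈ range (2 * Y),
    Real.log (((n + s + L + r + 1 : ℕ) : ℝ) / ((n + s + r + 1 : ℕ) : ℝ)) with hT
  let X : (Fin s → ℕ) → ℝ := fun f => ∑ i, ∑ r ∈ range (2 * Y),
    Real.log ((((n + s + L + r + 1 : ℕ) : ℝ) + f i) / (((n + s + r + 1 : ℕ) : ℝ) + f i))
  have hexp : ∀ f : Fin s → ℕ, Real.exp (X f) = ∏ i, ∏ r ∈ range (2 * Y),
      ((((n + s + L + r + 1 : ℕ) : ℝ) + f i) / (((n + s + r + 1 : ℕ) : ℝ) + f i)) := by
    intro f
    show Real.exp (∑ i, ∑ r ∈ range (2 * Y), Real.log _) = _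
    rw [Real.exp_sum]
    refine Finset.prod_congr rfl fun i _ => ?_
    rw [Real.exp_sum]
    refine Finset.prod_congr rfl fun r _ => ?_
    rw [Real.exp_log]
    positivity
  have hJ := jensen_exp (cfg s (n + s)) (fun f => wt n L f) X (fun f hf => wt_nonneg hf)
    (by rw [← hZs]; exact hZpos)
  have hS : ∑ f ∈ cfg s (n + s), wt n L f * Real.exp (X f) ≤ SS ℝ (n + Y) L s Y := by
    refine le_trans (le_of_eq ?_) (SS_shift_ge n L s Y)
    exact Finset.sum_congr rfl fun f _ => by rw [hexp f]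
  rw [← hZs] at hJ
  have hle : Z * Real.exp ((∑ f ∈ cfg s (n + s), wt n L f * X f) / Z) ≤ SS ℝ (n + Y) L s Y :=
    hJ.trans hS
  have hlog : Real.log Z + (∑ f ∈ cfg s (n + s), wt n L f * X f) / Z ≤
      Real.log (SS ℝ (n + Y) L s Y) := by
    have h1 := Real.log_le_log (mul_pos hZpos (Real.exp_pos _)) hle
    rw [Real.log_mul hZpos.ne' (Real.exp_pos _).ne', Real.log_exp] at h1
    exact h1
  have hE : (s : ℝ) * T - 2 * Y / ((n + s : ℕ) : ℝ) *
      ((∑ f ∈ cfg s (n + s), wt n L f * ∑ i, (f i : ℝ)) / Z) ≤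
      (∑ f ∈ cfg s (n + s), wt n L f * X f) / Z := by
    have h2 : ∑ f ∈ cfg s (n + s), wt n L f * ((s : ℝ) * T -
        2 * Y / ((n + s : ℕ) : ℝ) * ∑ i, (f i : ℝ)) ≤
        ∑ f ∈ cfg s (n + s), wt n L f * X f :=
      Finset.sum_le_sum fun f hf =>
        mul_le_mul_of_nonneg_left (lsh_all (n + s) L s Y hn f) (wt_nonneg hf)
    have h3 : ∑ f ∈ cfg s (n + s), wt n L f * ((s : ℝ) * T -
        2 * Y / ((n + s : ℕ) : ℝ) * ∑ i, (f i : ℝ)) =
        Z * ((s : ℝ) * T) - 2 * Y / ((n + s : ℕ) : ℝ) *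
          ∑ f ∈ cfg s (n + s), wt n L f * ∑ i, (f i : ℝ) := by
      have h5 : ∀ a b : ℝ, ∑ f ∈ cfg s (n + s), wt n L f * (a - b * ∑ i, (f i : ℝ)) =
          (∑ f ∈ cfg s (n + s), wt n L f) * a - b *
            ∑ f ∈ cfg s (n + s), wt n L f * ∑ i, (f i : ℝ) := by
        intro a b
        rw [Finset.sum_mul, Finset.mul_sum, ← Finset.sum_sub_distrib]
        exact Finset.sum_congr rfl fun f _ => by ring
      rw [hZs]
      exact h5 _ _
    rw [h3] at h2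
    rw [le_div_iff₀ hZpos]
    calc ((s : ℝ) * T - 2 * Y / ((n + s : ℕ) : ℝ) *
          ((∑ f ∈ cfg s (n + s), wt n L f * ∑ i, (f i : ℝ)) / Z)) * Z
        = Z * ((s : ℝ) * T) - 2 * Y / ((n + s : ℕ) : ℝ) *
          ((∑ f ∈ cfg s (n + s), wt n L f * ∑ i, (f i : ℝ)) / Z * Z) := by ring
      _ = Z * ((s : ℝ) * T) - 2 * Y / ((n + s : ℕ) : ℝ) *
          ∑ f ∈ cfg s (n + s), wt n L f * ∑ i, (f i : ℝ) := by
          rw [div_mul_cancel₀ _ hZpos.ne']
      _ ≤ _ := h2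
  linarith

end Pool.Agent.helper54.Expl
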