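import Pool.Agent.helper54.Expl.NDefs

/-!
# An upper bound for the ratio

Proof.  Let `a = n + s`.  Each numerator is `≤ 2 (a + L) + 2 s = 2 (a + L) (1 + s / (a + L))`, so its
logarithm is `≤ log (2 (a + L)) + s / (a + L)`; each denominator is `≥ 2 n + 2 = 2 (a + 1) (1 - s /
(a + 1))` with `s / (a + 1) ≤ 1 / 2`, so its logarithm is `≥ log (2 (a + 1)) - 2 s / (a + 1)`
(`log (1 - x) ≥ - 2 x` for `0 ≤ x ≤ 1 / 2`).  The sum over the `2 s` factors is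
`≤ 2 s log ((a + L) / (a + 1)) + 2 s ^ 2 / (a + L) + 4 s ^ 2 / (a + 1)`.
-/

set_option autoImplicit false
open Finset

namespace Pool.Agent.helper54.Expl

/-- One factor of the product in `log_rho`. -/
private theorem log_rho_factor (n L s q : ℕ) (hs : 1 ≤ s) (hsn : s ≤ n) (hq : q < 2 * s) :
    Real.log (((2 * n + 2 * L + 2 * s + 1 + q : ℕ) : ℝ) / ((2 * n + 2 + q : ℕ) : ℝ)) ≤
      Real.log (((n + s + L : ℕ) : ℝ) / ((n + s + 1 : ℕ) : ℝ)) +
        3 * (s : ℝ) / ((n + s : ℕ) : ℝ) := by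
  have hsR : (1 : ℝ) ≤ (s : ℝ) := by exact_mod_cast hs
  have hsnR : (s : ℝ) ≤ (n : ℝ) := by exact_mod_cast hsn
  have hqR : (q : ℝ) + 1 ≤ 2 * (s : ℝ) := by exact_mod_cast hq
  have hq0 : (0 : ℝ) ≤ (q : ℝ) := Nat.cast_nonneg q
  have hL0 : (0 : ℝ) ≤ (L : ℝ) := Nat.cast_nonneg L
  have ha : (0 : ℝ) < (n : ℝ) + s := by linarith
  have haL : (0 : ℝ) < (n : ℝ) + s + L := by linarith
  have ha1 : (0 : ℝ) < (n : ℝ) + s + 1 := by linarith
  have hn1 : (0 : ℝ) < (n : ℝ) + 1 := by linarith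
  push_cast
  have hnum : (0 : ℝ) < 2 * (n : ℝ) + 2 * L + 2 * s + 1 + q := by linarith
  have hden : (0 : ℝ) < 2 * (n : ℝ) + 2 + q := by linarith
  -- the factor is at most `(a + L + s) / (n + 1)`
  have hle : (2 * (n : ℝ) + 2 * L + 2 * s + 1 + q) / (2 * (n : ℝ) + 2 + q) ≤
      (((n : ℝ) + s + L) / ((n : ℝ) + s + 1)) *
        ((((n : ℝ) + s + L + s) / ((n : ℝ) + s + L)) * (((n : ℝ) + s + 1) / ((n : ℝ) + 1))) := by
    have e : (((n : ℝ) + s + L) / ((n : ℝ) + s + 1)) *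
        ((((n : ℝ) + s + L + s) / ((n : ℝ) + s + L)) * (((n : ℝ) + s + 1) / ((n : ℝ) + 1))) =
        (2 * ((n : ℝ) + s + L + s)) / (2 * ((n : ℝ) + 1)) := by
      field_simp
    rw [e]
    apply div_le_div₀ (by linarith) (by linarith) (by linarith) (by linarith)
  have hpos1 : (0 : ℝ) < ((n : ℝ) + s + L) / ((n : ℝ) + s + 1) := div_pos haL ha1
  have hpos2 : (0 : ℝ) < ((n : ℝ) + s + L + s) / ((n : ℝ) + s + L) := div_pos (by linarith) haL
  have hpos3 : (0 : ℝ) < ((n : ℝ) + s + 1) / ((n : ℝ) + 1) := div_pos ha1 hn1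
  refine (Real.log_le_log (div_pos hnum hden) hle).trans ?_
  rw [Real.log_mul hpos1.ne' (mul_pos hpos2 hpos3).ne', Real.log_mul hpos2.ne' hpos3.ne']
  have h2 : Real.log (((n : ℝ) + s + L + s) / ((n : ℝ) + s + L)) ≤ (s : ℝ) / ((n : ℝ) + s) := by
    refine (Real.log_le_sub_one_of_pos hpos2).trans ?_
    have e : ((n : ℝ) + s + L + s) / ((n : ℝ) + s + L) - 1 = (s : ℝ) / ((n : ℝ) + s + L) := by
      field_simp
      ring
    rw [e]
    apply div_le_div_of_nonneg_left (by linarith) ha (by linarith)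
  have h3 : Real.log (((n : ℝ) + s + 1) / ((n : ℝ) + 1)) ≤ 2 * (s : ℝ) / ((n : ℝ) + s) := by
    refine (Real.log_le_sub_one_of_pos hpos3).trans ?_
    have e : ((n : ℝ) + s + 1) / ((n : ℝ) + 1) - 1 = (s : ℝ) / ((n : ℝ) + 1) := by
      field_simp
      ring
    rw [e, div_le_div_iff₀ hn1 ha]
    nlinarith
  have e3 : 3 * (s : ℝ) / ((n : ℝ) + s) = (s : ℝ) / ((n : ℝ) + s) + 2 * (s : ℝ) / ((n : ℝ) + s) := by
    ring
  rw [e3]
  linarith

theorem log_rho (n L s : ℕ) (hs : 1 ≤ s) (hsn : s ≤ n) :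
    Real.log (∏ q ∈ range (2 * s),
        (((2 * n + 2 * L + 2 * s + 1 + q : ℕ) : ℝ) / ((2 * n + 2 + q : ℕ) : ℝ))) ≤
      2 * s * Real.log (((n + s + L : ℕ) : ℝ) / ((n + s + 1 : ℕ) : ℝ)) +
        6 * (s : ℝ) ^ 2 / ((n + s : ℕ) : ℝ) := by
  rw [Real.log_prod]
  · refine (sum_le_sum (fun q hq => log_rho_factor n L s q hs hsn (mem_range.mp hq))).trans ?_
    rw [sum_const, card_range, nsmul_eq_mul]
    apply le_of_eq
    push_cast
    ring
  · intro q hq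
    have h1 : (0 : ℝ) < ((2 * n + 2 * L + 2 * s + 1 + q : ℕ) : ℝ) := by
      exact_mod_cast (by omega : 0 < 2 * n + 2 * L + 2 * s + 1 + q)
    have h2 : (0 : ℝ) < ((2 * n + 2 + q : ℕ) : ℝ) := by
      exact_mod_cast (by omega : 0 < 2 * n + 2 + q)
    exact (div_pos h1 h2).ne'

end Pool.Agent.helper54.Expl
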