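import Pool.Agent.helper54.Expl.Lsh
import Pool.Agent.helper54.Expl.Rho

/-!
# The mean of `e1` over the configurations

Proof.  `a = n + s`.  For `z < a`: `Om (n + 1) L s z = Om n L s z * (e1 (a + L) - e1 z) / (e1 a - e1
z)` (telescoping: `(a + L - z) (a + L + 1 + z) / ((a - z) (a + 1 + z))` and `(a - z) (a + 1 + z) =
e1 a - e1 z`).  All the terms of `SS ℝ (n + 1) L s 0` are nonnegative (`wt_nonneg`), so
`SS ℝ (n + 1) L s 0 ≥ ∑_{f ∈ cfg s (n + s)} wt n L f * exp (X f)`,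
`X f = ∑ i, log ((e1 (a + L) - e1 (f i)) / (e1 a - e1 (f i)))`.  By `jensen_exp`, `hR` and `log_rho`:
`E X ≤ log (SS (n + 1) / SS n) = log (∏ …) ≤ 2 s log ((a + L) / (a + 1)) + 6 s ^ 2 / a`.
On the other hand, for `0 ≤ x < B ≤ A` one has `log ((A - x) / (B - x)) ≥ log (A / B) + x (1 / B -
1 / A)`, so `E X ≥ s log (e1 (a + L) / e1 a) + (1 / e1 a - 1 / e1 (a + L)) E ∑ e1 (f i)`, and
`s log (e1 (a + L) / e1 a) = s log ((a + L) (a + L + 1) / (a (a + 1))) ≥ 2 s log ((a + L) / (a + 1))`.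
Hence `(1 / e1 a - 1 / e1 (a + L)) E ∑ e1 (f i) ≤ 6 s ^ 2 / a`, and
`1 / e1 a - 1 / e1 (a + L) ≥ (1 / e1 a) * L / (a + L)`; `e1 a = a (a + 1)`.
-/

set_option autoImplicit false
open Finset

namespace Pool.Agent.helper54.Expl

private lemma mean_Om (n L s : ℕ) (z : ℝ) :
    Om (n + 1) L s z * (e1 ((n + s : ℕ) : ℝ) - e1 z) =
      Om n L s z * (e1 ((n + s + L : ℕ) : ℝ) - e1 z) := by
  have h : ∀ t : ℕ, (((n + s + t : ℕ) : ℝ) - z) * (((n + s + t + 1 : ℕ) : ℝ) + z) =
      e1 ((n + s + t : ℕ) : ℝ) - e1 z := by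
    intro t
    unfold e1
    push_cast
    ring
  have h1 : Om n L s z = ∏ t ∈ range L, (e1 ((n + s + t : ℕ) : ℝ) - e1 z) :=
    prod_congr rfl fun t _ => h t
  have h2 : Om (n + 1) L s z = ∏ t ∈ range L, (e1 ((n + s + (t + 1) : ℕ) : ℝ) - e1 z) := by
    refine prod_congr rfl fun t _ => ?_
    rw [← h (t + 1)]
    push_cast
    ring
  rw [h1, h2, ← prod_range_succ (fun t => e1 ((n + s + t : ℕ) : ℝ) - e1 z) L,
    prod_range_succ' (fun t => e1 ((n + s + t : ℕ) : ℝ) - e1 z) L]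
  rfl

private lemma mean_log {A B x : ℝ} (h0 : 0 ≤ x) (h1 : x < B) (h2 : B ≤ A) :
    Real.log (A / B) + x * (1 / B - 1 / A) ≤ Real.log ((A - x) / (B - x)) := by
  have hB : 0 < B := h0.trans_lt h1
  have hA : 0 < A := hB.trans_le h2
  have hBx : 0 < B - x := by linarith
  have hAx : 0 < A - x := by linarith
  have h3 : Real.log ((B - x) * A / ((A - x) * B)) ≤ (B - x) * A / ((A - x) * B) - 1 :=
    Real.log_le_sub_one_of_pos (by positivity)
  have h4 : Real.log ((B - x) * A / ((A - x) * B)) =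
      Real.log (A / B) - Real.log ((A - x) / (B - x)) := by
    rw [Real.log_div (by positivity) (by positivity), Real.log_mul hBx.ne' hA.ne',
      Real.log_mul hAx.ne' hB.ne', Real.log_div hA.ne' hB.ne', Real.log_div hAx.ne' hBx.ne']
    ring
  have h5 : x * (1 / B - 1 / A) ≤ 1 - (B - x) * A / ((A - x) * B) := by
    have e1 : x * (1 / B - 1 / A) = x * (A - B) / (A * B) := by
      field_simp
    have e2 : 1 - (B - x) * A / ((A - x) * B) = x * (A - B) / ((A - x) * B) := by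
      field_simp
      ring
    rw [e1, e2]
    refine div_le_div_of_nonneg_left (mul_nonneg h0 (by linarith)) (by positivity) ?_
    exact mul_le_mul_of_nonneg_right (by linarith) hB.le
  linarith

private lemma mean_e1_lt {a b : ℝ} (ha : 0 ≤ a) (h : a < b) : e1 a < e1 b := by
  unfold e1
  nlinarith

theorem mean_e1 (n L s : ℕ) (hs : 1 ≤ s) (hsn : s ≤ n) (hL : 1 ≤ L)
    (hR : SS ℝ (n + 1) L s 0 * ∏ q ∈ range (2 * s), ((2 * n + 2 + q : ℕ) : ℝ) =
      SS ℝ n L s 0 * ∏ q ∈ range (2 * s), ((2 * n + 2 * L + 2 * s + 1 + q : ℕ) : ℝ)) :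
    (∑ f ∈ cfg s (n + s), wt n L f * ∑ i, e1 (f i : ℝ)) ≤
      6 * (s : ℝ) ^ 2 * (((n + s + 1 : ℕ) : ℝ) * ((n + s + L : ℕ) : ℝ) / L) * SS ℝ n L s 0 := by
  set a : ℝ := ((n + s : ℕ) : ℝ) with ha
  set A : ℝ := e1 ((n + s + L : ℕ) : ℝ) with hA
  set B : ℝ := e1 a with hB
  have hLr : (1 : ℝ) ≤ (L : ℝ) := by exact_mod_cast hL
  have ha1 : (1 : ℝ) ≤ a := by
    rw [ha]
    exact_mod_cast (show 1 ≤ n + s by omega)
  have haL : ((n + s + L : ℕ) : ℝ) = a + L := by
    rw [ha]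
    push_cast
    ring
  have ha1' : ((n + s + 1 : ℕ) : ℝ) = a + 1 := by
    rw [ha]
    push_cast
    ring
  have hBpos : 0 < B := by
    rw [hB]
    unfold e1
    positivity
  have hAB : B ≤ A := by
    rw [hA, hB, haL]
    exact (mean_e1_lt (by linarith) (by linarith)).le
  have hApos : 0 < A := hBpos.trans_le hAB
  -- the values of `e1`
  have hf0 : ∀ f ∈ cfg s (n + s), ∀ i, 0 ≤ e1 (f i : ℝ) ∧ e1 (f i : ℝ) < B := by
    intro f hf i
    have h1 : f i < n + s := mem_range.1 (Fintype.mem_piFinset.1 hf i)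
    have h2 : (f i : ℝ) < a := by
      rw [ha]
      exact_mod_cast h1
    refine ⟨?_, mean_e1_lt (Nat.cast_nonneg _) h2⟩
    unfold e1
    positivity
  -- the exponents
  set X : (Fin s → ℕ) → ℝ := fun f => ∑ i, Real.log ((A - e1 (f i : ℝ)) / (B - e1 (f i : ℝ)))
    with hX
  have hexp : ∀ f ∈ cfg s (n + s), wt n L f * Real.exp (X f) = wt (n + 1) L f := by
    intro f hf
    have h1 : Real.exp (X f) = ∏ i, (A - e1 (f i : ℝ)) / (B - e1 (f i : ℝ)) := by
      rw [hX, Real.exp_sum]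
      refine prod_congr rfl fun i _ => Real.exp_log ?_
      obtain ⟨h2, h3⟩ := hf0 f hf i
      exact div_pos (by linarith) (by linarith)
    rw [h1]
    unfold wt
    rw [mul_assoc, ← prod_mul_distrib]
    congr 1
    refine prod_congr rfl fun i _ => ?_
    obtain ⟨h2, h3⟩ := hf0 f hf i
    have h4 : B - e1 (f i : ℝ) ≠ 0 := by linarith
    rw [← mul_div_assoc, div_eq_iff h4]
    exact (mean_Om n L s (f i : ℝ)).symm
  have hsum : SS ℝ n L s 0 = ∑ f ∈ cfg s (n + s), wt n L f := SS_zero n L s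
  have hpos : 0 < ∑ f ∈ cfg s (n + s), wt n L f := by
    rw [← hsum]
    exact SS_pos n L s
  have hw : ∀ f ∈ cfg s (n + s), 0 ≤ wt n L f := fun f hf => wt_nonneg hf
  have hle : ∑ f ∈ cfg s (n + s), wt n L f * Real.exp (X f) ≤ SS ℝ (n + 1) L s 0 := by
    rw [SS_zero, sum_congr rfl hexp]
    refine sum_le_sum_of_subset_of_nonneg ?_ fun f hf _ => wt_nonneg hf
    intro f hf
    refine Fintype.mem_piFinset.2 fun i => ?_
    have h1 := mem_range.1 (Fintype.mem_piFinset.1 hf i)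
    exact mem_range.2 (by omega)
  have hJ := (jensen_exp (cfg s (n + s)) (wt n L) X hw hpos).trans hle
  rw [← hsum] at hJ hpos
  set Z : ℝ := SS ℝ n L s 0 with hZ
  set EX : ℝ := (∑ f ∈ cfg s (n + s), wt n L f * X f) / Z with hEX
  -- the upper bound of the mean of `X`
  have hD : 0 < ∏ q ∈ range (2 * s), ((2 * n + 2 + q : ℕ) : ℝ) :=
    prod_pos fun q _ => by positivity
  have hup : EX ≤ 2 * s * Real.log ((a + L) / (a + 1)) + 6 * (s : ℝ) ^ 2 / a := by
    have h1 := log_rho n L s hs hsn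
    rw [haL, ha1'] at h1
    refine le_trans ?_ h1
    rw [Real.le_log_iff_exp_le (prod_pos fun q _ => by positivity)]
    rw [prod_div_distrib, le_div_iff₀ hD]
    have h2 : Z * Real.exp EX * ∏ q ∈ range (2 * s), ((2 * n + 2 + q : ℕ) : ℝ) ≤
        Z * ∏ q ∈ range (2 * s), ((2 * n + 2 * L + 2 * s + 1 + q : ℕ) : ℝ) := by
      rw [← hR]
      exact mul_le_mul_of_nonneg_right hJ hD.le
    rw [mul_assoc] at h2
    exact le_of_mul_le_mul_left h2 hpos
  -- the lower bound
  set E : ℝ := ∑ f ∈ cfg s (n + s), wt n L f * ∑ i, e1 (f i : ℝ) with hE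
  have hlow : Z * (s * Real.log (A / B)) + (1 / B - 1 / A) * E ≤
      ∑ f ∈ cfg s (n + s), wt n L f * X f := by
    have h1 : ∀ f ∈ cfg s (n + s), wt n L f * (s * Real.log (A / B)) +
        (1 / B - 1 / A) * (wt n L f * ∑ i, e1 (f i : ℝ)) ≤ wt n L f * X f := by
      intro f hf
      have h2 : s * Real.log (A / B) + (1 / B - 1 / A) * ∑ i, e1 (f i : ℝ) ≤ X f := by
        have h3 : s * Real.log (A / B) + (1 / B - 1 / A) * ∑ i, e1 (f i : ℝ) =
            ∑ i, (Real.log (A / B) + e1 (f i : ℝ) * (1 / B - 1 / A)) := by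
          rw [sum_add_distrib, sum_const, card_univ, Fintype.card_fin, nsmul_eq_mul, ← sum_mul]
          ring
        rw [h3]
        exact sum_le_sum fun i _ => mean_log (hf0 f hf i).1 (hf0 f hf i).2 hAB
      have h4 := mul_le_mul_of_nonneg_left h2 (hw f hf)
      linarith [h4, mul_add (wt n L f) (s * Real.log (A / B))
        ((1 / B - 1 / A) * ∑ i, e1 (f i : ℝ)),
        mul_left_comm (wt n L f) (1 / B - 1 / A) (∑ i, e1 (f i : ℝ))]
    have h5 := sum_le_sum h1
    rw [sum_add_distrib, ← sum_mul, ← mul_sum, ← hsum] at h5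
    exact h5
  have hlog : 2 * Real.log ((a + L) / (a + 1)) ≤ Real.log (A / B) := by
    have h1 : 2 * Real.log ((a + L) / (a + 1)) = Real.log (((a + L) / (a + 1)) ^ 2) := by
      rw [Real.log_pow]
      push_cast
      ring
    rw [h1]
    refine Real.log_le_log (by positivity) ?_
    rw [hA, hB, haL]
    unfold e1
    rw [div_pow, div_le_div_iff₀ (by positivity) (by positivity)]
    have h2 : 0 ≤ (a + L) * (a + 1) := by positivity
    nlinarith [mul_nonneg h2 (show 0 ≤ 2 * a + L + 1 by linarith)]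
  -- combine
  have hsr : (0 : ℝ) ≤ s := Nat.cast_nonneg _
  have hmain : (1 / B - 1 / A) * E ≤ 6 * (s : ℝ) ^ 2 / a * Z := by
    have h1 : ∑ f ∈ cfg s (n + s), wt n L f * X f = EX * Z := by
      rw [hEX, div_mul_cancel₀ _ hpos.ne']
    rw [h1] at hlow
    have h2 := mul_le_mul_of_nonneg_right hup hpos.le
    have h3 : s * (2 * Real.log ((a + L) / (a + 1))) ≤ s * Real.log (A / B) :=
      mul_le_mul_of_nonneg_left hlog hsr
    have h4 := mul_le_mul_of_nonneg_left h3 hpos.le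
    linarith [h2, h4, add_mul (2 * s * Real.log ((a + L) / (a + 1))) (6 * (s : ℝ) ^ 2 / a) Z,
      show Z * (s * (2 * Real.log ((a + L) / (a + 1)))) =
        2 * s * Real.log ((a + L) / (a + 1)) * Z by ring]
  have hE0 : 0 ≤ E :=
    sum_nonneg fun f hf => mul_nonneg (hw f hf) (sum_nonneg fun i _ => (hf0 f hf i).1)
  have hdiff : L / (a * (a + 1) * (a + L)) ≤ 1 / B - 1 / A := by
    rw [hA, hB, haL]
    unfold e1
    have h1 : 1 / (a * (a + 1)) - 1 / ((a + L) * (a + L + 1)) =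
        L * (2 * a + L + 1) / (a * (a + 1) * ((a + L) * (a + L + 1))) := by
      field_simp
      ring
    rw [h1, div_le_div_iff₀ (by positivity) (by positivity)]
    have h2 : 0 ≤ L * (a * (a + 1)) * (a + L) * a := by positivity
    nlinarith
  have hfin := (mul_le_mul_of_nonneg_right hdiff hE0).trans hmain
  have hLpos : (0 : ℝ) < L := by linarith
  have hapos : 0 < a := by linarith
  rw [haL, ha1']
  have h1 : E = L / (a * (a + 1) * (a + L)) * E * (a * (a + 1) * (a + L) / L) := by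
    field_simp
  have h2 : 6 * (s : ℝ) ^ 2 * ((a + 1) * (a + L) / L) * Z =
      6 * (s : ℝ) ^ 2 / a * Z * (a * (a + 1) * (a + L) / L) := by
    field_simp
  rw [h1, h2]
  exact mul_le_mul_of_nonneg_right hfin (by positivity)

end Pool.Agent.helper54.Expl
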