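import Mathlib
import Pool.Agent.helper54.Schub.Lay

/-!
# Layered permutations of maximal value

`Lay n w` (Schub/Lay) is inductive: `Lay 0 1` and `Lay (m + l + 1) (σ * rv m l)` for `Lay m σ`;
`val_cons`: `val (m + l + 1) (σ * rv m l) = val m σ * W m l`; `Lay.val_pos`, `W_pos`.
* `exists_mx`: strong induction, maximise `val m σ_m * W m l` over `m + l = n`.
* `mx_cons`: cases on `Lay`; `σ` is maximal because `W m l > 0`; if `l ≥ 2 m + 2`, write `l = L + 1`,
  and `split_lt m L : W m (L + 1) < W (m + 1) L` with `Lay (m + 1) (σ * rv m 0)` gives a larger value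
  (as in `imp_split_last`).
* `mx_cons2`: compare with `σ * rv m (α + β + 1)`.
-/

set_option autoImplicit false
open Equiv Pool.Agent.helper54.Schub

namespace Pool.Agent.helper54.Expl

/-- `w` is a layered permutation of `n` letters of maximal value -/
def Mx (n : ℕ) (w : Perm ℕ) : Prop := Lay n w ∧ ∀ v, Lay n v → val n v ≤ val n w

/-- a nonempty layered permutation has a last block -/
theorem mx_inv {n : ℕ} {w : Perm ℕ} (h : Lay n w) (hn : 1 ≤ n) :
    ∃ (m l : ℕ) (σ : Perm ℕ), n = m + l + 1 ∧ Lay m σ ∧ w = σ * rv m l := by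
  cases h with
  | nil => omega
  | @cons m σ l h => exact ⟨m, l, σ, rfl, h, rfl⟩

/-- the value of a layered permutation in terms of its last block -/
theorem mx_val {n m l : ℕ} {σ : Perm ℕ} (hn : n = m + l + 1) (hσ : Lay m σ) :
    val n (σ * rv m l) = val m σ * W m l := by
  rw [hn]
  exact val_cons m l σ hσ.fa

/-- adding a block -/
theorem mx_lay {n m l : ℕ} {σ : Perm ℕ} (hn : n = m + l + 1) (hσ : Lay m σ) :
    Lay n (σ * rv m l) := by
  rw [hn]
  exact Lay.cons l hσ

theorem exists_mx (n : ℕ) : ∃ w, Mx n w := by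
  induction n using Nat.strong_induction_on with
  | _ n ih =>
    rcases Nat.eq_zero_or_pos n with hn | hn
    · subst hn
      refine ⟨1, Lay.nil, fun v hv => ?_⟩
      have h1 : v = 1 := by
        generalize hk : (0 : ℕ) = k at hv
        cases hv with
        | nil => rfl
        | cons l h => omega
      rw [h1]
    · have h1 : ∀ m, ∃ σ, m < n → Mx m σ := by
        intro m
        by_cases hm : m < n
        · obtain ⟨σ, hσ⟩ := ih m hm
          exact ⟨σ, fun _ => hσ⟩
        · exact ⟨1, fun h => absurd h hm⟩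
      choose σ hσ using h1
      obtain ⟨m, hm, hmax⟩ := Finset.exists_max_image (Finset.range n)
        (fun m => val m (σ m) * W m (n - 1 - m)) ⟨0, Finset.mem_range.2 hn⟩
      rw [Finset.mem_range] at hm
      have e : n = m + (n - 1 - m) + 1 := by omega
      refine ⟨σ m * rv m (n - 1 - m), mx_lay e (hσ m hm).1, fun v hv => ?_⟩
      obtain ⟨k, l, τ, hk, hτ, rfl⟩ := mx_inv hv hn
      have hkn : k < n := by omega
      have hl : l = n - 1 - k := by omega
      rw [mx_val hk hτ, mx_val e (hσ m hm).1, hl]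
      refine le_trans ?_ (hmax k (Finset.mem_range.2 hkn))
      exact mul_le_mul_of_nonneg_right ((hσ k hkn).2 τ hτ) (W_pos _ _).le

theorem mx_cons {n : ℕ} {w : Perm ℕ} (h : Mx n w) (hn : 1 ≤ n) :
    ∃ (m l : ℕ) (σ : Perm ℕ), n = m + l + 1 ∧ Mx m σ ∧ w = σ * rv m l ∧ l ≤ 2 * m + 1 := by
  obtain ⟨m, l, σ, hk, hσ, rfl⟩ := mx_inv h.1 hn
  refine ⟨m, l, σ, hk, ⟨hσ, fun v hv => ?_⟩, rfl, ?_⟩
  · have h1 := h.2 _ (mx_lay hk hv)
    rw [mx_val hk hv, mx_val hk hσ] at h1
    exact le_of_mul_le_mul_right h1 (W_pos m l)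
  · by_contra hcon
    obtain ⟨L, rfl⟩ : ∃ L, l = L + 1 := ⟨l - 1, by omega⟩
    have h2 : Lay (m + 1) (σ * rv m 0) := mx_lay rfl hσ
    have e : n = (m + 1) + L + 1 := by omega
    have h1 := h.2 _ (mx_lay e h2)
    rw [mx_val e h2, mx_val (show m + 1 = m + 0 + 1 from rfl) hσ, mx_val hk hσ,
      show W m 0 = 1 from rfl, mul_one] at h1
    have h3 := mul_lt_mul_of_pos_left (split_lt m L (by omega)) hσ.val_pos
    exact absurd h1 (not_le.2 h3)

theorem mx_cons2 {m α β : ℕ} {σ : Perm ℕ} (hσ : Lay m σ)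
    (h : Mx (m + α + 1 + β + 1) (σ * rv m α * rv (m + α + 1) β)) :
    W m (α + β + 1) ≤ W m α * W (m + α + 1) β := by
  have h1 : Lay (m + α + 1) (σ * rv m α) := mx_lay rfl hσ
  have e : m + α + 1 + β + 1 = m + (α + β + 1) + 1 := by omega
  have h2 := h.2 _ (mx_lay e hσ)
  rw [mx_val e hσ, mx_val rfl h1, mx_val rfl hσ, mul_assoc] at h2
  exact le_of_mul_le_mul_left h2 hσ.val_pos

end Pool.Agent.helper54.Expl
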