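import Pool.Agent.helper54.Expl.NDefs

/-!
# Newton's formula with backward differences

`newton_hz`.  `nab (fun y => hz j y) = fun y => hz (j - 1) y` (for `j > 0`:
`∏_{t ≤ r} (y + t) - ∏_{t ≤ r} (y - 1 + t) = (r + 1) ∏_{t < r} (y + t)`; for `j ≤ 0` both sides are
`0`), `hz j 0 = 0` for `j > 0`, `hz 0 y = 1`.  Let `g y = f y - ∑_{j ≤ N} (nab^[j] f) 0 * hz j y`.
Then `(nab^[r] g) 0 = 0` for `r ≤ N` and `nab^[N + 1] g = 0`; a function with zero difference and
value `0` at `0` is `0`, so that `g = 0`.  Then apply `nab^[r]`.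

`nab_q`.  A polynomial function of degree `≤ d` has `nab^[d + 1] = 0` (e.g. by induction on `d`:
`nab` lowers the degree; or the lemmas about `fwdDiff` in Mathlib), and the function has degree
`≤ 2 a + 2 L < 2 L + 2 s - 1`.
-/

set_option autoImplicit false
open Finset

namespace Pool.Agent.helper54.Expl

private theorem nw_hz_zero (φ : ℤ) : hz 0 φ = 1 := by
  simp [hz]

private theorem nw_hz_neg (j φ : ℤ) (hj : j < 0) : hz j φ = 0 := by
  simp [hz, hj]

private theorem nw_hz_at_zero (j : ℤ) (hj : 0 < j) : hz j 0 = 0 := by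
  have h1 : ¬ j < 0 := by omega
  simp only [hz, h1, if_false]
  have h2 : (0 : ℕ) ∈ range j.toNat := by
    rw [Finset.mem_range]; omega
  rw [Finset.prod_eq_zero h2 (by simp), zero_div]

private theorem nw_nab_hz (j y : ℤ) : nab (fun z => hz j z) y = hz (j - 1) y := by
  rcases lt_trichotomy j 0 with hj | hj | hj
  · simp only [nab]
    rw [nw_hz_neg j y hj, nw_hz_neg j (y - 1) hj, nw_hz_neg (j - 1) y (by omega), sub_zero]
  · subst hj
    simp only [nab]
    rw [nw_hz_zero, nw_hz_zero, nw_hz_neg (0 - 1) y (by omega), sub_self]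
  · obtain ⟨r, rfl⟩ : ∃ r : ℕ, j = (r : ℤ) + 1 := ⟨(j - 1).toNat, by omega⟩
    have h1 : ¬ ((r : ℤ) + 1 < 0) := by omega
    have h2 : ¬ ((r : ℤ) + 1 - 1 < 0) := by omega
    have h3 : ((r : ℤ) + 1).toNat = r + 1 := by omega
    have h4 : ((r : ℤ) + 1 - 1).toNat = r := by omega
    simp only [nab, hz, h1, h2, if_false, h3, h4]
    have h5 : (∏ t ∈ range (r + 1), ((y : ℚ) + t)) = (∏ t ∈ range r, ((y : ℚ) + t)) * (y + r) :=
      Finset.prod_range_succ _ _
    have h6 : (∏ t ∈ range (r + 1), (((y - 1 : ℤ) : ℚ) + t)) =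
        (∏ t ∈ range r, ((y : ℚ) + t)) * (y - 1) := by
      rw [Finset.prod_range_succ']
      congr 1
      · apply Finset.prod_congr rfl
        intro t _
        push_cast
        ring
      · push_cast
        ring
    rw [h5, h6, ← sub_div, ← mul_sub]
    have h7 : ((r + 1).factorial : ℚ) = (r + 1) * (r.factorial : ℚ) := by
      rw [Nat.factorial_succ]; push_cast; ring
    have h8 : (r.factorial : ℚ) ≠ 0 := by exact_mod_cast r.factorial_ne_zero
    have h9 : ((r : ℚ) + 1) ≠ 0 := by positivity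
    rw [h7]
    have h10 : ((y : ℚ) + r - (y - 1)) = r + 1 := by ring
    rw [h10]
    field_simp

private theorem nw_iter_hz (r : ℕ) (j y : ℤ) :
    (nab^[r] (fun z => hz j z)) y = hz (j - r) y := by
  induction r generalizing j with
  | zero => simp
  | succ r ih =>
    rw [Function.iterate_succ_apply]
    have h1 : nab (fun z => hz j z) = fun z => hz (j - 1) z := funext (nw_nab_hz j)
    rw [h1, ih]
    congr 1
    push_cast
    ring

private theorem nw_iter_sum (S : Finset ℕ) (c : ℕ → ℚ) (G : ℕ → ℤ → ℚ) (r : ℕ) (y : ℤ) :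
    (nab^[r] (fun z => ∑ j ∈ S, c j * G j z)) y = ∑ j ∈ S, c j * (nab^[r] (G j)) y := by
  induction r generalizing G with
  | zero => simp
  | succ r ih =>
    rw [Function.iterate_succ_apply]
    have h1 : nab (fun z => ∑ j ∈ S, c j * G j z) = fun z => ∑ j ∈ S, c j * nab (G j) z := by
      funext z
      simp only [nab]
      rw [← Finset.sum_sub_distrib]
      apply Finset.sum_congr rfl
      intro j _
      ring
    rw [h1, ih]
    simp only [Function.iterate_succ_apply]

private theorem nw_const (f : ℤ → ℚ) (h : ∀ y, nab f y = 0) (φ : ℤ) : f φ = f 0 := by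
  have h1 : ∀ y : ℤ, f y = f (y - 1) := fun y => by
    have := h y
    simp only [nab] at this
    linarith
  induction φ using Int.induction_on with
  | zero => rfl
  | succ i ih =>
    rw [h1, ← ih]
    congr 1
    ring
  | pred i ih => rw [← h1, ih]

private theorem nw_newton (N : ℕ) : ∀ (f : ℤ → ℚ), (∀ y, (nab^[N + 1] f) y = 0) → ∀ φ : ℤ,
    f φ = ∑ j ∈ range (N + 1), (nab^[j] f) 0 * hz (j : ℤ) φ := by
  induction N with
  | zero =>
    intro f hf φ
    rw [nw_const f (fun y => by simpa using hf y) φ]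
    simp [nw_hz_zero]
  | succ N ih =>
    intro f hf φ
    set F : ℤ → ℚ := fun z => ∑ j ∈ range (N + 1 + 1), (nab^[j] f) 0 * hz (j : ℤ) z with hF
    have hg : ∀ z : ℤ, nab f z = ∑ j ∈ range (N + 1), (nab^[j] (nab f)) 0 * hz (j : ℤ) z :=
      ih (nab f) (fun y => by
        have := hf y
        rwa [Function.iterate_succ_apply] at this)
    have h1 : ∀ z : ℤ, nab F z = nab f z := by
      intro z
      have h2 := nw_iter_sum (range (N + 1 + 1)) (fun j => (nab^[j] f) 0)
        (fun j z => hz (j : ℤ) z) 1 z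
      simp only [Function.iterate_one] at h2
      rw [hF, h2, hg z, Finset.sum_range_succ']
      have h3 : nab (fun z => hz ((0 : ℕ) : ℤ) z) z = 0 := by
        rw [nw_nab_hz]
        exact nw_hz_neg _ _ (by norm_num)
      rw [h3, mul_zero, add_zero]
      apply Finset.sum_congr rfl
      intro j _
      rw [nw_nab_hz, Function.iterate_succ_apply]
      congr 2
      push_cast
      ring
    have h4 : F 0 = f 0 := by
      simp only [hF]
      rw [Finset.sum_range_succ', Finset.sum_eq_zero]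
      · simp [nw_hz_zero]
      · intro j _
        rw [nw_hz_at_zero _ (by positivity), mul_zero]
    have h5 := nw_const (fun z => f z - F z) (fun y => by
      have h6 := h1 y
      simp only [nab] at h6 ⊢
      linarith) φ
    have h7 : f φ - F φ = f 0 - F 0 := h5
    rw [h4, sub_self] at h7
    show f φ = F φ
    linarith

theorem newton_hz (N : ℕ) (f : ℤ → ℚ) (h : ∀ y, (nab^[N + 1] f) y = 0) (r : ℕ) (φ : ℤ) :
    (nab^[r] f) φ = ∑ j ∈ range (N + 1), (nab^[j] f) 0 * hz ((j : ℤ) - r) φ := by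
  have h1 : f = fun z => ∑ j ∈ range (N + 1), (nab^[j] f) 0 * hz (j : ℤ) z :=
    funext (nw_newton N f h)
  have h2 := nw_iter_sum (range (N + 1)) (fun j => (nab^[j] f) 0) (fun j z => hz (j : ℤ) z) r φ
  rw [← h1] at h2
  rw [h2]
  apply Finset.sum_congr rfl
  intro j _
  rw [nw_iter_hz]

private theorem nw_nab_fwd (p : ℚ → ℚ) (n : ℕ) (y : ℤ) :
    (nab^[n] (fun z : ℤ => p (z : ℚ))) y = ((fwdDiff (1 : ℚ))^[n] p) ((y : ℚ) - n) := by
  induction n generalizing y with
  | zero => simp
  | succ n ih =>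
    rw [Function.iterate_succ_apply', Function.iterate_succ_apply']
    simp only [nab, fwdDiff]
    rw [ih, ih]
    have e1 : ((y : ℚ) - ((n + 1 : ℕ) : ℚ) + 1) = (y : ℚ) - n := by
      push_cast
      ring
    have e2 : ((y : ℚ) - ((n + 1 : ℕ) : ℚ)) = (((y - 1 : ℤ) : ℚ) - n) := by
      push_cast
      ring
    rw [e1, e2]

theorem nab_q (m L s a : ℕ) (ha : a < s) (y : ℤ) :
    (nab^[2 * L + 2 * s - 1] (fun z : ℤ => e1 (z : ℚ) ^ a * Om m L s (z : ℚ))) y = 0 := by
  set P : Polynomial ℚ := (Polynomial.X * (Polynomial.X + 1)) ^ a *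
    ∏ t ∈ range L, ((Polynomial.C ((m + s + t : ℕ) : ℚ) - Polynomial.X) *
      (Polynomial.C ((m + s + t + 1 : ℕ) : ℚ) + Polynomial.X)) with hP
  have h1 : ∀ z : ℚ, e1 z ^ a * Om m L s z = P.eval z := by
    intro z
    simp only [hP, e1, Om, Polynomial.eval_mul, Polynomial.eval_pow, Polynomial.eval_X,
      Polynomial.eval_add, Polynomial.eval_one, Polynomial.eval_prod, Polynomial.eval_sub,
      Polynomial.eval_C]
  have h2 : (Polynomial.X * (Polynomial.X + 1) : Polynomial ℚ).natDegree ≤ 2 := by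
    compute_degree
  have h3 : ∀ t : ℕ, ((Polynomial.C ((m + s + t : ℕ) : ℚ) - Polynomial.X) *
      (Polynomial.C ((m + s + t + 1 : ℕ) : ℚ) + Polynomial.X) : Polynomial ℚ).natDegree ≤ 2 := by
    intro t
    compute_degree
  have h4 : P.natDegree ≤ a * 2 + L * 2 := by
    refine Polynomial.natDegree_mul_le.trans (add_le_add ?_ ?_)
    · exact Polynomial.natDegree_pow_le.trans (Nat.mul_le_mul_left a h2)
    · refine (Polynomial.natDegree_prod_le _ _).trans ?_
      calc (∑ t ∈ range L, ((Polynomial.C ((m + s + t : ℕ) : ℚ) - Polynomial.X) *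
      (Polynomial.C ((m + s + t + 1 : ℕ) : ℚ) + Polynomial.X) : Polynomial ℚ).natDegree)
          ≤ ∑ _t ∈ range L, 2 := Finset.sum_le_sum fun t _ => h3 t
        _ = L * 2 := by simp
  have h5 : (fun z : ℤ => e1 (z : ℚ) ^ a * Om m L s (z : ℚ)) = fun z : ℤ => P.eval (z : ℚ) :=
    funext fun z => h1 _
  rw [h5, nw_nab_fwd (fun z => P.eval z)]
  have h6 := Polynomial.fwdDiff_iter_eq_zero_of_degree_lt (P := P) (n := 2 * L + 2 * s - 1)
    (by omega)
  exact congrFun h6 _

end Pool.Agent.helper54.Expl
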