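import Mathlib
import Pool.Agent.helper54.Schub.Weights

/-!
# Operators: definitions

PROJECT EXPL (MP_cb98a7_co, architect helper54).  Library: `Pool/Agent/helper54/Schub/*.lean`:
`lam K j` is left multiplication by the nilCoxeter generator `u_j` on functions on `Perm ℕ`,
`fac u x j = 1 + x • u j`, `dn u x l p = (1 + x u_{p+l-1}) ⋯ (1 + x u_p)` (decreasing product),
`up u x l p` (increasing product), `sch K u l p = dn 1 l p * dn 1 (l-1) (p+1) * ⋯ * dn 1 1 (p+l-1)`,
`cf w G = G (del K) w`, `rv p l` reverses `[p, p + l]`, `W m l` is the weight of a block.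
-/

set_option autoImplicit false
open Equiv Pool.Agent.helper54.Schub

namespace Pool.Agent.helper54.Expl

noncomputable section

/-- the restricted block count (`l + 1` letters, the last `Y` columns do not use the first `s`
generators) -/
def Fop (p l s Y n : ℕ) : ℚ :=
  cf (rv p l) (dn (lam ℚ) (1 : ℚ) l p ^ n * sch ℚ (lam ℚ) l p *
    up (lam ℚ) (1 : ℚ) (l - s) (p + s) ^ Y)

/-- the product of rows `dn l p ^ e 0 * dn (l - 1) (p + 1) ^ e 1 * ⋯ * dn 1 (p + l - 1) ^ e (l-1)` -/
def Ae : ℕ → ℕ → (ℕ → ℕ) → Module.End ℚ (Perm ℕ → ℚ)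
  | 0, _, _ => 1
  | l + 1, p, e => dn (lam ℚ) (1 : ℚ) (l + 1) p ^ e 0 * Ae l (p + 1) (fun i => e (i + 1))

/-- the same with variables: the list `x i` contains the variables of the rows of level `i` -/
def Ax (K : Type*) [CommRing K] : ℕ → ℕ → (ℕ → List K) → Module.End K (Perm ℕ → K)
  | 0, _, _ => 1
  | l + 1, p, x => ((x 0).map fun y => dn (lam K) y (l + 1) p).prod *
      Ax K l (p + 1) (fun i => x (i + 1))

/-- the variables of the levels `0, …, i` -/
def vars {K : Type*} (x : ℕ → List K) : ℕ → List K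
  | 0 => x 0
  | i + 1 => vars x i ++ x (i + 1)

/-- `∏_y 1 / (1 - y T)` -/
def gs {K : Type*} [CommRing K] (l : List K) : PowerSeries K :=
  (l.map fun y => PowerSeries.mk fun n => y ^ n).prod

/-- the coefficient of `T ^ r`, for `r : ℤ` -/
def cz {K : Type*} [CommRing K] (f : PowerSeries K) (r : ℤ) : K :=
  if r < 0 then 0 else PowerSeries.coeff r.toNat f

/-- `∏_{i ≤ j} u_{k - 1 - j + 2 i}` (commuting generators) -/
def cG (k j : ℕ) : Module.End ℚ (Perm ℕ → ℚ) :=
  ((List.range (j + 1)).map fun i => lam ℚ (k - 1 - j + 2 * i)).prod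

/-- `cG k (s - 1) * ⋯ * cG k 1 * cG k 0`: the triangular piece -/
def cc (k : ℕ) : ℕ → Module.End ℚ (Perm ℕ → ℚ)
  | 0 => 1
  | s + 1 => cG k s * cc k s

/-- the rows `x, x + 1, …, x + Y - 1` restricted to generators less than `k - s - 1` -/
def Ar (k s : ℕ) : ℕ → ℕ → Module.End ℚ (Perm ℕ → ℚ)
  | 0, _ => 1
  | Y + 1, x => dn (lam ℚ) (1 : ℚ) (k - s - 1 - x) x * Ar k s Y (x + 1)

/-- what remains after the triangular piece has been taken out of the first `2 s` rows -/
def Hop (k β s : ℕ) : Module.End ℚ (Perm ℕ → ℚ) :=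
  dn (lam ℚ) (1 : ℚ) (β - s) (k + s) ^ (2 * s) *
    (Ar k s (2 * s) 0 * sch ℚ (lam ℚ) (k + β - 2 * s) (2 * s))

end

end Pool.Agent.helper54.Expl
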