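import Pool.Agent.helper54.Expl.Newt
import Pool.Agent.helper54.Expl.Anti

/-!
# Vectors in the kernel of the lower rows
-/

set_option autoImplicit false
open Finset

namespace Pool.Agent.helper54.Expl

lemma nab_iter_zero_of_zero (f : ℤ → ℚ) (N : ℕ) (h : ∀ r : ℕ, r < N → f (-(r : ℤ)) = 0) :
    ∀ j r : ℕ, r + j < N → (nab^[j] f) (-(r : ℤ)) = 0 := by
  intro j
  induction j with
  | zero => intro r hr; exact h r (by omega)
  | succ j ih =>
    intro r hr
    rw [Function.iterate_succ_apply']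
    unfold nab
    have h1 := ih r (by omega)
    have h2 := ih (r + 1) (by omega)
    have e : (-((r + 1 : ℕ) : ℤ)) = -(r : ℤ) - 1 := by push_cast; ring
    rw [e] at h2
    change (nab^[j] f) (-(r : ℤ)) - (nab^[j] f) (-(r : ℤ) - 1) = 0
    rw [h1, h2, sub_zero]

lemma om_symm (m L s : ℕ) (z : ℚ) : Om m L s (-1 - z) = Om m L s z := by
  unfold Om
  apply prod_congr rfl
  intro t _
  push_cast
  ring

lemma e1_symm (z : ℚ) : e1 (-1 - z) = e1 z := by
  unfold e1; ring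

lemma om_zero (m L s : ℕ) (z : ℤ) (h1 : (m : ℤ) + s ≤ z) (h2 : z < (m : ℤ) + s + L) :
    Om m L s (z : ℚ) = 0 := by
  obtain ⟨t, ht⟩ := Int.le.dest h1
  unfold Om
  apply prod_eq_zero (i := t)
  · rw [mem_range]; omega
  · have : (((m + s + t : ℕ) : ℚ) - (z : ℚ)) = 0 := by
      rw [← ht]; push_cast; ring
    rw [this, zero_mul]

theorem exists_x (m L s a : ℕ) (ha : a < s) : ∃ x : ℕ → ℚ,
    (∀ i Y : ℕ, i < s → Y ≤ m → ∑ j ∈ range (L + 2 * s - 1),
      hz (((L + 2 * s - 1 : ℕ) : ℤ) - 2 * (i : ℕ) + (j : ℕ)) ((m : ℤ) - Y + (i : ℕ) + 1) * x j =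
        ∑ z ∈ Ico Y (m + s), (((z - Y + (s - 1 - i)).choose (2 * (s - 1 - i)) : ℕ) : ℚ) *
          (e1 (z : ℚ) ^ a * Om m L s (z : ℚ))) ∧
    (∀ i : ℕ, s ≤ i → ∑ j ∈ range (L + 2 * s - 1),
      hz (((L + 2 * s - 1 : ℕ) : ℤ) - 2 * (i : ℕ) + (j : ℕ)) ((m : ℤ) + (i : ℕ) + 1) * x j = 0) := by
  obtain ⟨f, f1, f2, f3, f4⟩ := exists_f m L s (by omega)
    (fun z : ℤ => e1 (z : ℚ) ^ a * Om m L s (z : ℚ))
    (fun z h1 h2 => by
      change e1 (z : ℚ) ^ a * Om m L s (z : ℚ) = 0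
      rw [om_zero m L s z h1 h2, mul_zero])
    (fun z => by
      change e1 (((-1 - z : ℤ)) : ℚ) ^ a * Om m L s (((-1 - z : ℤ)) : ℚ) = _
      have e : (((-1 - z : ℤ)) : ℚ) = -1 - (z : ℚ) := by push_cast; ring
      rw [e, om_symm, e1_symm])
    (nab_q m L s a ha)
  set l := L + 2 * s - 1 with hl
  have hl1 : 1 ≤ l := by omega
  have key : ∀ (i : ℕ) (φ : ℤ), (nab^[2 * i] f) φ =
      ∑ j ∈ range l, hz ((l : ℤ) - 2 * (i : ℕ) + (j : ℕ)) φ * (nab^[l + j] f) 0 := by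
    intro i φ
    have h1 := newton_hz (2 * l - 1) f (fun y => by
      rw [show 2 * l - 1 + 1 = 2 * l by omega]; exact f2 y) (2 * i) φ
    rw [h1, show 2 * l - 1 + 1 = l + l by omega, sum_range_add, sum_eq_zero (s := range l), zero_add]
    · apply sum_congr rfl
      intro j _
      rw [mul_comm]
      congr 2
      push_cast
      ring
    · intro j hj
      rw [mem_range] at hj
      have := nab_iter_zero_of_zero f l f1 j 0 (by omega)
      rw [Nat.cast_zero, neg_zero] at this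
      rw [this, zero_mul]
  refine ⟨fun j => (nab^[l + j] f) 0, ?_, ?_⟩
  · intro i Y hi hY
    rw [← key]
    exact f3 i Y hi hY
  · intro i hi
    rw [← key]
    exact f4 i hi

end Pool.Agent.helper54.Expl
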