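import Pool.Agent.helper54.Expl.NDefs

/-!
# Shifting the particles by `Y`

* `SS_zero`: definition (`vd x * vd x = vd x ^ 2`, `m + s - 0`).
* `wt_nonneg`: for `f i < n + s` all factors of `Om n L s (f i)` are positive.
* `SS_pos`: the term `f i = i` is positive (`vd (e1 i) ≠ 0` because `e1` is strictly increasing).
* `SS_shift_ge`: termwise, for `f ∈ cfg s (n + s)` (which is the index set of `SS ℝ (n + Y) L s Y`):
  `(e1 (y + Y) - e1 (x + Y)) * (e1 y - e1 x) = (y - x) ^ 2 * (x + y + 2 Y + 1) * (x + y + 1)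
  ≥ (e1 y - e1 x) ^ 2` for `x, y ≥ 0`, so `vd (e1 ∘ f) * vd (e1 ∘ (f + Y)) ≥ vd (e1 ∘ f) ^ 2`; and
  `Om (n + Y) L s (z + Y) = Om n L s z * ∏_{t < L} (n + s + t + 1 + z + 2 Y) / (n + s + t + 1 + z)`
  with `∏_{t < L} (x + t + Q) / (x + t) = ∏_{r < Q} (x + L + r) / (x + r)` (`x > 0`, induction).
-/

set_option autoImplicit false
open Finset

namespace Pool.Agent.helper54.Expl

theorem SS_zero (n L s : ℕ) : SS ℝ n L s 0 = ∑ f ∈ cfg s (n + s), wt n L f := by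
  unfold SS cfg wt
  rw [Nat.sub_zero]
  refine Finset.sum_congr rfl fun f _ => ?_
  simp only [Nat.cast_zero, add_zero]
  rw [sq]

private theorem shift_Om_pos {n L s : ℕ} {z : ℕ} (hz : z < n + s) : 0 < Om n L s (z : ℝ) := by
  unfold Om
  refine Finset.prod_pos fun t _ => ?_
  have h1 : (z : ℝ) < ((n + s + t : ℕ) : ℝ) := by
    have : z < n + s + t := by omega
    exact_mod_cast this
  have h2 : (0 : ℝ) < ((n + s + t + 1 : ℕ) : ℝ) + (z : ℝ) := by positivity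
  exact mul_pos (by linarith) h2

private theorem shift_prod_Om_pos {n L s : ℕ} {f : Fin s → ℕ} (hf : f ∈ cfg s (n + s)) :
    0 < ∏ i, Om n L s (f i : ℝ) := by
  refine Finset.prod_pos fun i _ => shift_Om_pos ?_
  have h1 := Fintype.mem_piFinset.1 hf i
  exact Finset.mem_range.1 h1

theorem wt_nonneg {n L s : ℕ} {f : Fin s → ℕ} (hf : f ∈ cfg s (n + s)) : 0 ≤ wt n L f := by
  unfold wt
  exact mul_nonneg (sq_nonneg _) (shift_prod_Om_pos hf).le

theorem SS_pos (n L s : ℕ) : 0 < SS ℝ n L s 0 := by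
  rw [SS_zero]
  have hmem : (fun i : Fin s => (i : ℕ)) ∈ cfg s (n + s) := by
    refine Fintype.mem_piFinset.2 fun i => Finset.mem_range.2 ?_
    have := i.2
    omega
  refine Finset.sum_pos' (fun f hf => wt_nonneg hf) ⟨_, hmem, ?_⟩
  unfold wt
  refine mul_pos (pow_pos ?_ 2) (shift_prod_Om_pos hmem)
  unfold vd
  refine Finset.prod_pos fun i _ => Finset.prod_pos fun j hj => ?_
  have hij' : i < j := Finset.mem_Ioi.1 hj
  have hij : (i : ℕ) < (j : ℕ) := hij'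
  have h1 : ((i : ℕ) : ℝ) < ((j : ℕ) : ℝ) := by exact_mod_cast hij
  have h2 : (0 : ℝ) ≤ ((i : ℕ) : ℝ) := Nat.cast_nonneg _
  unfold e1
  nlinarith

private theorem shift_ratio (x : ℝ) (hx : 0 < x) (L Q : ℕ) :
    (∏ t ∈ range L, (x + t + Q)) =
      (∏ t ∈ range L, (x + t)) * ∏ r ∈ range Q, ((x + L + r) / (x + r)) := by
  have h1 := Finset.prod_range_add (fun u : ℕ => x + (u : ℝ)) L Q
  have h2 := Finset.prod_range_add (fun u : ℕ => x + (u : ℝ)) Q L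
  rw [Nat.add_comm Q L, h1] at h2
  have h3 : (∏ t ∈ range L, (x + t + Q)) = ∏ t ∈ range L, (x + ((Q + t : ℕ) : ℝ)) := by
    refine Finset.prod_congr rfl fun t _ => ?_
    push_cast
    ring
  have h4 : (∏ r ∈ range Q, (x + L + r)) = ∏ r ∈ range Q, (x + ((L + r : ℕ) : ℝ)) := by
    refine Finset.prod_congr rfl fun t _ => ?_
    push_cast
    ring
  have h5 : (∏ r ∈ range Q, (x + (r : ℝ))) ≠ 0 := by
    refine Finset.prod_ne_zero_iff.2 fun r _ => ?_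
    positivity
  rw [Finset.prod_div_distrib, h3, h4, ← mul_div_assoc, eq_div_iff h5, h2]
  ring

private theorem shift_Om (n L s Y : ℕ) (z : ℝ) (hz : 0 ≤ z) :
    Om (n + Y) L s (z + (Y : ℝ)) = Om n L s z * ∏ r ∈ range (2 * Y),
      ((((n + s + L + r + 1 : ℕ) : ℝ) + z) / (((n + s + r + 1 : ℕ) : ℝ) + z)) := by
  unfold Om
  rw [Finset.prod_mul_distrib, Finset.prod_mul_distrib, mul_assoc]
  have hx : (0 : ℝ) < (n : ℝ) + s + 1 + z := by positivity
  have h1 := shift_ratio ((n : ℝ) + s + 1 + z) hx L (2 * Y)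
  have h2 : (∏ t ∈ range L, (((n + Y + s + t : ℕ) : ℝ) - (z + (Y : ℝ)))) =
      ∏ t ∈ range L, (((n + s + t : ℕ) : ℝ) - z) := by
    refine Finset.prod_congr rfl fun t _ => ?_
    push_cast
    ring
  have h3 : (∏ t ∈ range L, (((n + Y + s + t + 1 : ℕ) : ℝ) + (z + (Y : ℝ)))) =
      ∏ t ∈ range L, ((n : ℝ) + s + 1 + z + t + ((2 * Y : ℕ) : ℝ)) := by
    refine Finset.prod_congr rfl fun t _ => ?_
    push_cast
    ring
  have h4 : (∏ t ∈ range L, (((n + s + t + 1 : ℕ) : ℝ) + z)) =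
      ∏ t ∈ range L, ((n : ℝ) + s + 1 + z + t) := by
    refine Finset.prod_congr rfl fun t _ => ?_
    push_cast
    ring
  have h5 : (∏ r ∈ range (2 * Y),
      ((((n + s + L + r + 1 : ℕ) : ℝ) + z) / (((n + s + r + 1 : ℕ) : ℝ) + z))) =
      ∏ r ∈ range (2 * Y), (((n : ℝ) + s + 1 + z + L + r) / ((n : ℝ) + s + 1 + z + r)) := by
    refine Finset.prod_congr rfl fun r _ => ?_
    push_cast
    congr 1 <;> ring
  rw [h2, h3, h4, h5, h1]

private theorem shift_vd (s Y : ℕ) (f : Fin s → ℕ) :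
    vd (fun i => e1 (f i : ℝ)) ^ 2 ≤
      vd (fun i => e1 (f i : ℝ)) * vd (fun i => e1 ((f i : ℝ) + (Y : ℝ))) := by
  unfold vd
  rw [sq, ← Finset.prod_mul_distrib, ← Finset.prod_mul_distrib]
  refine Finset.prod_le_prod (fun i _ => mul_self_nonneg _) fun i _ => ?_
  rw [← Finset.prod_mul_distrib, ← Finset.prod_mul_distrib]
  refine Finset.prod_le_prod (fun j _ => mul_self_nonneg _) fun j _ => ?_
  have h1 : (0 : ℝ) ≤ (f i : ℝ) := Nat.cast_nonneg _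
  have h2 : (0 : ℝ) ≤ (f j : ℝ) := Nat.cast_nonneg _
  have h3 : (0 : ℝ) ≤ (Y : ℝ) := Nat.cast_nonneg _
  unfold e1
  have h4 : ((f j : ℝ) * ((f j : ℝ) + 1) - (f i : ℝ) * ((f i : ℝ) + 1)) *
      (((f j : ℝ) + Y) * ((f j : ℝ) + Y + 1) - ((f i : ℝ) + Y) * ((f i : ℝ) + Y + 1)) -
      ((f j : ℝ) * ((f j : ℝ) + 1) - (f i : ℝ) * ((f i : ℝ) + 1)) *
      ((f j : ℝ) * ((f j : ℝ) + 1) - (f i : ℝ) * ((f i : ℝ) + 1)) =
      ((f j : ℝ) - f i) ^ 2 * (((f i : ℝ) + f j + 1) * (2 * Y)) := by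
    ring
  have h5 : 0 ≤ ((f j : ℝ) - f i) ^ 2 * (((f i : ℝ) + f j + 1) * (2 * Y)) := by positivity
  linarith

theorem SS_shift_ge (n L s Y : ℕ) :
    ∑ f ∈ cfg s (n + s), wt n L f * ∏ i, ∏ r ∈ range (2 * Y),
      ((((n + s + L + r + 1 : ℕ) : ℝ) + f i) / (((n + s + r + 1 : ℕ) : ℝ) + f i)) ≤
    SS ℝ (n + Y) L s Y := by
  unfold SS
  have h0 : n + Y + s - Y = n + s := by omega
  rw [h0]
  refine Finset.sum_le_sum fun f hf => ?_
  have h1 : ∏ i, Om (n + Y) L s ((f i : ℝ) + (Y : ℝ)) =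
      (∏ i, Om n L s (f i : ℝ)) * ∏ i, ∏ r ∈ range (2 * Y),
        ((((n + s + L + r + 1 : ℕ) : ℝ) + f i) / (((n + s + r + 1 : ℕ) : ℝ) + f i)) := by
    rw [← Finset.prod_mul_distrib]
    exact Finset.prod_congr rfl fun i _ => shift_Om n L s Y (f i : ℝ) (Nat.cast_nonneg _)
  rw [h1, ← mul_assoc]
  have h2 : 0 ≤ ∏ i, ∏ r ∈ range (2 * Y),
      ((((n + s + L + r + 1 : ℕ) : ℝ) + f i) / (((n + s + r + 1 : ℕ) : ℝ) + f i)) :=
    Finset.prod_nonneg fun i _ => Finset.prod_nonneg fun r _ => by positivity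
  refine mul_le_mul_of_nonneg_right ?_ h2
  unfold wt
  exact mul_le_mul_of_nonneg_right (shift_vd s Y f) (shift_prod_Om_pos hf).le

end Pool.Agent.helper54.Expl
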