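import Pool.Agent.helper54.Expl.NDefs
import Pool.Agent.helper54.Schub.Weights

/-!
# The block weights as a function of `m`

Proof.  Induction on `L` with `W_rec` (Schub/Weights):
`W m (L + 1) * (2 * (2 m + 1 + L).choose L) = W m L * (2 m + 2 L + 2).choose (2 L + 1)`.
`W_prod` is the same recursion written as a product: `W m L` is the number
`∏_{1 ≤ i < j ≤ L + 1} (2 m + i + j - 1) / (i + j - 1)`.
-/

set_option autoImplicit false
open Finset Pool.Agent.helper54.Schub

namespace Pool.Agent.helper54.Expl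

/-- the recursion `W_rec` in factorials -/
lemma Wr_fact (m L : ℕ) :
    W m (L + 1) * (2 * ((2 * m + L + 1).factorial : ℚ) * ((2 * L + 1).factorial : ℚ)) =
      W m L * (((2 * m + 2 * L + 2).factorial : ℚ) * (L.factorial : ℚ)) := by
  have h := W_rec m L
  have h1 : (((2 * m + 1 + L).choose L : ℕ) : ℚ) * (L.factorial : ℚ) * ((2 * m + 1).factorial : ℚ) =
      ((2 * m + L + 1).factorial : ℚ) := by
    have := Nat.choose_mul_factorial_mul_factorial (show L ≤ 2 * m + 1 + L by omega)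
    rw [show 2 * m + 1 + L - L = 2 * m + 1 by omega] at this
    rw [show 2 * m + L + 1 = 2 * m + 1 + L by ring]
    exact_mod_cast this
  have h2 : (((2 * m + 2 * L + 2).choose (2 * L + 1) : ℕ) : ℚ) * ((2 * L + 1).factorial : ℚ) *
      ((2 * m + 1).factorial : ℚ) = ((2 * m + 2 * L + 2).factorial : ℚ) := by
    have := Nat.choose_mul_factorial_mul_factorial
      (show 2 * L + 1 ≤ 2 * m + 2 * L + 2 by omega)
    rw [show 2 * m + 2 * L + 2 - (2 * L + 1) = 2 * m + 1 by omega] at this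
    exact_mod_cast this
  rw [← h1, ← h2]
  push_cast at h
  calc W m (L + 1) * (2 * ((((2 * m + 1 + L).choose L : ℕ) : ℚ) * (L.factorial : ℚ) *
          ((2 * m + 1).factorial : ℚ)) * ((2 * L + 1).factorial : ℚ))
      = (W m (L + 1) * (2 * (((2 * m + 1 + L).choose L : ℕ) : ℚ))) *
          ((L.factorial : ℚ) * ((2 * m + 1).factorial : ℚ) * ((2 * L + 1).factorial : ℚ)) := by ring
    _ = (W m L * (((2 * m + 2 * L + 2).choose (2 * L + 1) : ℕ) : ℚ)) *
          ((L.factorial : ℚ) * ((2 * m + 1).factorial : ℚ) * ((2 * L + 1).factorial : ℚ)) := by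
        rw [h]
    _ = _ := by ring

theorem W_ratio (m L : ℕ) :
    W (m + 1) L * (((2 * m + L + 1).factorial * (2 * m + L + 2).factorial : ℕ) : ℚ) =
      W m L * (((2 * m + 2 * L + 2).factorial * (2 * m + 1).factorial : ℕ) : ℚ) := by
  induction L with
  | zero =>
    simp only [W, Nat.mul_zero, Nat.add_zero]
    push_cast
    ring
  | succ L ih =>
    have e1 := Wr_fact m L
    have e2 := Wr_fact (m + 1) L
    rw [show 2 * (m + 1) + L + 1 = 2 * m + L + 3 by ring,
      show 2 * (m + 1) + 2 * L + 2 = 2 * m + 2 * L + 4 by ring] at e2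
    rw [show 2 * m + (L + 1) + 1 = 2 * m + L + 2 by ring,
      show 2 * m + (L + 1) + 2 = 2 * m + L + 3 by ring,
      show 2 * m + 2 * (L + 1) + 2 = 2 * m + 2 * L + 4 by ring]
    push_cast at ih ⊢
    have p1 : ((2 * m + L + 1).factorial : ℚ) ≠ 0 := by exact_mod_cast (Nat.factorial_pos _).ne'
    have p2 : ((2 * L + 1).factorial : ℚ) ≠ 0 := by exact_mod_cast (Nat.factorial_pos _).ne'
    have p3 : (2 * ((2 * m + L + 1).factorial : ℚ) * ((2 * L + 1).factorial : ℚ)) ≠ 0 := by
      positivity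
    apply mul_right_cancel₀ p3
    calc W (m + 1) (L + 1) * (((2 * m + L + 2).factorial : ℚ) * ((2 * m + L + 3).factorial : ℚ)) *
          (2 * ((2 * m + L + 1).factorial : ℚ) * ((2 * L + 1).factorial : ℚ))
        = (W (m + 1) (L + 1) * (2 * ((2 * m + L + 3).factorial : ℚ) * ((2 * L + 1).factorial : ℚ))) *
          (((2 * m + L + 1).factorial : ℚ) * ((2 * m + L + 2).factorial : ℚ)) := by ring
      _ = (W (m + 1) L * (((2 * m + 2 * L + 4).factorial : ℚ) * (L.factorial : ℚ))) *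
          (((2 * m + L + 1).factorial : ℚ) * ((2 * m + L + 2).factorial : ℚ)) := by rw [e2]
      _ = (W (m + 1) L * (((2 * m + L + 1).factorial : ℚ) * ((2 * m + L + 2).factorial : ℚ))) *
          (((2 * m + 2 * L + 4).factorial : ℚ) * (L.factorial : ℚ)) := by ring
      _ = (W m L * (((2 * m + 2 * L + 2).factorial : ℚ) * ((2 * m + 1).factorial : ℚ))) *
          (((2 * m + 2 * L + 4).factorial : ℚ) * (L.factorial : ℚ)) := by rw [ih]
      _ = (W m L * (((2 * m + 2 * L + 2).factorial : ℚ) * (L.factorial : ℚ))) *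
          (((2 * m + 2 * L + 4).factorial : ℚ) * ((2 * m + 1).factorial : ℚ)) := by ring
      _ = (W m (L + 1) * (2 * ((2 * m + L + 1).factorial : ℚ) * ((2 * L + 1).factorial : ℚ))) *
          (((2 * m + 2 * L + 4).factorial : ℚ) * ((2 * m + 1).factorial : ℚ)) := by rw [e1]
      _ = _ := by ring

/-- a product of consecutive numbers -/
lemma Wr_prod_fact (a n : ℕ) :
    (∏ i ∈ range n, ((a + i + 1 : ℕ) : ℚ)) * (a.factorial : ℚ) = ((a + n).factorial : ℚ) := by
  induction n with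
  | zero => simp
  | succ n ih =>
    rw [prod_range_succ, show a + (n + 1) = (a + n) + 1 by ring, Nat.factorial_succ, Nat.cast_mul,
      ← ih]
    ring

theorem W_prod (m L : ℕ) :
    W m (L + 1) = W m L * ∏ i ∈ range (L + 1), (((2 * m + i + L + 2 : ℕ) : ℚ) / ((i + L + 2 : ℕ) : ℚ)) := by
  rw [prod_div_distrib]
  have e1 := Wr_fact m L
  have h1 := Wr_prod_fact (2 * m + L + 1) (L + 1)
  have h2 := Wr_prod_fact (L + 1) (L + 1)
  have h1' : (∏ i ∈ range (L + 1), ((2 * m + i + L + 2 : ℕ) : ℚ)) =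
      ∏ i ∈ range (L + 1), ((2 * m + L + 1 + i + 1 : ℕ) : ℚ) := by
    apply prod_congr rfl
    intro i _
    congr 1
    ring
  have h2' : (∏ i ∈ range (L + 1), ((i + L + 2 : ℕ) : ℚ)) =
      ∏ i ∈ range (L + 1), ((L + 1 + i + 1 : ℕ) : ℚ) := by
    apply prod_congr rfl
    intro i _
    congr 1
    ring
  rw [h1', h2']
  rw [show 2 * m + L + 1 + (L + 1) = 2 * m + 2 * L + 2 by ring] at h1
  rw [show L + 1 + (L + 1) = (2 * L + 1) + 1 by ring, Nat.factorial_succ (2 * L + 1),
    Nat.factorial_succ L] at h2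
  push_cast at h2
  set A : ℚ := ∏ i ∈ range (L + 1), ((2 * m + L + 1 + i + 1 : ℕ) : ℚ) with hA
  have hBpos : 0 < ∏ i ∈ range (L + 1), ((L + 1 + i + 1 : ℕ) : ℚ) := by
    apply prod_pos
    intro i _
    positivity
  have h2'' : (∏ i ∈ range (L + 1), ((L + 1 + i + 1 : ℕ) : ℚ)) * (((L : ℚ) + 1) * (L.factorial : ℚ)) =
      (2 * (L : ℚ) + 1 + 1) * ((2 * L + 1).factorial : ℚ) := by
    rw [← h2]
    push_cast
    rfl
  set B : ℚ := ∏ i ∈ range (L + 1), ((L + 1 + i + 1 : ℕ) : ℚ) with hB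
  have h3 : B * (L.factorial : ℚ) = 2 * ((2 * L + 1).factorial : ℚ) := by
    have hL : ((L : ℚ) + 1) ≠ 0 := by positivity
    apply mul_left_cancel₀ hL
    calc ((L : ℚ) + 1) * (B * (L.factorial : ℚ)) = B * (((L : ℚ) + 1) * (L.factorial : ℚ)) := by ring
      _ = (2 * (L : ℚ) + 1 + 1) * ((2 * L + 1).factorial : ℚ) := h2''
      _ = _ := by ring
  rw [← mul_div_assoc, eq_div_iff hBpos.ne']
  have p1 : ((2 * m + L + 1).factorial : ℚ) ≠ 0 := by exact_mod_cast (Nat.factorial_pos _).ne'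
  have p2 : ((L).factorial : ℚ) ≠ 0 := by exact_mod_cast (Nat.factorial_pos _).ne'
  have p3 : ((2 * m + L + 1).factorial : ℚ) * (L.factorial : ℚ) ≠ 0 := mul_ne_zero p1 p2
  apply mul_right_cancel₀ p3
  calc W m (L + 1) * B * (((2 * m + L + 1).factorial : ℚ) * (L.factorial : ℚ))
      = W m (L + 1) * ((2 * m + L + 1).factorial : ℚ) * (B * (L.factorial : ℚ)) := by ring
    _ = W m (L + 1) * ((2 * m + L + 1).factorial : ℚ) * (2 * ((2 * L + 1).factorial : ℚ)) := by
        rw [h3]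
    _ = W m (L + 1) * (2 * ((2 * m + L + 1).factorial : ℚ) * ((2 * L + 1).factorial : ℚ)) := by ring
    _ = W m L * (((2 * m + 2 * L + 2).factorial : ℚ) * (L.factorial : ℚ)) := e1
    _ = W m L * (A * ((2 * m + L + 1).factorial : ℚ) * (L.factorial : ℚ)) := by rw [h1]
    _ = _ := by ring

end Pool.Agent.helper54.Expl
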