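import Pool.Agent.helper54.Expl.Dtr
import Pool.Agent.helper54.Expl.FopVal
import Pool.Agent.helper54.Expl.Wr
import Pool.Agent.helper54.Expl.Diag

/-!
# The ratio formula for the particle sums
-/

set_option autoImplicit false
open Finset Pool.Agent.helper54.Schub

namespace Pool.Agent.helper54.Expl

lemma dt_zero (m L s : ℕ) (hs : 1 ≤ s) : Dt m L s 0 = W m (L + 2 * s - 1) := by
  rw [← fop_det 0 m L s 0 hs (Nat.zero_le _), Nat.sub_zero, fop_zero]

lemma dt_full (m L s : ℕ) (hs : 1 ≤ s) : Dt m L s m = W m (L + s - 1) := by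
  rw [← fop_det 0 m L s m hs le_rfl, Nat.sub_self, fop_full _ _ _ _ (by omega)]
  congr 1
  omega

/-- the restricted block count in terms of the particle sum -/
theorem dt_eq (m L s Y : ℕ) (hs : 1 ≤ s) (hY : Y ≤ m) :
    Dt m L s Y * SS ℚ m L s m = W m (L + s - 1) * SS ℚ m L s Y := by
  have h0 : Dt m L s m ≠ 0 := by rw [dt_full m L s hs]; exact (W_pos _ _).ne'
  rw [dt_ratio m L s Y hs hY h0, dt_full m L s hs]

lemma fac_prod (a : ℕ) : ∀ n : ℕ, a.factorial * ∏ q ∈ range n, (a + 1 + q) = (a + n).factorial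
  | 0 => by simp
  | n + 1 => by
    rw [prod_range_succ, ← mul_assoc, fac_prod a n, ← add_assoc, Nat.factorial_succ, mul_comm]
    congr 1
    ring

lemma fac_prod2 (m : ℕ) : ∀ s : ℕ, (2 * m + 1).factorial *
    ∏ i ∈ range s, ((2 * m + 2 * i + 2) * (2 * m + 2 * i + 3)) = (2 * m + 2 * s + 1).factorial
  | 0 => by simp
  | s + 1 => by
    rw [prod_range_succ, ← mul_assoc, fac_prod2 m s,
      show 2 * m + 2 * (s + 1) + 1 = (2 * m + 2 * s + 1) + 1 + 1 by ring,
      Nat.factorial_succ (2 * m + 2 * s + 1 + 1), Nat.factorial_succ (2 * m + 2 * s + 1)]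
    ring

theorem SS_ratio (m L s : ℕ) (hs : 1 ≤ s) :
    SS ℚ (m + 1) L s 0 * ∏ q ∈ range (2 * s), ((2 * m + 2 + q : ℕ) : ℚ) =
      SS ℚ m L s 0 * ∏ q ∈ range (2 * s), ((2 * m + 2 * L + 2 * s + 1 + q : ℕ) : ℚ) := by
  have E4 := dt_eq m L s 0 hs (Nat.zero_le _)
  have E5 := dt_eq (m + 1) L s 0 hs (Nat.zero_le _)
  rw [dt_zero _ _ _ hs] at E4 E5
  have E1 := W_ratio m (L + 2 * s - 1)
  have E2 := W_ratio m (L + s - 1)
  have E3 := SS_diag m L s
  rw [show 2 * m + (L + 2 * s - 1) + 1 = 2 * m + L + 2 * s by omega,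
    show 2 * m + (L + 2 * s - 1) + 2 = 2 * m + L + 2 * s + 1 by omega,
    show 2 * m + 2 * (L + 2 * s - 1) + 2 = 2 * m + 2 * L + 4 * s by omega] at E1
  rw [show 2 * m + (L + s - 1) + 1 = 2 * m + L + s by omega,
    show 2 * m + (L + s - 1) + 2 = 2 * m + L + s + 1 by omega,
    show 2 * m + 2 * (L + s - 1) + 2 = 2 * m + 2 * L + 2 * s by omega] at E2
  have F1 := fac_prod2 m s
  have F2 : (2 * m + 1).factorial * ∏ q ∈ range (2 * s), (2 * m + 2 + q) =
      (2 * m + 2 * s + 1).factorial := by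
    have := fac_prod (2 * m + 1) (2 * s)
    rwa [show 2 * m + 1 + 2 * s = 2 * m + 2 * s + 1 by ring] at this
  have F3 : (2 * m + L + s).factorial * ∏ i ∈ range s, (2 * m + s + L + i + 1) =
      (2 * m + L + 2 * s).factorial := by
    rw [show 2 * m + L + 2 * s = 2 * m + L + s + s by ring, ← fac_prod (2 * m + L + s) s]
    congr 1
    apply prod_congr rfl
    intro i _
    ring
  have F4 : (2 * m + L + s + 1).factorial * ∏ i ∈ range s, (2 * m + s + L + i + 2) =
      (2 * m + L + 2 * s + 1).factorial := by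
    rw [show 2 * m + L + 2 * s + 1 = 2 * m + L + s + 1 + s by ring,
      ← fac_prod (2 * m + L + s + 1) s]
    congr 1
    apply prod_congr rfl
    intro i _
    ring
  have F5 : (2 * m + 2 * L + 2 * s).factorial *
      ∏ q ∈ range (2 * s), (2 * m + 2 * L + 2 * s + 1 + q) =
      (2 * m + 2 * L + 4 * s).factorial := by
    rw [fac_prod]
    congr 1
    ring
  rw [← Nat.cast_prod] at E3 ⊢
  rw [← Nat.cast_prod] at E3 ⊢
  rw [prod_mul_distrib (f := fun i => 2 * m + s + L + i + 1)] at E3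
  have hPP : ∏ i ∈ range s, ((2 * m + 2 * i + 2) * (2 * m + 2 * i + 3)) =
      ∏ q ∈ range (2 * s), (2 * m + 2 + q) := by
    have := F1.trans F2.symm
    exact Nat.eq_of_mul_eq_mul_left (Nat.factorial_pos _) this
  rw [hPP] at E3
  set P := ∏ q ∈ range (2 * s), (2 * m + 2 + q)
  set R := ∏ q ∈ range (2 * s), (2 * m + 2 * L + 2 * s + 1 + q)
  set Q1 := ∏ i ∈ range s, (2 * m + s + L + i + 1)
  set Q2 := ∏ i ∈ range s, (2 * m + s + L + i + 2)
  set A := W m (L + 2 * s - 1)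
  set A' := W (m + 1) (L + 2 * s - 1)
  set B := W m (L + s - 1)
  set B' := W (m + 1) (L + s - 1) with hB'
  set Z := SS ℚ m L s 0
  set Z' := SS ℚ (m + 1) L s 0
  set D := SS ℚ m L s m
  set D' := SS ℚ (m + 1) L s (m + 1)
  rw [← F3, ← F4, ← F5] at E1
  set a4 := (2 * m + 1).factorial
  set b1 := (2 * m + L + s).factorial with hb1
  set b2 := (2 * m + L + s + 1).factorial with hb2
  set b3 := (2 * m + 2 * L + 2 * s).factorial
  push_cast at E1 E2 E3 ⊢
  have hne : B' * (b1 * b2 : ℚ) ≠ 0 := by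
    refine mul_ne_zero (W_pos _ _).ne' (mul_ne_zero ?_ ?_)
    · rw [hb1]; exact_mod_cast (Nat.factorial_pos _).ne'
    · rw [hb2]; exact_mod_cast (Nat.factorial_pos _).ne'
  have key : Z' * P * (B' * (b1 * b2)) = Z * R * (B' * (b1 * b2)) := by
    calc Z' * P * (B' * (b1 * b2)) = (B' * Z') * P * (b1 * b2) := by ring
      _ = A' * (D' * P) * (b1 * b2) := by rw [← E5]; ring
      _ = D * (A' * (b1 * Q1 * (b2 * Q2))) := by rw [E3]; ring
      _ = D * (A * (b3 * R * a4)) := by rw [E1]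
      _ = (A * D) * (b3 * R * a4) := by ring
      _ = Z * R * (B * (b3 * a4)) := by rw [E4]; ring
      _ = _ := by rw [← E2]
  exact mul_right_cancel₀ hne key

lemma SS_cast (m L s Y : ℕ) : ((SS ℚ m L s Y : ℚ) : ℝ) = SS ℝ m L s Y := by
  unfold SS vd e1 Om
  push_cast
  rfl

theorem SS_ratio_real (m L s : ℕ) (hs : 1 ≤ s) :
    SS ℝ (m + 1) L s 0 * ∏ q ∈ range (2 * s), ((2 * m + 2 + q : ℕ) : ℝ) =
      SS ℝ m L s 0 * ∏ q ∈ range (2 * s), ((2 * m + 2 * L + 2 * s + 1 + q : ℕ) : ℝ) := by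
  have h := SS_ratio m L s hs
  have h2 := congrArg (fun x : ℚ => (x : ℝ)) h
  simp only [Rat.cast_mul, SS_cast, Rat.cast_prod, Rat.cast_natCast] at h2
  exact h2

end Pool.Agent.helper54.Expl
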